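import Pool.Agent.VL.MDefs

set_option autoImplicit false

universe u w

open Filter Finset

namespace Pool.Agent.VL

open Pool.Agent.VOAut

section M
variable {V : Type u} [AddCommGroup V] [Module ℂ V] {A : VOA V}
  {M : Type w} [AddCommGroup M] [Module ℂ M] (X : Adm A M) (L : Lat A)

theorem ma_ch1 (i : ℕ) : (-1 : ℂ) ^ i * ((Ring.choose (-1 : ℤ) i : ℤ) : ℂ) = 1 := by
  have h1 : Ring.choose (-1 : ℤ) i = (-1) ^ i := by
    rw [Ring.choose_neg', Ring.multichoose_one, Units.smul_def, Int.coe_negOnePow_natCast]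
    simp
  rw [h1]
  push_cast
  rw [← mul_pow]
  norm_num

theorem ma_ch2 (i : ℕ) : (-1 : ℂ) ^ i * ((Ring.choose (-2 : ℤ) i : ℤ) : ℂ) = (i : ℂ) + 1 := by
  have h1 : Ring.choose (-2 : ℤ) i = (-1) ^ i * ((i : ℤ) + 1) := by
    rw [Ring.choose_neg', Ring.multichoose_two, Units.smul_def, Int.coe_negOnePow_natCast]
    simp
  rw [h1]
  push_cast
  rw [← mul_assoc, ← mul_pow]
  norm_num

theorem mcomm (u v : V) (x : M) (m n : ℤ) : X.Y u m (X.Y v n x) - X.Y v n (X.Y u m x) =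
    ∑ᶠ i : ℕ, ((Ring.choose m i : ℤ) : ℂ) • X.Y (A.Y u i v) (m + n - i) x := by
  have h1 := X.jacobi u v x 0 m n
  rw [finsum_eq_single (fun i : ℕ => ((-1 : ℂ) ^ i * ((Ring.choose (0 : ℤ) i : ℤ) : ℂ)) •
      (X.Y u (m + 0 - i) (X.Y v (n + i) x) - (-1 : ℂ) ^ (0 : ℤ) •
        X.Y v (n + 0 - i) (X.Y u (m + i) x))) 0] at h1
  · simp only [zero_add] at h1
    rw [h1]
    simp
  · intro i hi
    have : Ring.choose (0 : ℤ) i = 0 := by
      rw [Ring.choose_zero_pos _ (Nat.pos_of_ne_zero hi)]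
    rw [this]
    simp

theorem miter (u v : V) (x : M) (l n : ℤ) : X.Y (A.Y u l v) n x =
    ∑ᶠ i : ℕ, ((-1 : ℂ) ^ i * ((Ring.choose l i : ℤ) : ℂ)) •
      (X.Y u (l - i) (X.Y v (n + i) x) - (-1 : ℂ) ^ l • X.Y v (n + l - i) (X.Y u i x)) := by
  have h1 := X.jacobi u v x l 0 n
  rw [finsum_eq_single (fun i : ℕ => ((Ring.choose (0 : ℤ) i : ℤ) : ℂ) •
    X.Y (A.Y u (l + i) v) (0 + n - i) x) 0] at h1
  · simp only [zero_add] at h1
    rw [← h1]
    simp
  · intro i hi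
    have : Ring.choose (0 : ℤ) i = 0 := by
      rw [Ring.choose_zero_pos _ (Nat.pos_of_ne_zero hi)]
    rw [this]
    simp

theorem mtrans (u : V) (n : ℤ) (x : M) :
    X.Y (A.Y u (-2) A.vac) n x = (-(n : ℂ)) • X.Y u (n - 1) x := by
  rw [miter]
  simp only [ma_ch2, X.vacuum]
  rcases lt_trichotomy n 0 with hn | hn | hn
  · obtain ⟨k, hk⟩ : ∃ k : ℕ, n = -1 - k := ⟨(-1 - n).toNat, by omega⟩
    subst hk
    rw [finsum_eq_single _ k]
    · have h1 : (-1 - (k : ℤ) + k) = -1 := by ring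
      have h2 : ¬ (-1 - (k : ℤ) + -2 - k = -1) := by omega
      rw [if_pos h1, if_neg h2, smul_zero, sub_zero]
      have h3 : (-2 : ℤ) - k = -1 - k - 1 := by ring
      rw [h3]
      push_cast
      congr 1
      ring
    · intro i hi
      have h1 : ¬ (-1 - (k : ℤ) + i = -1) := by omega
      have h2 : ¬ (-1 - (k : ℤ) + -2 - i = -1) := by omega
      rw [if_neg h1, if_neg h2]
      simp
  · subst hn
    rw [finsum_eq_zero_of_forall_eq_zero]
    · simp
    · intro i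
      have h1 : ¬ ((0 : ℤ) + i = -1) := by omega
      have h2 : ¬ ((0 : ℤ) + -2 - i = -1) := by omega
      rw [if_neg h1, if_neg h2]
      simp
  · obtain ⟨k, hk⟩ : ∃ k : ℕ, n = k + 1 := ⟨(n - 1).toNat, by omega⟩
    subst hk
    rw [finsum_eq_single _ k]
    · have h1 : ¬ ((k : ℤ) + 1 + k = -1) := by omega
      have h2 : ((k : ℤ) + 1 + -2 - k = -1) := by ring
      rw [if_neg h1, if_pos h2]
      have h3 : (k : ℤ) + 1 - 1 = k := by ring
      rw [h3, map_zero, zero_sub]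
      push_cast
      have h4 : (-1 : ℂ) ^ (-2 : ℤ) = 1 := by norm_num
      rw [h4, one_smul, smul_neg, neg_smul]
    · intro i hi
      have h1 : ¬ ((k : ℤ) + 1 + i = -1) := by omega
      have h2 : ¬ ((k : ℤ) + 1 + -2 - i = -1) := by omega
      rw [if_neg h1, if_neg h2]
      simp

theorem mhh (m n : ℤ) (x : M) : X.Y L.h m (X.Y L.h n x) - X.Y L.h n (X.Y L.h m x) =
    (if m + n = 0 then (m : ℂ) * L.κ else 0) • x := by
  rw [mcomm, finsum_eq_single _ 1]
  · rw [L.hh, if_pos rfl, Ring.choose_one_right, map_smul, Pi.smul_apply,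
      LinearMap.smul_apply, X.vacuum]
    by_cases h : m + n = 0
    · rw [if_pos (by push_cast; omega), if_pos h, smul_smul]
    · rw [if_neg (by push_cast; omega), if_neg h]
      simp
  · intro i hi
    rw [L.hh, if_neg hi]
    simp

theorem mhe (m n : ℤ) (x : M) : X.Y L.h m (X.Y L.e n x) - X.Y L.e n (X.Y L.h m x) =
    (L.κ : ℂ) • X.Y L.e (m + n) x := by
  rw [mcomm, finsum_eq_single _ 0]
  · rw [L.he, if_pos rfl, Ring.choose_zero_right, map_smul, Pi.smul_apply,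
      LinearMap.smul_apply]
    simp
  · intro i hi
    rw [L.he, if_neg hi]
    simp

theorem mhf (m n : ℤ) (x : M) : X.Y L.h m (X.Y L.f n x) - X.Y L.f n (X.Y L.h m x) =
    (-(L.κ : ℂ)) • X.Y L.f (m + n) x := by
  rw [mcomm, finsum_eq_single _ 0]
  · rw [L.hf, if_pos rfl, Ring.choose_zero_right, map_smul, Pi.smul_apply,
      LinearMap.smul_apply]
    simp
  · intro i hi
    rw [L.hf, if_neg hi]
    simp

theorem mrec (n : ℤ) (x : M) : (-(n : ℂ)) • X.Y L.e (n - 1) x =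
    ∑ᶠ i : ℕ, (X.Y L.h (-1 - i) (X.Y L.e (n + i) x) + X.Y L.e (n - 1 - i) (X.Y L.h i x)) := by
  rw [← mtrans, L.Te, miter]
  apply finsum_congr
  intro i
  rw [ma_ch1, one_smul]
  have h1 : (-1 : ℂ) ^ (-1 : ℤ) = -1 := by norm_num
  have h2 : n + -1 - (i : ℤ) = n - 1 - i := by ring
  rw [h1, h2, neg_smul, one_smul, sub_neg_eq_add]

theorem ma_iter_mem (N : Submodule ℂ M) (u v : V)
    (hu : ∀ (n : ℤ) (x : M), x ∈ N → X.Y u n x ∈ N)
    (hv : ∀ (n : ℤ) (x : M), x ∈ N → X.Y v n x ∈ N) (l n : ℤ) (x : M) (hx : x ∈ N) :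
    X.Y (A.Y u l v) n x ∈ N := by
  rw [miter]
  apply finsum_induction (fun y => y ∈ N) N.zero_mem (fun y z => N.add_mem)
  intro i
  exact N.smul_mem _ (N.sub_mem (hu _ _ (hv _ _ hx)) (N.smul_mem _ (hv _ _ (hu _ _ hx))))

theorem mstable (N : Submodule ℂ M) (hN : ∀ (n : ℤ) (x : M), x ∈ N →
    X.Y L.h n x ∈ N ∧ X.Y L.e n x ∈ N ∧ X.Y L.f n x ∈ N) (u : V) (n : ℤ) (x : M) (hx : x ∈ N) :
    X.Y u n x ∈ N := by
  let S : Submodule ℂ V :=
    { carrier := {u | ∀ (n : ℤ) (x : M), x ∈ N → X.Y u n x ∈ N}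
      zero_mem' := by
        intro n x _
        rw [map_zero]
        exact N.zero_mem
      add_mem' := by
        intro u v hu hv n x hx
        rw [map_add]
        exact N.add_mem (hu n x hx) (hv n x hx)
      smul_mem' := by
        intro c u hu n x hx
        rw [map_smul]
        exact N.smul_mem c (hu n x hx) }
  have h1 : S = ⊤ := by
    apply L.gen S
    · intro n x hx
      rw [X.vacuum]
      split_ifs
      · exact hx
      · exact N.zero_mem
    · intro l v hv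
      exact ⟨ma_iter_mem X N L.h v (fun n x hx => (hN n x hx).1) hv l,
        ma_iter_mem X N L.e v (fun n x hx => (hN n x hx).2.1) hv l,
        ma_iter_mem X N L.f v (fun n x hx => (hN n x hx).2.2) hv l⟩
  have h2 : u ∈ S := h1 ▸ Submodule.mem_top
  exact h2 n x hx

end M

end Pool.Agent.VL
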