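import Pool.Agent.VL.MDefs
import Pool.Agent.VOAut.Basic

/-! AUT: automorphisms are trivial. -/

set_option autoImplicit false

universe u

open Filter Finset

namespace Pool.Agent.VL

open Pool.Agent.VOAut

variable {V : Type u} [AddCommGroup V] [Module ℂ V] {A : VOA V} (L : Lat A)

theorem aut_eh : A.Y L.e 0 L.h = (-(L.κ : ℂ)) • L.e := by
  obtain ⟨K, h1, h2⟩ := ((A.comm_ev L.h L.e A.vac (-1) 0).and (eventually_ge_atTop 1)).exists
  rw [A.creation L.e 0 le_rfl, map_zero, A.creation_neg_one, zero_sub,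
    Finset.sum_eq_single 0] at h1
  · have h3 := L.he 0
    rw [if_pos rfl] at h3
    simp only [Ring.choose_zero_right, Int.cast_one, one_smul, Nat.cast_zero, sub_zero,
      add_zero] at h1 h3
    rw [h3, A.creation_neg_one] at h1
    rw [neg_smul, ← h1, neg_neg]
  · intro i _ hi
    have h3 := L.he i
    rw [if_neg hi] at h3
    rw [h3, map_zero]
    simp
  · intro h
    exact absurd (Finset.mem_range.2 h2) h

theorem aut_trivial (s t : ℂ)
    (hom : A.om = t • A.Y L.h (-1) L.h + s • A.Y L.h (-2) A.vac + A.Y A.om 0 (A.Y A.om 0 L.e))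
    (hp : L.p = 0) (hneg : ∀ n : ℤ, n < 0 → A.gr n = ⊥)
    (hli : ∀ x y : ℂ, x • A.vac + y • L.e = 0 → x = 0 ∧ y = 0)
    (hee : A.Y L.e (-1) L.e = 0)
    (hTe : A.Y A.om 0 (A.Y A.om 0 L.e) ≠ 0)
    (h0 : ∀ v ∈ A.gr 0, ∃ x y : ℂ, v = x • A.vac + y • L.e)
    (h1 : ∀ v ∈ A.gr 1, ∃ x y : ℂ, v = x • L.h + y • A.Y A.om 0 L.e)
    (hf : ∀ v : V, A.Y L.h 0 v = (-(L.κ : ℂ)) • v → (∀ n : ℕ, A.Y L.h (n + 1) v = 0) →
      ∃ c : ℂ, v = c • L.f)
    (g : V ≃ₗ[ℂ] V) (hg : A.IsAut g) : g = LinearEquiv.refl ℂ V := by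
  obtain ⟨hg1, hg2⟩ := hg
  have hκ : (L.κ : ℂ) ≠ 0 := Nat.cast_ne_zero.mpr L.κ_pos.ne'
  have he0 : L.e ≠ 0 := by
    intro h
    have h2 := (hli 0 1 (by rw [h]; simp)).2
    exact one_ne_zero h2
  have hv0 : A.vac ≠ 0 := by
    intro h
    have h2 := (hli 1 0 (by rw [h]; simp)).1
    exact one_ne_zero h2
  -- the vacuum is fixed
  have gvac : g A.vac = A.vac := by
    have h2 : ∀ w, A.Y (g A.vac) (-1) w = w := by
      intro w
      obtain ⟨w', rfl⟩ := g.surjective w
      rw [← hg1, A.vacuum, if_pos rfl]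
    have h3 := h2 A.vac
    rwa [A.creation_neg_one] at h3
  have ggr : ∀ (n : ℤ) (v : V), v ∈ A.gr n → g v ∈ A.gr n := by
    intro n v hv
    rw [A.mem_gr] at hv ⊢
    have h2 := hg1 A.om 1 v
    rw [hg2, hv, map_smul] at h2
    exact h2.symm
  have gT : ∀ v, g (A.Y A.om 0 v) = A.Y A.om 0 (g v) := by
    intro v
    rw [hg1, hg2]
  -- e
  obtain ⟨c, hc⟩ : ∃ c : ℂ, g L.e = c • L.e := by
    have h2 := L.e_mem
    rw [hp] at h2
    obtain ⟨x, y, hxy⟩ := h0 _ (ggr 0 _ h2)
    refine ⟨y, ?_⟩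
    have h3 := hg1 L.e (-1) L.e
    rw [hee, map_zero, hxy] at h3
    simp only [map_add, map_smul, LinearMap.add_apply, LinearMap.smul_apply, Pi.add_apply,
      Pi.smul_apply, A.vacuum, if_true, A.creation_neg_one, hee, smul_zero, add_zero,
      smul_add] at h3
    have h4 := hli (x * x) (x * y + x * y) (by
      rw [h3]
      module)
    have h5 : x = 0 := mul_self_eq_zero.mp h4.1
    rw [hxy, h5, zero_smul, zero_add]
  have hc0 : c ≠ 0 := by
    rintro rfl
    rw [zero_smul] at hc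
    exact he0 (g.map_eq_zero_iff.mp hc)
  have hh0e : A.Y L.h 0 L.e = (L.κ : ℂ) • L.e := by
    have h2 := L.he 0
    simpa using h2
  have hh1e : A.Y L.h 1 L.e = 0 := by
    have h2 := L.he 1
    simpa using h2
  have hh1h : A.Y L.h 1 L.h = (L.κ : ℂ) • A.vac := by
    have h2 := L.hh 1
    simpa using h2
  have hTe0 : A.Y (A.Y A.om 0 L.e) 0 = 0 := by
    rw [A.translation]
    simp
  have hTe1 : A.Y (A.Y A.om 0 L.e) 1 = -A.Y L.e 0 := by
    rw [A.translation]
    simp
  have hh1Te : A.Y L.h 1 (A.Y A.om 0 L.e) = (L.κ : ℂ) • L.e := by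
    have h2 := A.zero_mode A.om L.h L.e 1
    rw [hh1e, map_zero, A.translation] at h2
    simp only [Int.cast_one, sub_self, neg_smul, one_smul, LinearMap.neg_apply, hh0e] at h2
    exact (neg_add_eq_zero.mp h2.symm).symm
  have hTeh : A.Y (A.Y A.om 0 L.e) 1 L.h = (L.κ : ℂ) • L.e := by
    rw [hTe1, LinearMap.neg_apply, aut_eh]
    simp
  have hTeTe : A.Y (A.Y A.om 0 L.e) 1 (A.Y A.om 0 L.e) = 0 := by
    have h2 := A.zero_mode A.om L.e L.e 0
    have h3 : A.Y L.e 0 L.e = 0 := by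
      have h4 := L.e_mem
      rw [hp] at h4
      have h5 := A.graded 0 0 0 L.e L.e h4 h4
      rw [hneg _ (by norm_num)] at h5
      exact (Submodule.mem_bot ℂ).mp h5
    rw [h3, map_zero, hTe0, LinearMap.zero_apply, zero_add] at h2
    rw [hTe1, LinearMap.neg_apply, ← h2, neg_zero]
  -- h
  have gh : g L.h = L.h := by
    obtain ⟨x, y, hxy⟩ := h1 _ (ggr 1 _ L.h_mem)
    have hx : x = 1 := by
      have h2 := hg1 L.h 0 L.e
      rw [hh0e, map_smul, hc, hxy] at h2
      simp only [map_add, map_smul, LinearMap.add_apply, LinearMap.smul_apply, Pi.add_apply,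
        Pi.smul_apply, hTe0, LinearMap.zero_apply, smul_zero, add_zero, hh0e] at h2
      have h3 : ((L.κ : ℂ) * c * (x - 1)) • L.e = 0 := by
        have h4 : ((L.κ : ℂ) * c * (x - 1)) • L.e = c • x • (L.κ : ℂ) • L.e -
            (L.κ : ℂ) • c • L.e := by module
        rw [h4, h2, sub_self]
      rcases smul_eq_zero.mp h3 with h | h
      · rcases mul_eq_zero.mp h with h | h
        · exact absurd h (mul_ne_zero hκ hc0)
        · exact sub_eq_zero.mp h
      · exact absurd h he0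
    have hy : y = 0 := by
      have h2 := hg1 L.h 1 L.h
      rw [hh1h, map_smul, gvac, hxy, hx] at h2
      simp only [map_add, map_smul, LinearMap.add_apply, LinearMap.smul_apply, Pi.add_apply,
        Pi.smul_apply, one_smul, hh1h, hh1Te, hTeh, hTeTe, smul_zero, add_zero] at h2
      have h3 : ((L.κ : ℂ) * 2 * y) • L.e = 0 := by
        have h4 : ((L.κ : ℂ) * 2 * y) • L.e = ((L.κ : ℂ) • A.vac + y • (L.κ : ℂ) • L.e +
            y • (L.κ : ℂ) • L.e) - (L.κ : ℂ) • A.vac := by module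
        rw [h4, ← h2, sub_self]
      rcases smul_eq_zero.mp h3 with h | h
      · rcases mul_eq_zero.mp h with h | h
        · exact absurd h (mul_ne_zero hκ two_ne_zero)
        · exact h
      · exact absurd h he0
    rw [hxy, hx, hy]
    simp
  -- om
  have hc1 : c = 1 := by
    have e1 : g (A.Y L.h (-1) L.h) = A.Y L.h (-1) L.h := by rw [hg1, gh]
    have e2 : g (A.Y L.h (-2) A.vac) = A.Y L.h (-2) A.vac := by rw [hg1, gh, gvac]
    have e3 : g (A.Y A.om 0 (A.Y A.om 0 L.e)) = c • A.Y A.om 0 (A.Y A.om 0 L.e) := by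
      rw [gT, gT, hc, map_smul, map_smul]
    have h2 : g A.om = t • A.Y L.h (-1) L.h + s • A.Y L.h (-2) A.vac +
        c • A.Y A.om 0 (A.Y A.om 0 L.e) := by
      conv_lhs => rw [hom]
      rw [map_add, map_add, map_smul, map_smul, e1, e2, e3]
    have h3 : (c - 1) • A.Y A.om 0 (A.Y A.om 0 L.e) = 0 := by
      have h4 : (c - 1) • A.Y A.om 0 (A.Y A.om 0 L.e) =
          (t • A.Y L.h (-1) L.h + s • A.Y L.h (-2) A.vac + c • A.Y A.om 0 (A.Y A.om 0 L.e)) -
          (t • A.Y L.h (-1) L.h + s • A.Y L.h (-2) A.vac + A.Y A.om 0 (A.Y A.om 0 L.e)) := by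
        module
      rw [h4, ← h2, ← hom, hg2, sub_self]
    rcases smul_eq_zero.mp h3 with h | h
    · exact sub_eq_zero.mp h
    · exact absurd h hTe
  have ge : g L.e = L.e := by rw [hc, hc1, one_smul]
  -- f
  have gf : g L.f = L.f := by
    obtain ⟨c', hc'⟩ := hf (g L.f) (by
      have h2 := hg1 L.h 0 L.f
      have h3 := L.hf 0
      rw [if_pos rfl, Nat.cast_zero] at h3
      rw [gh, h3, map_smul] at h2
      exact h2.symm) (by
      intro n
      have h2 := hg1 L.h (n + 1) L.f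
      have h3 := L.hf (n + 1)
      rw [if_neg (Nat.succ_ne_zero n)] at h3
      push_cast at h3
      rw [gh, h3, map_zero] at h2
      exact h2.symm)
    have h2 := hg1 L.e ((L.κ : ℤ) - 1) L.f
    rw [ge, hc', L.ef1, map_smul, gvac, map_smul, L.ef1] at h2
    have h3 : (L.b * (c' - 1)) • A.vac = 0 := by
      have h4 : (L.b * (c' - 1)) • A.vac = c' • L.b • A.vac - L.b • A.vac := by module
      rw [h4, ← h2, sub_self]
    have h5 : c' = 1 := by
      rcases smul_eq_zero.mp h3 with h | h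
      · rcases mul_eq_zero.mp h with h | h
        · exact absurd h L.b_ne
        · exact sub_eq_zero.mp h
      · exact absurd h hv0
    rw [hc', h5, one_smul]
  -- conclusion
  let N : Submodule ℂ V := LinearMap.ker ((g : V →ₗ[ℂ] V) - LinearMap.id)
  have hN : ∀ v, v ∈ N ↔ g v = v := by
    intro v
    simp [N, sub_eq_zero]
  have htop := L.gen N ((hN _).2 gvac) (by
    intro n v hv
    rw [hN] at hv
    refine ⟨(hN _).2 ?_, (hN _).2 ?_, (hN _).2 ?_⟩
    · rw [hg1, gh, hv]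
    · rw [hg1, ge, hv]
    · rw [hg1, gf, hv])
  ext v
  have h2 : v ∈ N := by
    rw [htop]
    trivial
  exact (hN v).1 h2

end Pool.Agent.VL
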