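import Pool.Agent.VL.LA

set_option autoImplicit false

open Filter Finset

namespace Pool.Agent.VL

open Pool.Agent.VOAut

theorem lb_neg (ε p : ℤ) (hp : p < 0) : SZ ε p = 0 := by
  unfold SZ
  rw [if_neg (by omega)]

theorem lb_zero (ε : ℤ) : SZ ε 0 = 1 := by
  unfold SZ
  rw [if_pos le_rfl]
  simp [Sch]

theorem lb_ne (p : ℕ) : ((p : ℂ) + 1) ≠ 0 := Nat.cast_add_one_ne_zero p

theorem lb_Sch_succ (ε : ℤ) (p : ℕ) : ((p : ℂ) + 1) • Sch ε (p + 1) =
    (ε : ℂ) • ∑ i ∈ range (p + 1), (MvPolynomial.X i : SX) * Sch ε (p - i) := by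
  have h : Sch ε (p + 1) = ((ε : ℂ) / ((p : ℂ) + 1)) • ∑ i : Fin (p + 1),
      MvPolynomial.X (i : ℕ) * Sch ε (p - i) := by
    rw [Sch]
  rw [h, smul_smul, mul_div_cancel₀ _ (lb_ne p)]
  rw [Finset.sum_range (fun i => (MvPolynomial.X i : SX) * Sch ε (p - i))]

/-- the recursion for all integers -/
theorem lb_rec (ε p : ℤ) (K : ℕ) (hK : p ≤ K) : (p : ℂ) • SZ ε p =
    (ε : ℂ) • ∑ i ∈ range K, (MvPolynomial.X i : SX) * SZ ε (p - (i + 1)) := by
  rcases lt_trichotomy p 0 with h | h | h
  · rw [lb_neg ε p h, smul_zero, Finset.sum_eq_zero, smul_zero]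
    intro i _
    rw [lb_neg ε _ (by omega), mul_zero]
  · subst h
    rw [Int.cast_zero, zero_smul, Finset.sum_eq_zero, smul_zero]
    intro i _
    rw [lb_neg ε _ (by omega), mul_zero]
  · obtain ⟨q, rfl⟩ : ∃ q : ℕ, p = (q : ℤ) + 1 := ⟨(p - 1).toNat, by omega⟩
    have h1 : SZ ε ((q : ℤ) + 1) = Sch ε (q + 1) := by
      unfold SZ
      rw [if_pos (by omega)]
      congr 1
    rw [h1]
    have h2 := lb_Sch_succ ε q
    push_cast
    rw [h2]
    congr 1
    rw [← Finset.sum_subset (Finset.range_subset_range.2 (show q + 1 ≤ K by omega))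
      (fun i _ hi => by
        rw [Finset.mem_range, not_lt] at hi
        rw [lb_neg ε _ (by omega), mul_zero])]
    refine Finset.sum_congr rfl (fun i hi => ?_)
    rw [Finset.mem_range] at hi
    congr 1
    unfold SZ
    rw [if_pos (by omega)]
    congr 1
    omega

theorem SZ_pderiv (ε : ℤ) (p : ℤ) (i : ℕ) :
    ((i : ℂ) + 1) • MvPolynomial.pderiv (R := ℂ) i (SZ ε p) = (ε : ℂ) • SZ ε (p - (i + 1)) := by
  -- strong induction
  have key : ∀ (r : ℕ) (p : ℤ), p ≤ r →
      ((i : ℂ) + 1) • MvPolynomial.pderiv (R := ℂ) i (SZ ε p) =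
        (ε : ℂ) • SZ ε (p - (i + 1)) := by
    intro r
    induction r with
    | zero =>
      intro p hp
      rw [lb_neg ε (p - (i + 1)) (by push_cast at hp; omega), smul_zero]
      rcases eq_or_lt_of_le hp with h | h
      · push_cast at h
        rw [h, lb_zero, Derivation.map_one_eq_zero, smul_zero]
      · rw [lb_neg ε p (by simpa using h), map_zero, smul_zero]
    | succ r ih =>
      intro p hp
      rcases le_or_gt p r with h | h
      · exact ih p h
      have hp1 : p = (r : ℤ) + 1 := by push_cast at hp; omega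
      have hpne : (p : ℂ) ≠ 0 := by
        rw [hp1]; push_cast; exact lb_ne r
      set K := r + 1 + i + 1 with hK
      have h1 := lb_rec ε p K (by rw [hp1, hK]; push_cast; omega)
      have h2 := lb_rec ε (p - (i + 1)) K (by rw [hp1, hK]; push_cast; omega)
      have h3 : (p : ℂ) • (((i : ℂ) + 1) • MvPolynomial.pderiv (R := ℂ) i (SZ ε p)) =
          (p : ℂ) • ((ε : ℂ) • SZ ε (p - (i + 1))) := by
        rw [smul_comm, ← Derivation.map_smul, h1, Derivation.map_smul, map_sum, smul_comm,
          Finset.smul_sum]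
        have h4 : ∀ j ∈ range K, ((i : ℂ) + 1) • MvPolynomial.pderiv (R := ℂ) i
            ((MvPolynomial.X j : SX) * SZ ε (p - (j + 1))) =
            (if j = i then ((i : ℂ) + 1) • SZ ε (p - (i + 1)) else 0) +
              (ε : ℂ) • ((MvPolynomial.X j : SX) * SZ ε (p - (i + 1) - (j + 1))) := by
          intro j _
          rw [Derivation.leibniz, smul_eq_mul, smul_eq_mul, smul_add, ← mul_smul_comm,
            ih (p - (j + 1)) (by omega), mul_smul_comm,
            show p - ((j : ℤ) + 1) - (i + 1) = p - (i + 1) - (j + 1) by ring,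
            MvPolynomial.pderiv_X, add_comm]
          congr 1
          by_cases hj : j = i
          · subst hj
            rw [if_pos rfl, Pi.single_eq_same, mul_one]
          · rw [if_neg hj, Pi.single_eq_of_ne hj, mul_zero, smul_zero]
        rw [Finset.sum_congr rfl h4, Finset.sum_add_distrib, Finset.sum_ite_eq' (range K) i,
          if_pos (Finset.mem_range.2 (by omega)), ← Finset.smul_sum, ← h2, ← add_smul,
          smul_smul, smul_smul]
        congr 1
        push_cast
        ring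
      exact smul_right_injective _ hpne h3
  exact key p.toNat p (Int.self_le_toNat p)

theorem lb_dX (i : ℕ) : dS (MvPolynomial.X i) = ((i : ℂ) + 1) • (MvPolynomial.X (i + 1) : SX) := by
  unfold dS
  rw [MvPolynomial.mkDerivation_X]

theorem SZ_dS (ε : ℤ) (p : ℤ) :
    dS (SZ ε p) = ((p : ℂ) + 1) • SZ ε (p + 1) - (ε : ℂ) • (MvPolynomial.X 0 * SZ ε p) := by
  have key : ∀ (r : ℕ) (p : ℤ), p ≤ r →
      dS (SZ ε p) = ((p : ℂ) + 1) • SZ ε (p + 1) - (ε : ℂ) • (MvPolynomial.X 0 * SZ ε p) := by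
    intro r
    induction r with
    | zero =>
      intro p hp
      push_cast at hp
      rcases lt_trichotomy p (-1) with h | h | h
      · rw [lb_neg ε p (by omega), lb_neg ε (p + 1) (by omega)]
        simp
      · subst h
        rw [lb_neg ε (-1) (by omega)]
        simp
      · have : p = 0 := by omega
        subst this
        have h1 := lb_rec ε 1 1 (by norm_num)
        rw [Finset.sum_range_one] at h1
        simp only [Int.cast_one, one_smul, Nat.cast_zero, zero_add, sub_self] at h1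
        rw [zero_add, h1, lb_zero, Derivation.map_one_eq_zero]
        simp
    | succ r ih =>
      intro p hp
      rcases le_or_gt p r with h | h
      · exact ih p h
      have hp1 : p = (r : ℤ) + 1 := by push_cast at hp; omega
      have hpne : (p : ℂ) ≠ 0 := by
        rw [hp1]; push_cast; exact lb_ne r
      set K := r + 1 with hK
      have h1 := lb_rec ε p (K + 1) (by rw [hp1, hK]; push_cast; omega)
      have h1' := lb_rec ε p K (by rw [hp1, hK]; push_cast; omega)
      have h2 := lb_rec ε (p + 1) (K + 1) (by rw [hp1, hK]; push_cast; omega)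
      apply smul_right_injective _ hpne
      change (p : ℂ) • dS (SZ ε p) = (p : ℂ) • (((p : ℂ) + 1) • SZ ε (p + 1) -
        (ε : ℂ) • (MvPolynomial.X 0 * SZ ε p))
      rw [← Derivation.map_smul, h1, Derivation.map_smul, map_sum]
      have h4 : ∀ j ∈ range (K + 1), dS ((MvPolynomial.X j : SX) * SZ ε (p - (j + 1))) =
          ((j : ℂ) + 1) • ((MvPolynomial.X (j + 1) : SX) * SZ ε (p - (j + 1))) +
          ((p : ℂ) - j) • ((MvPolynomial.X j : SX) * SZ ε (p - j)) -
          (ε : ℂ) • (MvPolynomial.X 0 * ((MvPolynomial.X j : SX) * SZ ε (p - (j + 1)))) := by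
        intro j _
        rw [Derivation.leibniz, smul_eq_mul, smul_eq_mul, lb_dX, ih (p - (j + 1)) (by omega)]
        rw [show p - ((j : ℤ) + 1) + 1 = p - j by ring]
        push_cast
        rw [show (p : ℂ) - (j + 1) + 1 = p - j by ring]
        rw [mul_sub, mul_smul_comm, mul_smul_comm, mul_smul_comm,
          mul_left_comm (MvPolynomial.X j) (MvPolynomial.X 0), mul_comm (SZ ε (p - (j + 1)))]
        abel
      rw [Finset.sum_congr rfl h4, Finset.sum_sub_distrib, Finset.sum_add_distrib,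
        ← Finset.smul_sum, ← Finset.mul_sum]
      -- the second sum
      have h5 : ∑ j ∈ range (K + 1), ((p : ℂ) - j) • ((MvPolynomial.X j : SX) * SZ ε (p - j)) =
          ∑ j ∈ range (K + 1), ((p : ℂ) - (j + 1 : ℕ)) •
            ((MvPolynomial.X (j + 1) : SX) * SZ ε (p - (j + 1))) +
          (p : ℂ) • (MvPolynomial.X 0 * SZ ε p) := by
        rw [Finset.sum_range_succ', Finset.sum_range_succ (fun j : ℕ => ((p : ℂ) - (j + 1 : ℕ)) •
            ((MvPolynomial.X (j + 1) : SX) * SZ ε (p - (j + 1))))]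
        have hz : SZ ε (p - ((K : ℤ) + 1)) = 0 := lb_neg ε _ (by rw [hp1, hK]; push_cast; omega)
        rw [hz, mul_zero, smul_zero, add_zero]
        simp
      rw [h5, ← add_assoc, ← Finset.sum_add_distrib]
      have h6 : ∀ j ∈ range (K + 1), ((j : ℂ) + 1) • ((MvPolynomial.X (j + 1) : SX) *
            SZ ε (p - (j + 1))) + ((p : ℂ) - (j + 1 : ℕ)) •
            ((MvPolynomial.X (j + 1) : SX) * SZ ε (p - (j + 1))) =
          (p : ℂ) • ((MvPolynomial.X (j + 1) : SX) * SZ ε (p + 1 - ((j + 1 : ℕ) + 1))) := by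
        intro j _
        rw [← add_smul]
        congr 1
        · push_cast
          ring
        · congr 2
          push_cast
          ring
      rw [Finset.sum_congr rfl h6, ← Finset.smul_sum]
      -- compare with h2
      have h2' : ((p : ℂ) + 1) • SZ ε (p + 1) = (ε : ℂ) • (∑ j ∈ range (K + 1),
          ((MvPolynomial.X (j + 1) : SX) * SZ ε (p + 1 - ((j + 1 : ℕ) + 1))) +
          (MvPolynomial.X 0 * SZ ε p)) := by
        have h7 := lb_rec ε (p + 1) (K + 1 + 1) (by rw [hp1, hK]; push_cast; omega)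
        rw [Finset.sum_range_succ'] at h7
        push_cast at h7 ⊢
        rw [h7, add_sub_cancel_right]
      have h8 : (ε : ℂ) • (ε : ℂ) • (MvPolynomial.X 0 * ∑ i ∈ range (K + 1),
          (MvPolynomial.X i : SX) * SZ ε (p - ((i : ℤ) + 1))) =
          (ε : ℂ) • (p : ℂ) • (MvPolynomial.X 0 * SZ ε p) := by
        rw [← mul_smul_comm (p : ℂ), h1, mul_smul_comm]
      rw [smul_sub, h8, h2']
      module
  exact key p.toNat p (Int.self_le_toNat p)

/-- the functional `P ↦ ∑ P_j S_{q+j}` -/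
noncomputable def lbL (ε q : ℤ) : Polynomial SX →ₗ[SX] SX :=
  Polynomial.lsum (fun j : ℕ => LinearMap.mulRight SX (SZ ε (q + j)))

theorem lbL_monomial (ε q : ℤ) (j : ℕ) (a : SX) :
    lbL ε q (Polynomial.monomial j a) = a * SZ ε (q + j) := by
  unfold lbL
  rw [Polynomial.lsum_apply, Polynomial.sum_monomial_index]
  · simp
  · simp

theorem lbL_X (ε q : ℤ) (r : ℕ) (P : Polynomial SX) :
    lbL ε q (Polynomial.X ^ r * P) = lbL ε (q + r) P := by
  induction P using Polynomial.induction_on' with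
  | add P Q hP hQ => rw [mul_add, map_add, map_add, hP, hQ]
  | monomial j a =>
    rw [Polynomial.X_pow_mul, Polynomial.monomial_mul_X_pow, lbL_monomial, lbL_monomial]
    congr 2
    push_cast
    ring

theorem lb_GS (ε k m : ℤ) (f : SX) : GS ε k m f = lbL ε (-k - 1 - 2 * ε * m) (sub ε f) := rfl

theorem lb_GS_X (ε k m : ℤ) (i : ℕ) (f : SX) : GS ε k m (MvPolynomial.X i * f) =
    MvPolynomial.X i * GS ε k m f - (2 * (ε : ℂ)) • GS ε (k - (i + 1)) m f := by
  rw [lb_GS, lb_GS, lb_GS, map_mul]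
  have h : sub ε (MvPolynomial.X i) = Polynomial.C (MvPolynomial.X i) -
      (2 * (ε : ℂ)) • (Polynomial.X : Polynomial SX) ^ (i + 1) := by
    unfold sub
    rw [MvPolynomial.aeval_X]
  rw [h, sub_mul, map_sub, smul_mul_assoc]
  congr 1
  · rw [← Polynomial.smul_eq_C_mul, map_smul, smul_eq_mul]
  · have h2 : ∀ (c : ℂ) (P : Polynomial SX) (q : ℤ), lbL ε q (c • P) = c • lbL ε q P := by
      intro c P q
      have : c • P = (algebraMap ℂ SX c) • P := by
        rw [algebraMap_smul]
      rw [this, map_smul, smul_eq_mul, Algebra.smul_def]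
    rw [h2, lbL_X]
    have h3 : -k - 1 - 2 * ε * m + ((i + 1 : ℕ) : ℤ) = -(k - ((i : ℤ) + 1)) - 1 - 2 * ε * m := by
      push_cast
      ring
    rw [h3]

theorem lb_single (ε k m : ℤ) (f : SX) :
    gF ε k (Finsupp.single m f) = Finsupp.single (m + ε) (GS ε k m f) := by
  unfold gF
  rw [op_single]

/-- the key relation for negative Heisenberg modes -/
theorem lb_key (ε k : ℤ) (i : ℕ) (v : VS) : gF ε k (hF (Int.negSucc i) v) =
    hF (Int.negSucc i) (gF ε k v) - (2 * (ε : ℂ)) • gF ε (k - (i + 1)) v := by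
  induction v using Finsupp.induction_linear with
  | zero => simp
  | add v w hv hw =>
    simp only [map_add, smul_add, hv, hw]
    abel
  | single m f =>
    rw [la_neg, lb_single, lb_single, lb_single, la_neg, lb_GS_X, Finsupp.single_sub,
      Finsupp.smul_single]

theorem gF_tt (ε : ℤ) (k m : ℤ) : gF ε k (tt m) =
    Finsupp.single (m + ε) (SZ ε (-k - 1 - 2 * ε * m)) := by
  unfold tt
  rw [lb_single, lb_GS, map_one]
  congr 1
  have : (1 : Polynomial SX) = Polynomial.monomial 0 1 := rfl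
  rw [this, lbL_monomial]
  simp

theorem lb_pos (i : ℕ) (m : ℤ) (g : SX) :
    hF ((i : ℤ) + 1) (Finsupp.single m g) =
      Finsupp.single m ((2 * ((i : ℂ) + 1)) • MvPolynomial.pderiv i g) := by
  have : ((i : ℤ) + 1) = Int.ofNat (i + 1) := rfl
  rw [this, la_single]
  rfl

theorem gF_comm (ε : ℤ) (n k : ℤ) (v : VS) :
    hF n (gF ε k v) - gF ε k (hF n v) = (2 * (ε : ℂ)) • gF ε (k + n) v := by
  rcases lt_trichotomy n 0 with hn | hn | hn
  · obtain ⟨i, rfl⟩ := Int.eq_negSucc_of_lt_zero hn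
    rw [lb_key, sub_sub_cancel]
    have : k + Int.negSucc i = k - ((i : ℤ) + 1) := by omega
    rw [this]
  · subst hn
    rw [add_zero]
    induction v using Finsupp.induction_linear with
    | zero => simp
    | add v w hv hw =>
      simp only [map_add, smul_add, ← hv, ← hw]
      abel
    | single m f =>
      rw [hF_zero, map_smul, lb_single, hF_zero, ← sub_smul]
      congr 1
      push_cast
      ring
  · obtain ⟨j, rfl⟩ : ∃ j : ℕ, n = (j : ℤ) + 1 := ⟨(n - 1).toNat, by omega⟩
    revert k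
    refine VS_ind (fun v => ∀ k : ℤ, hF ((j : ℤ) + 1) (gF ε k v) - gF ε k (hF ((j : ℤ) + 1) v) =
      (2 * (ε : ℂ)) • gF ε (k + ((j : ℤ) + 1)) v) ?_ ?_ ?_ ?_ v
    · intro m k
      rw [hF_pos_tt _ hn, map_zero, sub_zero, gF_tt, gF_tt, lb_pos, mul_smul, SZ_pderiv,
        smul_smul, Finsupp.smul_single]
      have h3 : -k - 1 - 2 * ε * m - ((j : ℤ) + 1) = -(k + ((j : ℤ) + 1)) - 1 - 2 * ε * m := by
        ring
      rw [h3]
    · intro i v ih k
      have a1 := la_step ((j : ℤ) + 1) i v
      have a2 := la_step ((j : ℤ) + 1) i (gF ε k v)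
      rw [a1, lb_key, map_sub, a2, map_add, lb_key, map_smul, map_smul]
      have i1 := ih k
      have i2 := ih (k - (i + 1))
      rw [sub_eq_iff_eq_add] at i1 i2
      rw [i1, i2, lb_key, map_add, map_smul]
      rw [show k - ((i : ℤ) + 1) + ((j : ℤ) + 1) = k + ((j : ℤ) + 1) - (i + 1) by ring]
      module
    · intro v w hv hw k
      simp only [map_add, smul_add, ← hv, ← hw]
      abel
    · intro c v hv k
      simp only [map_smul]
      rw [← smul_sub, hv, smul_comm]

theorem gF_trunc (ε : ℤ) (v : VS) : ∃ N : ℤ, ∀ k : ℤ, N ≤ k → gF ε k v = 0 := by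
  refine VS_ind (fun v => ∃ N : ℤ, ∀ k : ℤ, N ≤ k → gF ε k v = 0) ?_ ?_ ?_ ?_ v
  · intro m
    refine ⟨-2 * ε * m, fun k hk => ?_⟩
    rw [gF_tt, lb_neg ε _ (by linarith), Finsupp.single_zero]
  · rintro i v ⟨N, hN⟩
    refine ⟨N + (i + 1), fun k hk => ?_⟩
    rw [lb_key, hN k (by omega), hN _ (by omega), map_zero, smul_zero, sub_zero]
  · rintro v w ⟨N, hN⟩ ⟨N', hN'⟩
    refine ⟨max N N', fun n hn => ?_⟩
    rw [map_add, hN n ((le_max_left _ _).trans hn), hN' n ((le_max_right _ _).trans hn), add_zero]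
  · rintro c v ⟨N, hN⟩
    refine ⟨N, fun n hn => ?_⟩
    rw [map_smul, hN n hn, smul_zero]

theorem gF_cov (ε : ℤ) (_hε : ε * ε = 1) : Cov TT (gF ε) := by
  intro k v
  revert k
  refine VS_ind (fun v => ∀ k : ℤ, TT (gF ε k v) - gF ε k (TT v) =
    (-(k : ℂ)) • gF ε (k - 1) v) ?_ ?_ ?_ ?_ v
  · intro m k
    have h1 : TT (tt m) = (m : ℂ) • hF (Int.negSucc 0) (tt m) := by
      rw [TT_tt]
      unfold tt
      rw [la_neg, Finsupp.smul_single, mul_one]
    rw [h1, map_smul, lb_key, gF_tt, la_TT, SZ_dS, la_neg]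
    have h2 : k - ((0 : ℕ) + 1 : ℤ) = k - 1 := by push_cast; ring
    rw [h2, gF_tt]
    have h3 : -(k - 1) - 1 - 2 * ε * m = -k - 1 - 2 * ε * m + 1 := by ring
    rw [h3]
    set q := -k - 1 - 2 * ε * m with hq
    have h4 : (q : ℂ) = -k - 1 - 2 * ε * m := by rw [hq]; push_cast; ring
    rw [Finsupp.smul_single, Finsupp.smul_single, ← Finsupp.single_sub, Finsupp.smul_single,
      ← Finsupp.single_sub]
    congr 1
    rw [h4]
    push_cast
    module
  · intro i v ih k
    have i1 := ih k
    have i2 := ih (k - (i + 1))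
    rw [sub_eq_iff_eq_add] at i1 i2
    rw [lb_key, map_sub, map_smul, la_TT_neg, la_TT_neg, map_add, map_smul, lb_key, lb_key, lb_key,
      i1, i2, map_add, map_smul]
    push_cast
    rw [show k - ((i : ℤ) + 1 + 1) = k - (i + 1) - 1 by ring,
      show k - 1 - ((i : ℤ) + 1) = k - (i + 1) - 1 by ring]
    module
  · intro v w hv hw k
    simp only [map_add, smul_add, ← hv, ← hw]
    abel
  · intro c v hv k
    simp only [map_smul]
    rw [← smul_sub, hv, smul_comm]

theorem gF_crea (ε : ℤ) : Crea (tt 0) (gF ε) := by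
  intro k hk
  rw [gF_tt, lb_neg ε _ (by simp; omega), Finsupp.single_zero]

theorem loc_hg (ε : ℤ) : Loc hF (gF ε) := by
  refine ⟨1, fun m n w => ?_⟩
  unfold RR
  rw [finsum_eq_range _ 2 (fun i hi => by
    unfold rt
    rw [Ring.choose_natCast, Nat.choose_eq_zero_of_lt (by omega)]
    simp)]
  rw [Finset.sum_range_succ, Finset.sum_range_succ, Finset.sum_range_zero]
  unfold rt
  have e0 : Ring.choose ((1 : ℕ) : ℤ) 0 = 1 := by simp
  have e1 : Ring.choose ((1 : ℕ) : ℤ) 1 = 1 := by simp
  rw [e0, e1]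
  have c1 := gF_comm ε (m + 1) n w
  have c2 := gF_comm ε m (n + 1) w
  rw [sub_eq_iff_eq_add] at c1 c2
  simp only [Nat.cast_zero, Nat.cast_one, sub_zero, add_zero, zero_add,
    pow_zero, pow_one, Int.cast_one, one_mul, one_smul, zpow_one]
  rw [show m + 1 - 1 = m by ring, show n + 1 - 1 = n by ring, c1, c2,
    show n + (m + 1) = n + 1 + m by ring]
  module

end Pool.Agent.VL
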