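import Pool.Agent.VL.CDefs
import Pool.Agent.VL.LB

/-!
# The lattice vertex operator algebra is `C_2`-cofinite
-/

set_option autoImplicit false

open Filter Finset

namespace Pool.Agent.VL

open Pool.Agent.VOAut

/-- The space `C_2(V)`. -/
noncomputable def ctwoC (A : VOA VS) : Submodule ℂ VS := Submodule.span ℂ {x : VS | ∃ u v : VS, x = A.Y u (-2) v}

theorem ctwo_neg (A : VOA VS) (n : ℕ) (u v : VS) : A.Y u (-2 - (n : ℤ)) v ∈ ctwoC A := by
  induction n generalizing u with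
  | zero => exact Submodule.subset_span ⟨u, v, by simp⟩
  | succ n ih =>
    have h1 := ih (A.Y A.om 0 u)
    rw [A.translation] at h1
    simp only [LinearMap.smul_apply] at h1
    have hne : (-((-2 - (n : ℤ) : ℤ) : ℂ)) ≠ 0 := by
      push_cast
      have : ((n : ℂ) + 2) ≠ 0 := by
        have : ((n + 2 : ℕ) : ℂ) ≠ 0 := Nat.cast_ne_zero.2 (by omega)
        push_cast at this
        exact this
      intro h
      apply this
      linear_combination h
    have h2 := (ctwoC A).smul_mem (-((-2 - (n : ℤ) : ℤ) : ℂ))⁻¹ h1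
    rw [smul_smul, inv_mul_cancel₀ hne, one_smul] at h2
    have e : (-2 - ((n + 1 : ℕ) : ℤ)) = -2 - (n : ℤ) - 1 := by push_cast; ring
    rw [e]
    exact h2

theorem ctwo_le (A : VOA VS) (n : ℤ) (hn : n ≤ -2) (u v : VS) : A.Y u n v ∈ ctwoC A := by
  obtain ⟨k, hk⟩ : ∃ k : ℕ, n = -2 - k := ⟨(-2 - n).toNat, by omega⟩
  rw [hk]
  exact ctwo_neg A k u v

theorem ctwo_stable (A : VOA VS) (u v : VS) (hv : v ∈ ctwoC A) : A.Y u (-1) v ∈ ctwoC A := by
  unfold ctwoC at hv
  induction hv using Submodule.span_induction with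
  | mem x hx =>
    obtain ⟨a, b, rfl⟩ := hx
    obtain ⟨K, hK⟩ := (A.comm_ev u a b (-1) (-2)).exists
    rw [sub_eq_iff_eq_add] at hK
    rw [hK]
    refine (ctwoC A).add_mem ((ctwoC A).sum_mem fun i _ => (ctwoC A).smul_mem _ ?_) ?_
    · exact ctwo_le A _ (by omega) _ _
    · exact ctwo_le A _ le_rfl _ _
  | zero => rw [map_zero]; exact (ctwoC A).zero_mem
  | add x y _ _ hx hy => rw [map_add]; exact (ctwoC A).add_mem hx hy
  | smul c x _ hx => rw [map_smul]; exact (ctwoC A).smul_mem c hx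

theorem ctwo_SZ0 (ε : ℤ) : SZ ε 0 = 1 := by
  simp [SZ, Sch]

theorem ctwo_SZ1 (ε : ℤ) : SZ ε 1 = (ε : ℂ) • MvPolynomial.X 0 := by
  have : (1 : ℤ).toNat = 0 + 1 := rfl
  rw [SZ, if_pos (by norm_num), this, Sch]
  simp [Sch]

theorem ctwo_SZ3 (ε : ℤ) (hε : ε = 1) : SZ ε 3 = (1 / 3 : ℂ) •
    (MvPolynomial.X 0 * ((1 / 2 : ℂ) • (MvPolynomial.X 0 * MvPolynomial.X 0 + MvPolynomial.X 1)) +
      (MvPolynomial.X 1 * MvPolynomial.X 0 + MvPolynomial.X 2)) := by
  subst hε
  have h1 : Sch 1 1 = MvPolynomial.X 0 := by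
    have := ctwo_SZ1 1
    rw [SZ, if_pos (by norm_num)] at this
    simpa using this
  have h0 : Sch 1 0 = 1 := by simp [Sch]
  have h2 : Sch 1 2 = (1 / 2 : ℂ) • (MvPolynomial.X 0 * MvPolynomial.X 0 + MvPolynomial.X 1) := by
    rw [Sch, Fin.sum_univ_two]
    simp only [Fin.val_zero, Fin.val_one, Nat.sub_zero, Nat.sub_self, h1, h0, mul_one]
    norm_num
  have : (3 : ℤ).toNat = 2 + 1 := rfl
  rw [SZ, if_pos (by norm_num), this, Sch, Fin.sum_univ_three]
  simp only [Fin.val_zero, Fin.val_one, Fin.val_two, Nat.sub_zero, Nat.sub_self, h2, h0, mul_one]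
  norm_num [h1]
  ring_nf

theorem ctwo_h (g : SX) (m : ℤ) (i : ℕ) :
    hF (Int.negSucc i) (Finsupp.single m g) = Finsupp.single m (MvPolynomial.X i * g) := by
  rw [hF, op_single]
  simp [hS]

theorem ctwo_h1 (g : SX) (m : ℤ) :
    hF (-1) (Finsupp.single m g) = Finsupp.single m (MvPolynomial.X 0 * g) := ctwo_h g m 0

theorem ctwo_h2 (g : SX) (m : ℤ) :
    hF (-2) (Finsupp.single m g) = Finsupp.single m (MvPolynomial.X 1 * g) := ctwo_h g m 1

theorem ctwo_h3 (g : SX) (m : ℤ) :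
    hF (-3) (Finsupp.single m g) = Finsupp.single m (MvPolynomial.X 2 * g) := ctwo_h g m 2

theorem ctwo_poly (x y z : SX) : x * (x * (x * 1)) = (6 : ℂ) • ((1 / 3 : ℂ) •
    (x * ((1 / 2 : ℂ) • (x * x + y)) + (y * x + z))) - (3 : ℂ) • (y * x) - (2 : ℂ) • (z * 1) := by
  have h6 : (6 : ℂ) * (1 / 3) = 2 := by norm_num
  have h1 : (2 : ℂ) * (1 / 2) = 1 := by norm_num
  rw [smul_smul, h6, smul_add, ← mul_smul_comm, smul_smul, h1, one_smul]
  simp only [MvPolynomial.smul_eq_C_mul, map_ofNat]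
  ring

theorem ctwo_x3 (C : Submodule ℂ VS)
    (h5 : (Finsupp.single 0 (SZ 1 3) : VS) ∈ C)
    (h6 : hF (-2) (Finsupp.single 0 (MvPolynomial.X 0)) ∈ C) (h7 : hF (-3) (tt 0) ∈ C) :
    hF (-1) (hF (-1) (hF (-1) (tt 0))) ∈ C := by
  rw [ctwo_SZ3 1 rfl] at h5
  rw [ctwo_h2] at h6
  rw [tt, ctwo_h3] at h7
  rw [tt, ctwo_h1, ctwo_h1, ctwo_h1]
  have h8 := C.sub_mem (C.sub_mem (C.smul_mem (6 : ℂ) h5) (C.smul_mem (3 : ℂ) h6))
    (C.smul_mem (2 : ℂ) h7)
  rw [Finsupp.smul_single, Finsupp.smul_single, Finsupp.smul_single, ← Finsupp.single_sub,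
    ← Finsupp.single_sub] at h8
  rw [ctwo_poly (MvPolynomial.X 0) (MvPolynomial.X 1) (MvPolynomial.X 2)]
  exact h8

/-- The span of the representatives modulo `C_2(V)`. -/
noncomputable def ctwoF : Submodule ℂ VS := Submodule.span ℂ
  ({tt 0, hF (-1) (tt 0), hF (-1) (hF (-1) (tt 0)), tt 1, tt (-1)} : Set VS)

theorem c2_of (A : VOA VS) (hv : A.vac = tt 0)
    (h1 : A.Y (Finsupp.single 0 (MvPolynomial.X 0)) = hF) (h2 : A.Y (tt 1) = gF 1)
    (h3 : A.Y (tt (-1)) = gF (-1)) (h4 : ∀ u : VS, Cov TT (A.Y u)) : C2Cofinite A := by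
  have hst : ∀ v ∈ ctwoC A, hF (-1) v ∈ ctwoC A := by
    intro v hv'
    have := ctwo_stable A (Finsupp.single 0 (MvPolynomial.X 0)) v hv'
    rwa [h1] at this
  have hneg : ∀ (n : ℤ) (v : VS), n ≤ -2 → hF n v ∈ ctwoC A := by
    intro n v hn
    have := ctwo_le A n hn (Finsupp.single 0 (MvPolynomial.X 0)) v
    rwa [h1] at this
  have heneg : ∀ (n : ℤ) (v : VS), n ≤ -2 → gF 1 n v ∈ ctwoC A := by
    intro n v hn
    have := ctwo_le A n hn (tt 1) v
    rwa [h2] at this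
  have hfneg : ∀ (n : ℤ) (v : VS), n ≤ -2 → gF (-1) n v ∈ ctwoC A := by
    intro n v hn
    have := ctwo_le A n hn (tt (-1)) v
    rwa [h3] at this
  have ht2 : ∀ m : ℤ, 2 ≤ m → tt m ∈ ctwoC A := by
    intro m hm
    have := heneg (-1 - 2 * (m - 1)) (tt (m - 1)) (by omega)
    rw [gF_tt] at this
    have e : -(-1 - 2 * (m - 1)) - 1 - 2 * 1 * (m - 1) = 0 := by ring
    rw [e, ctwo_SZ0] at this
    have e2 : m - 1 + 1 = m := by ring
    rw [e2] at this
    exact this
  have htm2 : ∀ m : ℤ, m ≤ -2 → tt m ∈ ctwoC A := by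
    intro m hm
    have := hfneg (-1 + 2 * (m + 1)) (tt (m + 1)) (by omega)
    rw [gF_tt] at this
    have e : -(-1 + 2 * (m + 1)) - 1 - 2 * (-1) * (m + 1) = 0 := by ring
    rw [e, ctwo_SZ0] at this
    have e2 : m + 1 + -1 = m := by ring
    rw [e2] at this
    exact this
  have hx1 : hF (-1) (tt 1) ∈ ctwoC A := by
    have h5 := heneg (-2) (tt 0) le_rfl
    rw [gF_tt] at h5
    have e : (- -2 - 1 - 2 * 1 * 0 : ℤ) = 1 := by norm_num
    rw [e, ctwo_SZ1, zero_add] at h5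
    rw [tt, ctwo_h1, mul_one]
    rw [Int.cast_one, one_smul] at h5
    exact h5
  have hxm1 : hF (-1) (tt (-1)) ∈ ctwoC A := by
    have h5 := hfneg (-2) (tt 0) le_rfl
    rw [gF_tt] at h5
    have e : (- -2 - 1 - 2 * (-1) * 0 : ℤ) = 1 := by norm_num
    rw [e, ctwo_SZ1, zero_add] at h5
    rw [tt, ctwo_h1, mul_one]
    have h6 := (ctwoC A).smul_mem (-1 : ℂ) h5
    rw [Finsupp.smul_single, smul_smul] at h6
    have e2 : (-1 : ℂ) * ((-1 : ℤ) : ℂ) = 1 := by norm_num
    rw [e2, one_smul] at h6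
    exact h6
  have hx3 : hF (-1) (hF (-1) (hF (-1) (tt 0))) ∈ ctwoC A := by
    have h5 := heneg (-2) (tt (-1)) le_rfl
    rw [gF_tt] at h5
    have e : (- -2 - 1 - 2 * 1 * (-1) : ℤ) = 3 := by norm_num
    have e2 : (-1 + 1 : ℤ) = 0 := by norm_num
    rw [e, e2] at h5
    exact ctwo_x3 _ h5 (hneg (-2) _ le_rfl) (hneg (-3) _ (by norm_num))
  have htop : ctwoC A ⊔ ctwoF = ⊤ := by
    rw [Submodule.eq_top_iff']
    intro v
    induction v using VS_ind with
    | h0 m =>
      rcases le_or_gt 2 m with hm | hm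
      · exact (le_sup_left : ctwoC A ≤ _) (ht2 m hm)
      rcases le_or_gt m (-2) with hm' | hm'
      · exact (le_sup_left : ctwoC A ≤ _) (htm2 m hm')
      apply (le_sup_right : ctwoF ≤ ctwoC A ⊔ ctwoF)
      apply Submodule.subset_span
      have : m = 0 ∨ m = 1 ∨ m = -1 := by omega
      rcases this with h | h | h <;> subst h <;> simp
    | hx i v hv' =>
      rcases Nat.eq_zero_or_pos i with hi | hi
      · subst hi
        rw [Submodule.mem_sup] at hv'
        obtain ⟨c, hc, f, hf, rfl⟩ := hv'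
        rw [map_add]
        have e6 : Int.negSucc 0 = (-1 : ℤ) := rfl
        rw [e6]
        refine Submodule.add_mem _ ((le_sup_left : ctwoC A ≤ _) (hst c hc)) ?_
        unfold ctwoF at hf
        induction hf using Submodule.span_induction with
        | mem x hx =>
          simp only [Set.mem_insert_iff, Set.mem_singleton_iff] at hx
          rcases hx with h | h | h | h | h
          · rw [h]
            exact (le_sup_right : ctwoF ≤ ctwoC A ⊔ ctwoF) (Submodule.subset_span (by simp))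
          · rw [h]
            exact (le_sup_right : ctwoF ≤ ctwoC A ⊔ ctwoF) (Submodule.subset_span (by simp))
          · rw [h]
            exact (le_sup_left : ctwoC A ≤ _) hx3
          · rw [h]
            exact (le_sup_left : ctwoC A ≤ _) hx1
          · rw [h]
            exact (le_sup_left : ctwoC A ≤ _) hxm1
        | zero => rw [map_zero]; exact Submodule.zero_mem _
        | add x y _ _ hx hy => rw [map_add]; exact Submodule.add_mem _ hx hy
        | smul c x _ hx => rw [map_smul]; exact Submodule.smul_mem _ c hx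
      · exact (le_sup_left : ctwoC A ≤ _) (hneg _ _ (by
          rw [Int.negSucc_eq]
          omega))
    | hadd v w hv' hw' => exact Submodule.add_mem _ hv' hw'
    | hsmul c v hv' => exact Submodule.smul_mem _ c hv'
  change FiniteDimensional ℂ (VS ⧸ ctwoC A)
  have : FiniteDimensional ℂ ctwoF := by
    unfold ctwoF
    exact FiniteDimensional.span_of_finite ℂ (Set.toFinite _)
  refine Module.Finite.of_surjective ((ctwoC A).mkQ ∘ₗ ctwoF.subtype) ?_
  intro x
  obtain ⟨v, rfl⟩ := (ctwoC A).mkQ_surjective x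
  have hv' : v ∈ ctwoC A ⊔ ctwoF := by rw [htop]; trivial
  rw [Submodule.mem_sup] at hv'
  obtain ⟨c, hc, f, hf, rfl⟩ := hv'
  refine ⟨⟨f, hf⟩, ?_⟩
  rw [map_add]
  have : (ctwoC A).mkQ c = 0 := by simpa using hc
  rw [this, zero_add]
  rfl

end Pool.Agent.VL
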