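import Pool.Agent.VL.FDefs

/-!
# Vertex algebras, generators of lattice type, highest weight vectors in modules
-/

set_option autoImplicit false

universe u w

open Filter Finset

namespace Pool.Agent.VL

open Pool.Agent.VOAut

/-- A vertex algebra (auxiliary; no conformal vector). -/
structure VA (V : Type u) [AddCommGroup V] [Module ℂ V] where
  Y : V →ₗ[ℂ] (ℤ → Module.End ℂ V)
  vac : V
  trunc : ∀ u v : V, ∃ N : ℤ, ∀ n : ℤ, N ≤ n → Y u n v = 0
  vacuum : ∀ (n : ℤ) (v : V), Y vac n v = if n = -1 then v else 0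
  creation : ∀ (u : V) (n : ℤ), 0 ≤ n → Y u n vac = 0
  creation_neg_one : ∀ u : V, Y u (-1) vac = u
  jacobi : ∀ (u v w : V) (l m n : ℤ),
    (∑ᶠ i : ℕ, ((Ring.choose m i : ℤ) : ℂ) • Y (Y u (l + i) v) (m + n - i) w) =
    ∑ᶠ i : ℕ, ((-1 : ℂ) ^ i * ((Ring.choose l i : ℤ) : ℂ)) •
      (Y u (m + l - i) (Y v (n + i) w) - (-1 : ℂ) ^ l • Y v (n + l - i) (Y u (m + i) w))

variable {V : Type u} [AddCommGroup V] [Module ℂ V]

/-- Generators of the type of a rank one lattice: `h`, `e = e^α`, `f = e^{-α}`, `κ = (α, α)`. -/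
structure Lat (A : VOA V) where
  h : V
  e : V
  f : V
  κ : ℕ
  p : ℤ
  q : ℤ
  a : ℂ
  b : ℂ
  κ_pos : 0 < κ
  a_ne : a ≠ 0
  b_ne : b ≠ 0
  h_mem : h ∈ A.gr 1
  e_mem : e ∈ A.gr p
  f_mem : f ∈ A.gr q
  hh : ∀ n : ℕ, A.Y h n h = if n = 1 then (κ : ℂ) • A.vac else 0
  he : ∀ n : ℕ, A.Y h n e = if n = 0 then (κ : ℂ) • e else 0
  hf : ∀ n : ℕ, A.Y h n f = if n = 0 then (-(κ : ℂ)) • f else 0
  Te : A.Y e (-2) A.vac = A.Y h (-1) e
  Tf : A.Y f (-2) A.vac = -A.Y h (-1) f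
  fe : ∀ n : ℤ, (κ : ℤ) ≤ n → A.Y f n e = 0
  ef : ∀ n : ℤ, (κ : ℤ) ≤ n → A.Y e n f = 0
  fe1 : A.Y f ((κ : ℤ) - 1) e = a • A.vac
  ef1 : A.Y e ((κ : ℤ) - 1) f = b • A.vac
  gen : ∀ N : Submodule ℂ V, A.vac ∈ N →
    (∀ (n : ℤ) (v : V), v ∈ N → A.Y h n v ∈ N ∧ A.Y e n v ∈ N ∧ A.Y f n v ∈ N) → N = ⊤

/-- The symmetry `h ↦ -h`, `e ↔ f`. -/
def Lat.swap {A : VOA V} (L : Lat A) : Lat A where
  h := -L.h
  e := L.f
  f := L.e
  κ := L.κ
  p := L.q
  q := L.p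
  a := L.b
  b := L.a
  κ_pos := L.κ_pos
  a_ne := L.b_ne
  b_ne := L.a_ne
  h_mem := (A.gr 1).neg_mem L.h_mem
  e_mem := L.f_mem
  f_mem := L.e_mem
  hh := by
    intro n
    have := L.hh n
    simp only [map_neg, Pi.neg_apply, LinearMap.neg_apply, neg_neg]
    exact this
  he := by
    intro n
    have := L.hf n
    simp only [map_neg, Pi.neg_apply, LinearMap.neg_apply, this]
    split_ifs <;> simp
  hf := by
    intro n
    have := L.he n
    simp only [map_neg, Pi.neg_apply, LinearMap.neg_apply, this]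
    split_ifs <;> simp
  Te := by
    rw [L.Tf]
    simp
  Tf := by
    rw [L.Te]
    simp
  fe := L.ef
  ef := L.fe
  fe1 := L.ef1
  ef1 := L.fe1
  gen := by
    intro N h0 h1
    apply L.gen N h0
    intro n v hv
    obtain ⟨h2, h3, h4⟩ := h1 n v hv
    simp only [map_neg, Pi.neg_apply, LinearMap.neg_apply] at h2
    exact ⟨(N.neg_mem_iff).1 h2, h4, h3⟩

variable {A : VOA V} {M : Type w} [AddCommGroup M] [Module ℂ M]

/-- Vectors killed by all `h(n)`, `n > 0`. -/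
def Om (X : Adm A M) (L : Lat A) : Submodule ℂ M where
  carrier := {x | ∀ n : ℤ, 0 < n → X.Y L.h n x = 0}
  zero_mem' := fun _ _ => map_zero _
  add_mem' := by
    intro x y hx hy n hn
    rw [map_add, hx n hn, hy n hn, add_zero]
  smul_mem' := by
    intro c x hx n hn
    rw [map_smul, hx n hn, smul_zero]

theorem Adm.trunc_nat (X : Adm A M) (u : V) (x : M) (l : ℤ) :
    ∃ N : ℕ, ∀ i : ℕ, N ≤ i → X.Y u (l + i) x = 0 := by
  obtain ⟨N, hN⟩ := X.trunc u x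
  refine ⟨(N - l).toNat, fun i hi => hN _ ?_⟩
  have := Int.self_le_toNat (N - l)
  omega

/-- The operator `∑_{n > 0} h(-n) h(n) / κ`. -/
noncomputable def NH (X : Adm A M) (L : Lat A) : Module.End ℂ M where
  toFun x := ∑ᶠ i : ℕ, ((L.κ : ℂ)⁻¹) • X.Y L.h (-1 - i) (X.Y L.h (1 + i) x)
  map_add' := by
    intro x y
    obtain ⟨N1, h1⟩ := X.trunc_nat L.h x 1
    obtain ⟨N2, h2⟩ := X.trunc_nat L.h y 1
    rw [finsum_eq_range (fun i : ℕ => ((L.κ : ℂ)⁻¹) • X.Y L.h (-1 - i) (X.Y L.h (1 + i) x))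
        (N1 + N2) (fun i hi => by rw [h1 i (by omega), map_zero, smul_zero]),
      finsum_eq_range (fun i : ℕ => ((L.κ : ℂ)⁻¹) • X.Y L.h (-1 - i) (X.Y L.h (1 + i) y))
        (N1 + N2) (fun i hi => by rw [h2 i (by omega), map_zero, smul_zero]),
      finsum_eq_range (fun i : ℕ => ((L.κ : ℂ)⁻¹) • X.Y L.h (-1 - i) (X.Y L.h (1 + i) (x + y)))
        (N1 + N2) (fun i hi => by
        rw [map_add, h1 i (by omega), h2 i (by omega), add_zero, map_zero, smul_zero]),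
      ← Finset.sum_add_distrib]
    refine Finset.sum_congr rfl (fun i _ => ?_)
    simp only [map_add, smul_add]
  map_smul' := by
    intro c x
    obtain ⟨N1, h1⟩ := X.trunc_nat L.h x 1
    rw [finsum_eq_range (fun i : ℕ => ((L.κ : ℂ)⁻¹) • X.Y L.h (-1 - i) (X.Y L.h (1 + i) x)) N1
        (fun i hi => by rw [h1 i hi, map_zero, smul_zero]),
      finsum_eq_range (fun i : ℕ => ((L.κ : ℂ)⁻¹) • X.Y L.h (-1 - i) (X.Y L.h (1 + i) (c • x))) N1
        (fun i hi => by rw [map_smul, h1 i hi, smul_zero, map_zero, smul_zero]),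
      RingHom.id_apply, Finset.smul_sum]
    refine Finset.sum_congr rfl (fun i _ => ?_)
    simp only [map_smul]
    rw [smul_comm]

theorem NH_apply (X : Adm A M) (L : Lat A) (x : M) :
    NH X L x = ∑ᶠ i : ℕ, ((L.κ : ℂ)⁻¹) • X.Y L.h (-1 - i) (X.Y L.h (1 + i) x) := rfl

end Pool.Agent.VL
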