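import Pool.Agent.VL.CDefs
import Pool.Agent.VL.MDefs
import Pool.Agent.VL.LB

set_option autoImplicit false

open Filter Finset

namespace Pool.Agent.VL

open Pool.Agent.VOAut

theorem lat_h0 : hF 0 (Finsupp.single 0 (MvPolynomial.X 0)) = 0 := by
  rw [hF_zero]
  simp

theorem lat_x : (Finsupp.single 0 (MvPolynomial.X 0) : VS) = hF (Int.negSucc 0) (tt 0) := by
  unfold tt
  rw [la_neg, mul_one]

theorem lat_SZ1 (ε : ℤ) : SZ ε 1 = (ε : ℂ) • (MvPolynomial.X 0 : SX) := by
  have h1 := lb_rec ε 1 1 (by norm_num)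
  rw [Finset.sum_range_one] at h1
  simp only [Int.cast_one, one_smul, Nat.cast_zero, zero_add, sub_self] at h1
  rw [h1, lb_zero, mul_one]

/-- The generators of the lattice vertex operator algebra. -/
theorem exists_lat (A : VOA VS) (hv : A.vac = tt 0) (_ho : A.om = omS)
    (h1 : A.Y (Finsupp.single 0 (MvPolynomial.X 0)) = hF) (h2 : A.Y (tt 1) = gF 1)
    (h3 : A.Y (tt (-1)) = gF (-1)) (_h4 : A.Y omS 0 = TT)
    (hgen : ∀ N : Submodule ℂ VS, tt 0 ∈ N → (∀ (n : ℤ) (v : VS), v ∈ N →
      hF n v ∈ N ∧ gF 1 n v ∈ N ∧ gF (-1) n v ∈ N) → N = ⊤)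
    (g1 : Finsupp.single 0 (MvPolynomial.X 0) ∈ A.gr 1) (g2 : tt 1 ∈ A.gr 0)
    (g3 : tt (-1) ∈ A.gr 2) :
    ∃ L : Lat A, L.h = Finsupp.single 0 (MvPolynomial.X 0) ∧ L.e = tt 1 ∧ L.f = tt (-1) ∧
      L.κ = 2 ∧ L.p = 0 := by
  refine ⟨{ h := Finsupp.single 0 (MvPolynomial.X 0), e := tt 1, f := tt (-1), κ := 2, p := 0,
            q := 2, a := 1, b := 1, κ_pos := by norm_num, a_ne := one_ne_zero, b_ne := one_ne_zero,
            h_mem := g1, e_mem := g2, f_mem := g3, hh := ?_, he := ?_, hf := ?_, Te := ?_,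
            Tf := ?_, fe := ?_, ef := ?_, fe1 := ?_, ef1 := ?_, gen := ?_ }, rfl, rfl, rfl, rfl, rfl⟩
  · intro n
    rw [h1, lat_x, la_step, hv]
    rcases Nat.eq_zero_or_pos n with h | h
    · subst h
      have : hF ((0 : ℕ) : ℤ) (tt 0) = 0 := hF_crea _ (by norm_num)
      rw [this, map_zero, if_neg (by norm_num), if_neg (by norm_num)]
      simp
    · rw [hF_pos_tt _ (by exact_mod_cast h), map_zero, zero_add]
      by_cases hn : n = 1
      · rw [if_pos (by rw [hn]; norm_num), if_pos hn]
        norm_num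
      · rw [if_neg (by push_cast; omega), if_neg hn, zero_smul]
  · intro n
    rw [h1]
    rcases Nat.eq_zero_or_pos n with h | h
    · subst h
      rw [if_pos rfl]
      unfold tt
      rw [Nat.cast_zero, hF_zero]
      norm_num
    · rw [hF_pos_tt _ (by exact_mod_cast h), if_neg (by omega)]
  · intro n
    rw [h1]
    rcases Nat.eq_zero_or_pos n with h | h
    · subst h
      rw [if_pos rfl]
      unfold tt
      rw [Nat.cast_zero, hF_zero]
      norm_num
    · rw [hF_pos_tt _ (by exact_mod_cast h), if_neg (by omega)]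
  · rw [h1, h2, hv, gF_tt]
    have e1 : (-1 : ℤ) = Int.negSucc 0 := rfl
    have e2 : (-(-2 : ℤ) - 1 - 2 * 1 * 0) = 1 := by norm_num
    rw [e2, lat_SZ1]
    unfold tt
    rw [show hF (-1) = hF (Int.negSucc 0) from rfl, la_neg]
    simp
  · rw [h1, h3, hv, gF_tt]
    have e2 : (-(-2 : ℤ) - 1 - 2 * (-1) * 0) = 1 := by norm_num
    rw [e2, lat_SZ1]
    unfold tt
    rw [show hF (-1) = hF (Int.negSucc 0) from rfl, la_neg]
    simp
  · intro n hn
    rw [h3, gF_tt, lb_neg _ _ (by push_cast at hn; omega), Finsupp.single_zero]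
  · intro n hn
    rw [h2, gF_tt, lb_neg _ _ (by push_cast at hn; omega), Finsupp.single_zero]
  · rw [h3, gF_tt, hv]
    have e2 : (-(((2 : ℕ) : ℤ) - 1) - 1 - 2 * (-1) * 1) = 0 := by norm_num
    rw [e2, lb_zero, one_smul]
    rfl
  · rw [h2, gF_tt, hv]
    have e2 : (-(((2 : ℕ) : ℤ) - 1) - 1 - 2 * 1 * (-1)) = 0 := by norm_num
    rw [e2, lb_zero, one_smul]
    rfl
  · intro N h0 hN
    apply hgen N (hv ▸ h0)
    intro n v hv'
    have := hN n v hv'
    rwa [h1, h2, h3] at this

/-- The remaining hypotheses of `aut_trivial` for the lattice vertex operator algebra. -/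
theorem aut_hyps :
    omS = (1 / 4 : ℂ) • hF (-1) (Finsupp.single 0 (MvPolynomial.X 0)) +
      (1 / 2 : ℂ) • hF (-2) (tt 0) + TT (TT (tt 1)) ∧
    (∀ x y : ℂ, x • tt 0 + y • tt 1 = 0 → x = 0 ∧ y = 0) ∧ gF 1 (-1) (tt 1) = 0 ∧
    TT (TT (tt 1)) ≠ 0 ∧ TT (tt 1) = Finsupp.single 1 (MvPolynomial.X 0) ∧
    (∀ v : VS, hF 0 v = (-(2 : ℂ)) • v → (∀ n : ℕ, hF (n + 1) v = 0) →
      ∃ c : ℂ, v = c • tt (-1)) := by
  have hT : TT (tt 1) = Finsupp.single 1 (MvPolynomial.X 0) := by
    rw [TT_tt]
    simp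
  have hTT : TT (TT (tt 1)) =
      Finsupp.single 1 ((MvPolynomial.X 0 : SX) ^ 2 + MvPolynomial.X 1) := by
    rw [hT, la_TT, lb_dX]
    congr 1
    push_cast
    rw [one_smul, zero_add, one_smul, sq]
    ring
  refine ⟨?_, ?_, ?_, ?_, hT, ?_⟩
  · rw [hTT]
    unfold omS
    rw [show hF (-1) = hF (Int.negSucc 0) from rfl, la_neg]
    unfold tt
    rw [show hF (-2) = hF (Int.negSucc 1) from rfl, la_neg, Finsupp.smul_single,
      Finsupp.smul_single, ← Finsupp.single_add, mul_one, sq]
  · intro x y h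
    have e0 := congrArg (fun v : VS => v 0) h
    have e1 := congrArg (fun v : VS => v 1) h
    unfold tt at e0 e1
    simp only [Finsupp.add_apply, Finsupp.smul_apply, Finsupp.single_eq_same, Finsupp.coe_zero,
      Pi.zero_apply] at e0 e1
    rw [Finsupp.single_eq_of_ne (by norm_num), smul_zero, add_zero] at e0
    rw [Finsupp.single_eq_of_ne (by norm_num), smul_zero, zero_add] at e1
    exact ⟨(smul_eq_zero.1 e0).resolve_right one_ne_zero,
      (smul_eq_zero.1 e1).resolve_right one_ne_zero⟩
  · rw [gF_tt, lb_neg _ _ (by norm_num), Finsupp.single_zero]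
  · rw [hTT]
    intro h
    rw [Finsupp.single_eq_zero] at h
    have := congrArg (MvPolynomial.coeff (Finsupp.single 1 1)) h
    rw [MvPolynomial.coeff_add, MvPolynomial.coeff_X, MvPolynomial.coeff_zero,
      MvPolynomial.X_pow_eq_monomial, MvPolynomial.coeff_monomial, if_neg] at this
    · simp at this
    · intro h
      have := congrArg (fun f => f 0) h
      simp at this
  · intro v h0 hn
    have hcomp : ∀ (n : ℤ) (v : VS) (m : ℤ), (hF n v) m = hS n m (v m) := by
      intro n v m
      induction v using Finsupp.induction_linear with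
      | zero => simp
      | add v w hv hw => rw [map_add, Finsupp.add_apply, Finsupp.add_apply, hv, hw, map_add]
      | single k g =>
        rw [la_single]
        by_cases h : k = m
        · subst h
          rw [Finsupp.single_eq_same, Finsupp.single_eq_same]
        · rw [Finsupp.single_eq_of_ne (Ne.symm h), Finsupp.single_eq_of_ne (Ne.symm h), map_zero]
    -- only the component `-1`
    have hc : ∀ m : ℤ, m ≠ -1 → v m = 0 := by
      intro m hm
      have h1 := congrArg (fun w : VS => w m) h0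
      simp only [hcomp, Finsupp.smul_apply] at h1
      change (2 * (m : ℂ)) • v m = _ at h1
      rw [← sub_eq_zero, ← sub_smul] at h1
      refine (smul_eq_zero.1 h1).resolve_left ?_
      intro h2
      apply hm
      have h3 : (m : ℂ) = -1 := by linear_combination h2 / 2
      exact_mod_cast h3
    have hd : ∀ i : ℕ, MvPolynomial.pderiv i (v (-1)) = 0 := by
      intro i
      have h1 := congrArg (fun w : VS => w (-1)) (hn i)
      simp only [hcomp, Finsupp.coe_zero, Pi.zero_apply] at h1
      have h2 : hS ((i : ℤ) + 1) (-1) (v (-1)) =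
        (2 * ((i : ℂ) + 1)) • MvPolynomial.pderiv i (v (-1)) := rfl
      rw [h2] at h1
      exact (smul_eq_zero.1 h1).resolve_left (mul_ne_zero two_ne_zero (lb_ne i))
    have hC : v (-1) = MvPolynomial.C (MvPolynomial.coeff 0 (v (-1))) := by
      ext p
      rw [MvPolynomial.coeff_C]
      by_cases hp : 0 = p
      · rw [if_pos hp, hp]
      · rw [if_neg hp]
        obtain ⟨i, hi⟩ : ∃ i, p i ≠ 0 := by
          by_contra hcon
          push Not at hcon
          exact hp (Finsupp.ext (fun i => (hcon i).symm))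
        have h1 := congrArg (MvPolynomial.coeff (p - Finsupp.single i 1)) (hd i)
        rw [MvPolynomial.coeff_pderiv, MvPolynomial.coeff_zero] at h1
        have h2 : p - Finsupp.single i 1 + Finsupp.single i 1 = p := by
          ext j
          by_cases hj : j = i
          · subst hj
            simp only [Finsupp.coe_add, Finsupp.coe_tsub, Pi.add_apply, Pi.sub_apply,
              Finsupp.single_eq_same]
            omega
          · simp [Finsupp.single_eq_of_ne hj]
        rw [h2] at h1
        rcases mul_eq_zero.1 h1 with h3 | h3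
        · exact h3
        · exact absurd h3 (lb_ne _)
    refine ⟨MvPolynomial.coeff 0 (v (-1)), ?_⟩
    ext1 m
    unfold tt
    rw [Finsupp.smul_single]
    by_cases hm : m = -1
    · subst hm
      rw [Finsupp.single_eq_same]
      conv_lhs => rw [hC]
      rw [MvPolynomial.smul_eq_C_mul, mul_one]
    · rw [hc m hm, Finsupp.single_eq_of_ne hm]

end Pool.Agent.VL
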