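import Pool.Agent.VL.MD
import Pool.Agent.VOAut.Split

set_option autoImplicit false

universe u w

open Filter Finset

namespace Pool.Agent.VL

open Pool.Agent.VOAut

section M
variable {V : Type u} [AddCommGroup V] [Module ℂ V] {A : VOA V}
  {M : Type w} [AddCommGroup M] [Module ℂ M] (X : Adm A M)

theorem me_isSub_iff (N : Submodule ℂ M) :
    X.IsSub N ↔ (∀ (u : V) (n : ℤ) (x : M), x ∈ N → X.Y u n x ∈ N) ∧
      ∀ (n : ℤ) (x : M), x ∈ N → hcomp X.internal n x ∈ N := by
  unfold Adm.IsSub
  refine and_congr_right (fun _ => ?_)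
  constructor
  · intro h n x hx
    rw [h] at hx
    refine Submodule.iSup_induction (fun n => N ⊓ X.gr n)
      (motive := fun x => hcomp X.internal n x ∈ N) hx ?_ ?_ ?_
    · intro m y hy
      rw [hcomp_of_mem X.internal n m y hy.2]
      split_ifs
      · exact hy.1
      · exact zero_mem _
    · rw [map_zero]
      exact zero_mem _
    · intro a b ha hb
      rw [map_add]
      exact add_mem ha hb
  · intro h
    apply le_antisymm
    · intro x hx
      exact mem_of_hcomp X.internal N x (fun n => h n x hx)
    · exact iSup_le (fun n => inf_le_left)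

theorem me_inf {N N' : Submodule ℂ M} (h : X.IsSub N) (h' : X.IsSub N') :
    X.IsSub (N ⊓ N') := by
  rw [me_isSub_iff] at *
  exact ⟨fun u n x hx => ⟨h.1 u n x hx.1, h'.1 u n x hx.2⟩,
    fun n x hx => ⟨h.2 n x hx.1, h'.2 n x hx.2⟩⟩

theorem me_sSup {S : Set (Submodule ℂ M)} (h : ∀ N ∈ S, X.IsSub N) : X.IsSub (sSup S) := by
  rw [me_isSub_iff]
  constructor
  · intro u n x hx
    have h1 : sSup S ≤ (sSup S).comap (X.Y u n) := by
      apply sSup_le
      intro N hN x hx
      exact (le_sSup hN) ((h N hN).1 u n x hx)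
    exact h1 hx
  · intro n x hx
    have h1 : sSup S ≤ (sSup S).comap (hcomp X.internal n) := by
      apply sSup_le
      intro N hN x hx
      exact (le_sSup hN) (((me_isSub_iff X N).1 (h N hN)).2 n x hx)
    exact h1 hx

/-- sums of irreducible submodules are direct sums of irreducible submodules -/
theorem me_direct (h : sSup {N : Submodule ℂ M | X.IsIrr N} = ⊤) :
    ∃ s : Set (Submodule ℂ M), sSupIndep s ∧ sSup s = ⊤ ∧ ∀ N ∈ s, X.IsIrr N := by
  have zorn := zorn_subset
    {s : Set (Submodule ℂ M) | sSupIndep s ∧ ∀ a ∈ s, X.IsIrr a}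
    fun c hc1 hc2 =>
      ⟨⋃₀ c,
        ⟨_root_.iSupIndep_sUnion_of_directed hc2.directedOn fun s hs => (hc1 hs).1,
          fun a ⟨s, sc, as⟩ => (hc1 sc).2 a as⟩,
        fun _ => Set.subset_sUnion_of_mem⟩
  simp_rw [maximal_subset_iff] at zorn
  obtain ⟨s, ⟨s_ind, s_irr⟩, s_max⟩ := zorn
  refine ⟨s, s_ind, ?_, s_irr⟩
  rw [eq_top_iff, ← h, sSup_le_iff]
  intro a ha
  have hsub : X.IsSub (a ⊓ sSup s) := me_inf X ha.1 (me_sSup X fun N hN => (s_irr N hN).1)
  rcases ha.2.2 _ inf_le_left hsub with con | hle
  · have con' : Disjoint a (sSup s) := disjoint_iff.2 con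
    have hs : s = s ∪ {a} := by
      refine s_max ⟨fun x hx => ?_, fun x hx => ?_⟩ Set.subset_union_left
      · rw [Set.mem_union, Set.mem_singleton_iff] at hx
        obtain rfl | xa := eq_or_ne x a
        · simp only [Set.mem_singleton, Set.insert_sdiff_of_mem, Set.union_singleton]
          exact con'.mono_right (sSup_le_sSup Set.sdiff_subset)
        · have h : (s ∪ {a}) \ {x} = s \ {x} ∪ {a} := by
            simp only [Set.union_singleton]
            rw [Set.insert_sdiff_of_notMem]
            rw [Set.mem_singleton_iff]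
            exact Ne.symm xa
          rw [h, sSup_union, sSup_singleton]
          apply
            (s_ind (hx.resolve_right xa)).disjoint_sup_right_of_disjoint_sup_left
              (con'.mono_right _).symm
          rw [← sSup_insert, Set.insert_sdiff_singleton,
            Set.insert_eq_of_mem (hx.resolve_right xa)]
      · rw [Set.mem_union, Set.mem_singleton_iff] at hx
        obtain hx | rfl := hx
        · exact s_irr x hx
        · exact ha
    have hmem : a ∈ s := by
      rw [hs]
      exact Set.mem_union_right _ (Set.mem_singleton _)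
    exact le_sSup hmem
  · rw [← hle]
    exact inf_le_right

end M

section F
variable {V : Type u} [AddCommGroup V] [Module ℂ V] {A : VOA V}

theorem rational_of_lat (L : Lat A) : Rational.{u, w} A := by
  intro M _ _ X
  have htop : sSup {N : Submodule ℂ M | X.IsIrr N} = ⊤ := by
    have hsub : X.IsSub (sSup {N : Submodule ℂ M | X.IsIrr N}) := me_sSup X fun N hN => hN.1
    apply nh_span X L
    · intro d
      refine (h0_diag X L d).trans (iSup_le fun l => ?_)
      rintro z ⟨⟨hz1, hz2⟩, hz3⟩
      by_cases hz : z = 0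
      · rw [hz]
        exact Submodule.zero_mem _
      · obtain ⟨N, hN1, hN2⟩ := irr_of_hw X L d l z hz1 hz2
          (Module.End.mem_eigenspace_iff.1 hz3) hz
        exact (le_sSup (show N ∈ {N : Submodule ℂ M | X.IsIrr N} from hN2)) hN1
    · intro n x hx
      exact hsub.1 L.h n x hx
  obtain ⟨s, h1, h2, h3⟩ := me_direct X htop
  refine ⟨s, fun N => N.1, fun N => h3 N.1 N.2, (sSupIndep_iff s).1 h1, ?_⟩
  rw [← sSup_eq_iSup', h2]

end F

end Pool.Agent.VL
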