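import Pool.Agent.VL.MD
import Pool.Agent.VOAut.Faithful

set_option autoImplicit false

universe u w

open Filter Finset

namespace Pool.Agent.VL

open Pool.Agent.VOAut

section F
variable {V : Type u} [AddCommGroup V] [Module ℂ V] {A : VOA V}

theorem simple_of_lat (L : Lat A) (h0 : ∀ n : ℤ, n < 0 → A.gr n = ⊥) (hv : A.vac ≠ 0) :
    Simple A := by
  classical
  let X : Adm A V :=
    { Y := A.Y
      gr := A.gr
      trunc := A.trunc
      vacuum := A.vacuum
      jacobi := A.jacobi
      internal := A.internal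
      nonneg := h0
      graded := A.graded }
  intro N hN
  obtain ⟨N₁, h1, h2⟩ := irr_of_hw X L 0 0 A.vac (fun n hn => A.creation L.h n hn.le)
    (A.vac_mem) (by
      change A.Y L.h 0 A.vac = _
      rw [A.creation L.h 0 le_rfl]
      simp) hv
  have h3 : N₁ = ⊤ := by
    rw [eq_top_iff]
    intro u _
    have h4 := h2.1.1 u (-1) A.vac h1
    have h5 : X.Y u (-1) A.vac = u := A.creation_neg_one u
    rw [h5] at h4
    exact h4
  subst h3
  refine h2.2.2 N le_top ⟨fun u n x hx => hN u n x hx, ?_⟩
  apply le_antisymm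
  · intro x hx
    have h4 : x ∈ ⨆ n, A.gr n := by
      rw [A.internal.submodule_iSup_eq_top]
      exact Submodule.mem_top
    obtain ⟨f, hf, hfx⟩ := (Submodule.mem_iSup_iff_exists_finsupp _ _).1 h4
    have h5 : ∑ k ∈ f.support, (1 : ℂ) • f k = x := by
      rw [← hfx]
      simp [Finsupp.sum]
    have h6 := md_comp (A.Y A.om 1) N (fun y hy => hN A.om 1 y hy) (fun k => f k)
      (fun k : ℤ => (k : ℂ)) (fun k k' h => by
        have h' : (k : ℂ) = (k' : ℂ) := h
        exact_mod_cast h') (fun k => (A.mem_gr k _).1 (hf k)) f.support (fun _ => 1) (by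
        rw [h5]
        exact hx)
    rw [← h5]
    refine Submodule.sum_mem _ fun k hk => ?_
    refine Submodule.smul_mem _ _ (Submodule.mem_iSup_of_mem k ⟨?_, hf k⟩)
    have h7 := h6 k hk
    rwa [one_smul] at h7
  · exact iSup_le fun n => inf_le_left

end F

end Pool.Agent.VL
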