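import Pool.Agent.VL.LDefs
import Pool.Agent.VL.MDefs

/-!
# The Heisenberg field and the translation operator
-/

set_option autoImplicit false

universe u w

open Filter Finset

namespace Pool.Agent.VL

open Pool.Agent.VOAut

theorem op_single (F : ℤ → (SX →ₗ[ℂ] SX)) (e m : ℤ) (g : SX) :
    op F e (Finsupp.single m g) = Finsupp.single (m + e) (F m g) := by
  unfold op
  simp

theorem la_single (n m : ℤ) (g : SX) :
    hF n (Finsupp.single m g) = Finsupp.single m (hS n m g) := by
  unfold hF
  rw [op_single, add_zero]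

theorem la_neg (i : ℕ) (m : ℤ) (g : SX) :
    hF (Int.negSucc i) (Finsupp.single m g) = Finsupp.single m (MvPolynomial.X i * g) := by
  rw [la_single]
  rfl

theorem la_TT (m : ℤ) (g : SX) :
    TT (Finsupp.single m g) = Finsupp.single m (dS g + (m : ℂ) • (MvPolynomial.X 0 * g)) := by
  unfold TT
  rw [op_single, add_zero]
  rfl

/-- induction on vectors of `VS` -/
theorem VS_ind (P : VS → Prop) (h0 : ∀ m, P (tt m)) (hx : ∀ (i : ℕ) (v : VS), P v →
    P (hF (Int.negSucc i) v)) (hadd : ∀ v w, P v → P w → P (v + w))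
    (hsmul : ∀ (c : ℂ) (v : VS), P v → P (c • v)) (v : VS) : P v := by
  induction v using Finsupp.induction_linear with
  | zero =>
    have := hsmul 0 _ (h0 0)
    rwa [zero_smul] at this
  | add v w hv hw => exact hadd v w hv hw
  | single m g =>
    induction g using MvPolynomial.induction_on with
    | C a =>
      have h1 : Finsupp.single m (MvPolynomial.C a : SX) = a • tt m := by
        unfold tt
        rw [Finsupp.smul_single, MvPolynomial.smul_eq_C_mul, mul_one]
      rw [h1]
      exact hsmul _ _ (h0 m)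
    | add p q hp hq =>
      rw [Finsupp.single_add]
      exact hadd _ _ hp hq
    | mul_X p i hp =>
      rw [mul_comm, ← la_neg]
      exact hx i _ hp

theorem la_pd (i j : ℕ) (g : SX) : MvPolynomial.pderiv i (MvPolynomial.pderiv j g) =
    MvPolynomial.pderiv j (MvPolynomial.pderiv i g) := by
  have h1 : ⁅(MvPolynomial.pderiv i : Derivation ℂ SX SX),
      (MvPolynomial.pderiv j : Derivation ℂ SX SX)⁆ = 0 := by
    apply MvPolynomial.derivation_ext
    intro k
    rw [Derivation.commutator_apply, MvPolynomial.pderiv_X, MvPolynomial.pderiv_X]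
    simp only [Pi.single_apply]
    split_ifs <;> simp
  have h2 := congrArg (fun D : Derivation ℂ SX SX => D g) h1
  simp only [Derivation.commutator_apply, Derivation.coe_zero, Pi.zero_apply, sub_eq_zero] at h2
  exact h2

theorem la_comm (m n k : ℤ) (g : SX) : hS m k (hS n k g) - hS n k (hS m k g) =
    (if m + n = 0 then 2 * (m : ℂ) else 0) • g := by
  rcases m with (_ | i) | i
  · have : (if (Int.ofNat 0 : ℤ) + n = 0 then 2 * ((Int.ofNat 0 : ℤ) : ℂ) else 0) = 0 := by
      split_ifs <;> simp
    rw [this, zero_smul]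
    simp only [hS, LinearMap.smul_apply, LinearMap.id_apply, map_smul, sub_self]
  · rcases n with (_ | j) | j
    · rw [if_neg (by simp only [Int.ofNat_eq_natCast]; push_cast; omega), zero_smul]
      simp only [hS, LinearMap.smul_apply, LinearMap.id_apply, map_smul]
      rw [smul_comm, sub_self]
    · rw [if_neg (by simp only [Int.ofNat_eq_natCast]; push_cast; omega), zero_smul]
      simp only [hS, LinearMap.smul_apply, map_smul, Derivation.coeFn_coe]
      rw [la_pd i j, smul_comm, sub_self]
    · simp only [hS, LinearMap.smul_apply, LinearMap.mulLeft_apply, Derivation.coeFn_coe,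
        Derivation.leibniz, MvPolynomial.pderiv_X, smul_eq_mul, smul_add]
      by_cases h : i = j
      · subst h
        rw [if_pos (by rw [Int.negSucc_eq]; simp), Pi.single_eq_same, mul_one, mul_smul_comm]
        simp
      · rw [if_neg (by rw [Int.negSucc_eq]; simp only [Int.ofNat_eq_natCast]; push_cast; omega),
          Pi.single_eq_of_ne (Ne.symm h), mul_smul_comm]
        simp
  · rcases n with (_ | j) | j
    · rw [if_neg (by rw [Int.negSucc_eq]; simp only [Int.ofNat_eq_natCast]; push_cast; omega),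
        zero_smul]
      simp only [hS, LinearMap.smul_apply, LinearMap.id_apply, map_smul, sub_self]
    · simp only [hS, LinearMap.smul_apply, LinearMap.mulLeft_apply, Derivation.coeFn_coe,
        Derivation.leibniz, MvPolynomial.pderiv_X, smul_eq_mul, smul_add]
      by_cases h : j = i
      · subst h
        rw [if_pos (by rw [Int.negSucc_eq]; simp), Pi.single_eq_same, mul_one, mul_smul_comm,
          Int.cast_negSucc]
        push_cast
        rw [sub_add_cancel_left, ← neg_smul]
        congr 1
        ring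
      · rw [if_neg (by rw [Int.negSucc_eq]; simp only [Int.ofNat_eq_natCast]; push_cast; omega),
          Pi.single_eq_of_ne (Ne.symm h), mul_smul_comm]
        simp
    · rw [if_neg (by rw [Int.negSucc_eq, Int.negSucc_eq]; omega), zero_smul]
      simp only [hS, LinearMap.mulLeft_apply]
      ring

theorem hF_comm (m n : ℤ) (v : VS) : hF m (hF n v) - hF n (hF m v) =
    (if m + n = 0 then 2 * (m : ℂ) else 0) • v := by
  induction v using Finsupp.induction_linear with
  | zero => simp
  | add v w hv hw =>
    simp only [map_add]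
    rw [add_sub_add_comm, hv, hw, smul_add]
  | single k g =>
    simp only [la_single]
    rw [← Finsupp.single_sub, la_comm, Finsupp.smul_single]

theorem hF_zero (m : ℤ) (g : SX) :
    hF 0 (Finsupp.single m g) = (2 * (m : ℂ)) • Finsupp.single m g := by
  rw [la_single, Finsupp.smul_single]
  rfl

theorem hF_pos_tt (n : ℤ) (hn : 0 < n) (m : ℤ) : hF n (tt m) = 0 := by
  obtain ⟨i, rfl⟩ : ∃ i : ℕ, n = Int.ofNat (i + 1) :=
    ⟨(n - 1).toNat, by simp only [Int.ofNat_eq_natCast]; push_cast; omega⟩
  unfold tt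
  rw [la_single]
  simp only [hS, LinearMap.smul_apply, Derivation.coeFn_coe, Derivation.map_one_eq_zero,
    smul_zero, Finsupp.single_zero]

theorem la_step (n : ℤ) (i : ℕ) (v : VS) : hF n (hF (Int.negSucc i) v) =
    hF (Int.negSucc i) (hF n v) + (if n = (i : ℤ) + 1 then 2 * ((i : ℂ) + 1) else 0) • v := by
  have h1 := hF_comm n (Int.negSucc i) v
  rw [sub_eq_iff_eq_add] at h1
  rw [h1, add_comm]
  congr 2
  by_cases h : n = (i : ℤ) + 1
  · rw [if_pos (by rw [h, Int.negSucc_eq]; ring), if_pos h, h]
    push_cast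
    ring
  · rw [if_neg (by rw [Int.negSucc_eq]; omega), if_neg h]

theorem hF_trunc (v : VS) : ∃ N : ℤ, ∀ n : ℤ, N ≤ n → hF n v = 0 := by
  refine VS_ind (fun v => ∃ N : ℤ, ∀ n : ℤ, N ≤ n → hF n v = 0) ?_ ?_ ?_ ?_ v
  · intro m
    exact ⟨1, fun n hn => hF_pos_tt n (by omega) m⟩
  · rintro i v ⟨N, hN⟩
    refine ⟨max N (i + 2), fun n hn => ?_⟩
    have h1 := le_max_left N ((i : ℤ) + 2)
    have h2 := le_max_right N ((i : ℤ) + 2)
    rw [la_step, hN n (by omega), if_neg (by omega)]
    simp
  · rintro v w ⟨N, hN⟩ ⟨N', hN'⟩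
    refine ⟨max N N', fun n hn => ?_⟩
    rw [map_add, hN n ((le_max_left _ _).trans hn), hN' n ((le_max_right _ _).trans hn), add_zero]
  · rintro c v ⟨N, hN⟩
    refine ⟨N, fun n hn => ?_⟩
    rw [map_smul, hN n hn, smul_zero]

theorem TT_tt (m : ℤ) : TT (tt m) = Finsupp.single m ((m : ℂ) • MvPolynomial.X 0) := by
  unfold tt
  rw [la_TT, Derivation.map_one_eq_zero, zero_add, mul_one]

theorem TT_vac : TT (tt 0) = 0 := by
  rw [TT_tt]
  simp

theorem la_TT_neg (i : ℕ) (v : VS) : TT (hF (Int.negSucc i) v) =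
    hF (Int.negSucc i) (TT v) + ((i : ℂ) + 1) • hF (Int.negSucc (i + 1)) v := by
  induction v using Finsupp.induction_linear with
  | zero => simp
  | add v w hv hw =>
    simp only [map_add, smul_add]
    rw [hv, hw]
    abel
  | single k g =>
    rw [la_neg, la_TT, la_TT, la_neg, la_neg, Finsupp.smul_single, ← Finsupp.single_add]
    congr 1
    rw [Derivation.leibniz]
    have h1 : dS (MvPolynomial.X i) = ((i : ℂ) + 1) • (MvPolynomial.X (i + 1) : SX) := by
      unfold dS
      rw [MvPolynomial.mkDerivation_X]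
    rw [h1]
    simp only [smul_eq_mul, mul_add, mul_smul_comm]
    rw [mul_left_comm (MvPolynomial.X i) (MvPolynomial.X 0) g, mul_comm g (MvPolynomial.X (i + 1))]
    abel

theorem hF_cov : Cov TT hF := by
  intro n v
  revert n
  refine VS_ind (fun v => ∀ n : ℤ, TT (hF n v) - hF n (TT v) = (-(n : ℂ)) • hF (n - 1) v)
    ?_ ?_ ?_ ?_ v
  · intro m n
    rcases n with (_ | i) | i
    · have h1 : hF (Int.ofNat 0) (tt m) = (2 * (m : ℂ)) • tt m := hF_zero m 1
      have h2 : hF (Int.ofNat 0) (TT (tt m)) = (2 * (m : ℂ)) • TT (tt m) := by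
        rw [TT_tt]
        exact hF_zero m _
      rw [h1, h2, map_smul, sub_self]
      simp
    · have h0 : 0 < (Int.ofNat (i + 1)) := by
        simp only [Int.ofNat_eq_natCast]
        push_cast
        omega
      have h3 : TT (tt m) = (m : ℂ) • hF (Int.negSucc 0) (tt m) := by
        rw [TT_tt]
        unfold tt
        rw [la_neg, mul_one, Finsupp.smul_single]
      rw [hF_pos_tt _ h0, map_zero, h3, map_smul, la_step, hF_pos_tt _ h0, map_zero, zero_add]
      rcases Nat.eq_zero_or_pos i with rfl | hi
      · have h4 : hF (Int.ofNat (0 + 1) - 1) (tt m) = (2 * (m : ℂ)) • tt m := hF_zero m 1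
        rw [h4, if_pos (by simp)]
        simp only [Int.ofNat_eq_natCast]
        push_cast
        module
      · rw [hF_pos_tt _ (by simp only [Int.ofNat_eq_natCast]; push_cast; omega),
          if_neg (by simp only [Int.ofNat_eq_natCast]; push_cast; omega)]
        simp
    · rw [la_TT_neg, add_sub_cancel_left, Int.cast_negSucc]
      push_cast
      rw [neg_neg, show Int.negSucc i - 1 = Int.negSucc (i + 1) by
        rw [Int.negSucc_eq, Int.negSucc_eq]; push_cast; ring]
  · intro i v hv n
    rw [la_TT_neg, la_step n, map_add, map_smul, la_TT_neg, map_add, map_smul, la_step n (i + 1) v,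
      la_step n i (TT v), la_step (n - 1)]
    have h1 := hv n
    rw [sub_eq_iff_eq_add] at h1
    rw [h1, map_add, map_smul]
    by_cases h : n = (i : ℤ) + 2
    · subst h
      rw [if_neg (by omega), if_pos (by push_cast; ring), if_pos (by ring)]
      push_cast
      module
    · rw [if_neg (show ¬ (n = ((i + 1 : ℕ) : ℤ) + 1) by push_cast; omega),
        if_neg (show ¬ (n - 1 = (i : ℤ) + 1) by omega)]
      module
  · intro v w hv hw n
    simp only [map_add, smul_add]
    rw [← hv, ← hw]
    abel
  · intro c v hv n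
    simp only [map_smul]
    rw [← smul_sub, hv, smul_comm]

theorem hF_crea : Crea (tt 0) hF := by
  intro n hn
  rcases hn.eq_or_lt with rfl | hn
  · have : hF 0 (tt 0) = (2 * ((0 : ℤ) : ℂ)) • tt 0 := hF_zero 0 1
    rw [this]
    simp
  · exact hF_pos_tt n hn 0

theorem loc_hh : Loc hF hF := by
  refine ⟨2, fun m n w => ?_⟩
  unfold RR
  rw [finsum_eq_range _ 3 (fun i hi => by
    unfold rt
    rw [show ((2 : ℕ) : ℤ) = (2 : ℤ) by norm_num, show (2 : ℤ) = ((2 : ℕ) : ℤ) by norm_num,
      Ring.choose_natCast, Nat.choose_eq_zero_of_lt (by omega)]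
    simp)]
  rw [Finset.sum_range_succ, Finset.sum_range_succ, Finset.sum_range_succ, Finset.sum_range_zero]
  unfold rt
  have e0 : Ring.choose ((2 : ℕ) : ℤ) 0 = 1 := by simp
  have e1 : Ring.choose ((2 : ℕ) : ℤ) 1 = 2 := by simp
  have e2 : Ring.choose ((2 : ℕ) : ℤ) 2 = 1 := by
    rw [Ring.choose_natCast]
    simp
  rw [e0, e1, e2]
  have c1 := hF_comm (m + 2) n w
  have c2 := hF_comm (m + 1) (n + 1) w
  have c3 := hF_comm m (n + 2) w
  rw [sub_eq_iff_eq_add] at c1 c2 c3
  simp only [Nat.cast_ofNat, Nat.cast_zero, Nat.cast_one, sub_zero, add_zero, zero_add,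
    pow_zero, pow_one, Int.cast_one, one_mul, one_smul]
  rw [show m + 2 - 1 = m + 1 by ring, show n + 2 - 1 = n + 1 by ring,
    show m + 2 - 2 = m by ring, show n + 2 - 2 = n by ring, c1, c2, c3]
  have h4 : (-1 : ℂ) ^ (2 : ℤ) = 1 := by norm_num
  rw [h4]
  by_cases h : m + n + 2 = 0
  · rw [if_pos (show m + 2 + n = 0 by omega), if_pos (show m + 1 + (n + 1) = 0 by omega),
      if_pos (show m + (n + 2) = 0 by omega)]
    push_cast
    module
  · rw [if_neg (show ¬ (m + 2 + n = 0) by omega), if_neg (show ¬ (m + 1 + (n + 1) = 0) by omega),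
      if_neg (show ¬ (m + (n + 2) = 0) by omega)]
    push_cast
    module

end Pool.Agent.VL
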