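import Pool.Agent.VL.CDefs
import Pool.Agent.VL.LA
import Pool.Agent.VL.LB
import Pool.Agent.VL.MA

/-!
# The conformal vector of the lattice vertex algebra: modes
-/

set_option autoImplicit false

universe u

open Filter Finset

namespace Pool.Agent.VL

open Pool.Agent.VOAut

section VAgen

variable {V : Type u} [AddCommGroup V] [Module ℂ V] (B : VA V)

theorem ca_iter (u v w : V) (l n : ℤ) : B.Y (B.Y u l v) n w =
    ∑ᶠ i : ℕ, ((-1 : ℂ) ^ i * ((Ring.choose l i : ℤ) : ℂ)) •
      (B.Y u (l - i) (B.Y v (n + i) w) - (-1 : ℂ) ^ l • B.Y v (n + l - i) (B.Y u i w)) := by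
  have h1 := B.jacobi u v w l 0 n
  rw [finsum_eq_single (fun i : ℕ => ((Ring.choose (0 : ℤ) i : ℤ) : ℂ) •
    B.Y (B.Y u (l + i) v) (0 + n - i) w) 0] at h1
  · simp only [zero_add] at h1
    rw [← h1]
    simp
  · intro i hi
    have : Ring.choose (0 : ℤ) i = 0 := by
      rw [Ring.choose_zero_pos _ (Nat.pos_of_ne_zero hi)]
    rw [this]
    simp

theorem ca_trans2 (u : V) (n : ℤ) (x : V) :
    B.Y (B.Y u (-2) B.vac) n x = (-(n : ℂ)) • B.Y u (n - 1) x := by
  rw [ca_iter]
  simp only [ma_ch2, B.vacuum]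
  rcases lt_trichotomy n 0 with hn | hn | hn
  · obtain ⟨k, hk⟩ : ∃ k : ℕ, n = -1 - k := ⟨(-1 - n).toNat, by omega⟩
    subst hk
    rw [finsum_eq_single _ k]
    · have h1 : (-1 - (k : ℤ) + k) = -1 := by ring
      have h2 : ¬ (-1 - (k : ℤ) + -2 - k = -1) := by omega
      rw [if_pos h1, if_neg h2, smul_zero, sub_zero]
      have h3 : (-2 : ℤ) - k = -1 - k - 1 := by ring
      rw [h3]
      push_cast
      congr 1
      ring
    · intro i hi
      have h1 : ¬ (-1 - (k : ℤ) + i = -1) := by omega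
      have h2 : ¬ (-1 - (k : ℤ) + -2 - i = -1) := by omega
      rw [if_neg h1, if_neg h2]
      simp
  · subst hn
    rw [finsum_eq_zero_of_forall_eq_zero]
    · simp
    · intro i
      have h1 : ¬ ((0 : ℤ) + i = -1) := by omega
      have h2 : ¬ ((0 : ℤ) + -2 - i = -1) := by omega
      rw [if_neg h1, if_neg h2]
      simp
  · obtain ⟨k, hk⟩ : ∃ k : ℕ, n = k + 1 := ⟨(n - 1).toNat, by omega⟩
    subst hk
    rw [finsum_eq_single _ k]
    · have h1 : ¬ ((k : ℤ) + 1 + k = -1) := by omega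
      have h2 : ((k : ℤ) + 1 + -2 - k = -1) := by ring
      rw [if_neg h1, if_pos h2]
      have h3 : (k : ℤ) + 1 - 1 = k := by ring
      rw [h3, map_zero, zero_sub]
      push_cast
      have h4 : (-1 : ℂ) ^ (-2 : ℤ) = 1 := by norm_num
      rw [h4, one_smul, smul_neg, neg_smul]
    · intro i hi
      have h1 : ¬ ((k : ℤ) + 1 + i = -1) := by omega
      have h2 : ¬ ((k : ℤ) + 1 + -2 - i = -1) := by omega
      rw [if_neg h1, if_neg h2]
      simp

end VAgen

theorem ca_hneg (i : ℕ) (m : ℤ) (g : SX) :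
    hF (Int.negSucc i) (Finsupp.single m g) = Finsupp.single m (MvPolynomial.X i * g) := by
  show op (hS (Int.negSucc i)) 0 (Finsupp.single m g) = _
  rw [op_single, add_zero]
  rfl

theorem ca_TT (m : ℤ) (g : SX) :
    TT (Finsupp.single m g) = Finsupp.single m (dS g + (m : ℂ) • (MvPolynomial.X 0 * g)) := by
  unfold TT
  rw [op_single, add_zero]
  rfl

theorem ca_omS : omS = (1 / 4 : ℂ) • hF (-1) (Finsupp.single 0 (MvPolynomial.X 0)) +
    (1 / 2 : ℂ) • TT (Finsupp.single 0 (MvPolynomial.X 0)) + TT (TT (tt 1)) := by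
  have h1 : hF (-1) (Finsupp.single 0 (MvPolynomial.X 0)) =
      Finsupp.single 0 ((MvPolynomial.X 0 : SX) ^ 2) := by
    rw [show (-1 : ℤ) = Int.negSucc 0 from rfl, ca_hneg, pow_two]
  have h2 : TT (Finsupp.single 0 (MvPolynomial.X 0)) = Finsupp.single 0 (MvPolynomial.X 1) := by
    rw [ca_TT]
    simp [dS, MvPolynomial.mkDerivation_X]
  have h3 : TT (TT (tt 1)) = Finsupp.single 1 ((MvPolynomial.X 0 : SX) ^ 2 + MvPolynomial.X 1) := by
    rw [TT_tt, ca_TT]
    congr 1
    simp [dS, MvPolynomial.mkDerivation_X]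
    ring
  rw [h1, h2, h3]
  unfold omS
  rw [Finsupp.single_add, Finsupp.smul_single, Finsupp.smul_single]

theorem ca_trans (B : VA VS) (hB : Good B) (u : VS) (n : ℤ) (v : VS) :
    B.Y (TT u) n v = (-(n : ℂ)) • B.Y u (n - 1) v := by
  have h1 : TT u = B.Y u (-2) B.vac := by
    have h2 := hB.cov u (-1) (tt 0)
    rw [TT_vac, map_zero, sub_zero, ← hB.vac, B.creation_neg_one] at h2
    rw [h2]
    norm_num
  rw [h1, ca_trans2]

/- MODULE CA (uses LA LB) -/
theorem om_mode (B : VA VS) (hB : Good B) (n : ℤ) (v : VS) : B.Y omS n v =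
    (∑ᶠ i : ℕ, (1 / 4 : ℂ) • (hF (-1 - i) (hF (n + i) v) + hF (n - 1 - i) (hF i v))) -
      ((n : ℂ) / 2) • hF (n - 1) v + ((n : ℂ) * (n - 1)) • gF 1 (n - 2) v := by
  rw [ca_omS]
  simp only [map_add, map_smul, Pi.add_apply, Pi.smul_apply, LinearMap.add_apply,
    LinearMap.smul_apply]
  have h1 : B.Y (hF (-1) (Finsupp.single 0 (MvPolynomial.X 0))) n v =
      ∑ᶠ i : ℕ, (hF (-1 - i) (hF (n + i) v) + hF (n - 1 - i) (hF i v)) := by
    conv_lhs => rw [← hB.h]
    rw [ca_iter, hB.h]
    apply finsum_congr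
    intro i
    rw [ma_ch1, one_smul]
    have h1 : (-1 : ℂ) ^ (-1 : ℤ) = -1 := by norm_num
    have h2 : n + -1 - (i : ℤ) = n - 1 - i := by ring
    rw [h1, h2, neg_smul, one_smul, sub_neg_eq_add]
  rw [h1, ca_trans B hB, ca_trans B hB, ca_trans B hB, hB.h, hB.e, ← smul_finsum]
  have h2 : n - 1 - 1 = n - 2 := by ring
  rw [h2]
  push_cast
  module

/-- the sum of the modes, as a finite sum -/
theorem ca_fin (n : ℤ) (v : VS) : ∃ N : ℕ, ∀ i : ℕ, N ≤ i →
    (1 / 4 : ℂ) • (hF (-1 - i) (hF (n + i) v) + hF (n - 1 - i) (hF i v)) = 0 := by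
  obtain ⟨N, hN⟩ := hF_trunc v
  refine ⟨(max N (N - n)).toNat, fun i hi => ?_⟩
  have h1 := Int.self_le_toNat (max N (N - n))
  have h2 := le_max_left N (N - n)
  have h3 := le_max_right N (N - n)
  rw [hN (n + i) (by omega), hN i (by omega)]
  simp

/-- commutator of a mode of the conformal vector with a creation operator -/
theorem ca_comm (B : VA VS) (hB : Good B) (n : ℤ) (j : ℕ) (v : VS) (hn : n = 0 ∨ n = 1) :
    B.Y omS n (hF (Int.negSucc j) v) = hF (Int.negSucc j) (B.Y omS n v) +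
      ((j : ℂ) + 1) • hF (Int.negSucc j + n - 1) v := by
  obtain ⟨i0, hi0⟩ : ∃ i0 : ℕ, (i0 : ℤ) = j + 1 - n := by
    rcases hn with rfl | rfl
    · exact ⟨j + 1, by push_cast; ring⟩
    · exact ⟨j, by ring⟩
  have hnn : (n : ℂ) * ((n : ℂ) - 1) = 0 := by
    rcases hn with rfl | rfl <;> simp
  have hn1 : n ≤ 1 := by rcases hn with rfl | rfl <;> norm_num
  have hn0 : 0 ≤ n := by rcases hn with rfl | rfl <;> norm_num
  have hj : Int.negSucc j = -(j : ℤ) - 1 := by
    rw [Int.negSucc_eq]
    ring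
  have hc : ∀ a : ℤ, a + Int.negSucc j ≠ 0 → ∀ w : VS,
      hF a (hF (Int.negSucc j) w) = hF (Int.negSucc j) (hF a w) := by
    intro a ha w
    have := hF_comm a (Int.negSucc j) w
    rw [if_neg ha, zero_smul, sub_eq_zero] at this
    exact this
  have hc' : ∀ a : ℤ, a + Int.negSucc j = 0 → ∀ w : VS,
      hF a (hF (Int.negSucc j) w) = hF (Int.negSucc j) (hF a w) + (2 * ((j : ℂ) + 1)) • w := by
    intro a ha w
    have h1 := hF_comm a (Int.negSucc j) w
    rw [if_pos ha, sub_eq_iff_eq_add] at h1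
    have h2 : a = (j : ℤ) + 1 := by omega
    rw [h1, h2]
    push_cast
    abel
  obtain ⟨N1, h1⟩ := ca_fin n v
  obtain ⟨N2, h2⟩ := ca_fin n (hF (Int.negSucc j) v)
  rw [om_mode B hB, om_mode B hB, finsum_eq_range _ (N1 + N2 + j + 2) (fun i hi => h2 i (by omega)),
    finsum_eq_range _ (N1 + N2 + j + 2) (fun i hi => h1 i (by omega)), hnn, zero_smul, zero_smul,
    add_zero, add_zero, hc (n - 1) (by omega), map_sub, map_smul, map_sum]
  have e : ∀ i ∈ range (N1 + N2 + j + 2),
      (1 / 4 : ℂ) • (hF (-1 - i) (hF (n + i) (hF (Int.negSucc j) v)) +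
        hF (n - 1 - i) (hF i (hF (Int.negSucc j) v))) =
      hF (Int.negSucc j) ((1 / 4 : ℂ) • (hF (-1 - i) (hF (n + i) v) + hF (n - 1 - i) (hF i v))) +
        ((if i = i0 then (((j : ℂ) + 1) / 2) • hF (Int.negSucc j + n - 1) v else 0) +
          (if i = j + 1 then (((j : ℂ) + 1) / 2) • hF (Int.negSucc j + n - 1) v else 0)) := by
    intro i _
    have e1 : hF (-1 - i) (hF (n + i) (hF (Int.negSucc j) v)) =
        hF (Int.negSucc j) (hF (-1 - i) (hF (n + i) v)) +
          (if i = i0 then (2 * ((j : ℂ) + 1)) • hF (Int.negSucc j + n - 1) v else 0) := by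
      by_cases hi : i = i0
      · rw [if_pos hi, hc' (n + i) (by subst hi; omega), map_add, map_smul,
          hc (-1 - i) (by omega)]
        have : (-1 - (i : ℤ)) = Int.negSucc j + n - 1 := by
          subst hi
          omega
        rw [this]
      · rw [if_neg hi, hc (n + i) (by omega), hc (-1 - i) (by omega), add_zero]
    have e2 : hF (n - 1 - i) (hF i (hF (Int.negSucc j) v)) =
        hF (Int.negSucc j) (hF (n - 1 - i) (hF i v)) +
          (if i = j + 1 then (2 * ((j : ℂ) + 1)) • hF (Int.negSucc j + n - 1) v else 0) := by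
      by_cases hi : i = j + 1
      · rw [if_pos hi, hc' i (by subst hi; push_cast; omega), map_add, map_smul,
          hc (n - 1 - i) (by omega)]
        have : (n - 1 - (i : ℤ)) = Int.negSucc j + n - 1 := by
          subst hi
          push_cast
          omega
        rw [this]
      · rw [if_neg hi, hc i (by omega), hc (n - 1 - i) (by omega), add_zero]
    rw [e1, e2, map_smul, map_add]
    split_ifs <;> module
  rw [Finset.sum_congr rfl e, Finset.sum_add_distrib, Finset.sum_add_distrib,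
    Finset.sum_ite_eq', Finset.sum_ite_eq', if_pos (by rw [Finset.mem_range]; omega),
    if_pos (by rw [Finset.mem_range]; omega)]
  module

theorem ca_tt_pos (m : ℤ) (i : ℕ) (hi : i ≠ 0) : hF i (tt m) = 0 :=
  hF_pos_tt i (by omega) m

theorem om_zero (B : VA VS) (hB : Good B) : B.Y omS 0 = TT := by
  refine LinearMap.ext fun v => ?_
  refine VS_ind (fun v => B.Y omS 0 v = TT v) ?_ ?_ ?_ ?_ v
  · intro m
    rw [om_mode B hB, finsum_eq_single _ 0]
    · have h1 : hF 0 (tt m) = (2 * (m : ℂ)) • tt m := hF_zero m 1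
      simp only [Nat.cast_zero, sub_zero, zero_add, Int.cast_zero, zero_sub, zero_div, zero_smul,
        zero_mul, add_zero, h1, map_smul]
      have h2 : hF (-1) (tt m) = Finsupp.single m (MvPolynomial.X 0) := by
        rw [show (-1 : ℤ) = Int.negSucc 0 from rfl, tt, ca_hneg, mul_one]
      rw [h2, TT_tt, ← Finsupp.smul_single]
      module
    · intro i hi
      rw [zero_add, ca_tt_pos m i hi]
      simp
  · intro i v hv
    rw [ca_comm B hB 0 i v (Or.inl rfl), hv]
    have h1 := hF_cov (Int.negSucc i) v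
    rw [sub_eq_iff_eq_add] at h1
    rw [h1, add_zero, Int.cast_negSucc]
    push_cast
    rw [neg_neg, add_comm]
  · intro v w hv hw
    rw [map_add, map_add, hv, hw]
  · intro c v hv
    rw [map_smul, map_smul, hv]

theorem om_one (B : VA VS) (hB : Good B) (m : ℤ) (p : ℕ →₀ ℕ) :
    B.Y omS 1 (Finsupp.single m (MvPolynomial.monomial p 1)) =
      ((wt p m : ℤ) : ℂ) • Finsupp.single m (MvPolynomial.monomial p 1) := by
  obtain ⟨s, rfl⟩ : ∃ s : Multiset ℕ, Multiset.toFinsupp s = p :=
    ⟨Finsupp.toMultiset p, by simp⟩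
  induction s using Multiset.induction_on with
  | empty =>
    have h0 : Finsupp.single m (MvPolynomial.monomial (Multiset.toFinsupp (0 : Multiset ℕ))
        (1 : ℂ)) = tt m := by
      rw [map_zero]
      rfl
    rw [h0, om_mode B hB, finsum_eq_single _ 0]
    · have h1 : hF 0 (tt m) = (2 * (m : ℂ)) • tt m := hF_zero m 1
      have h2 : hF (1 + ((0 : ℕ) : ℤ)) (tt m) = 0 := hF_pos_tt _ (by norm_num) m
      rw [h2]
      simp only [Nat.cast_zero, sub_zero, sub_self, Int.cast_one, mul_zero, zero_smul,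
        add_zero, h1, map_smul, map_zero, zero_add]
      have h3 : wt 0 m = m * (m - 1) := by
        unfold wt
        simp
      rw [h3]
      push_cast
      module
    · intro i hi
      have h2 : hF (1 + (i : ℤ)) (tt m) = 0 := hF_pos_tt _ (by omega) m
      rw [h2, ca_tt_pos m i hi]
      simp
  | cons j s ih =>
    have h0 : Finsupp.single m (MvPolynomial.monomial (Multiset.toFinsupp (j ::ₘ s)) (1 : ℂ)) =
        hF (Int.negSucc j)
          (Finsupp.single m (MvPolynomial.monomial (Multiset.toFinsupp s) (1 : ℂ))) := by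
      rw [ca_hneg, ← Multiset.singleton_add, map_add, Multiset.toFinsupp_singleton,
        MvPolynomial.X, MvPolynomial.monomial_mul, one_mul]
    have h3 : wt (Multiset.toFinsupp (j ::ₘ s)) m = (j + 1) + wt (Multiset.toFinsupp s) m := by
      unfold wt
      rw [← Multiset.singleton_add, map_add, Multiset.toFinsupp_singleton,
        Finsupp.sum_add_index' (by simp) (by intros; push_cast; ring),
        Finsupp.sum_single_index (by simp)]
      push_cast
      ring
    rw [h0, ca_comm B hB 1 j _ (Or.inr rfl), ih, h3, map_smul, add_sub_cancel_right]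
    push_cast
    module

end Pool.Agent.VL
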