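import Pool.Agent.VL.CA

/-!
# The modes of the conformal vector applied to the conformal vector
-/

set_option autoImplicit false

universe u

open Filter Finset

namespace Pool.Agent.VL

open Pool.Agent.VOAut

/-- the vectors `x_1 t^m` -/
noncomputable def cbH (m : ℤ) : VS := Finsupp.single m (MvPolynomial.X 0)

theorem cb_hF_tt0 (m : ℤ) : hF 0 (tt m) = (2 * (m : ℂ)) • tt m := hF_zero m 1

theorem cb_hF_H0 (m : ℤ) : hF 0 (cbH m) = (2 * (m : ℂ)) • cbH m := hF_zero m _

theorem cb_neg1 (m : ℤ) : hF (-1) (tt m) = cbH m := by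
  rw [show (-1 : ℤ) = Int.negSucc 0 from rfl, tt, ca_hneg, mul_one]
  rfl

/-- commutation with a creation operator -/
theorem cb_step (n : ℤ) (i : ℕ) (v : VS) : hF n (hF (Int.negSucc i) v) =
    hF (Int.negSucc i) (hF n v) + (if n = (i : ℤ) + 1 then 2 * ((i : ℂ) + 1) else 0) • v := by
  have h1 := hF_comm n (Int.negSucc i) v
  rw [sub_eq_iff_eq_add] at h1
  rw [h1, add_comm]
  congr 2
  by_cases h : n = (i : ℤ) + 1
  · rw [if_pos (by rw [h, Int.negSucc_eq]; ring), if_pos h, h]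
    push_cast
    ring
  · rw [if_neg (by rw [Int.negSucc_eq]; omega), if_neg h]

theorem cb_H1 (m : ℤ) : hF 1 (cbH m) = (2 : ℂ) • tt m := by
  rw [← cb_neg1, show (-1 : ℤ) = Int.negSucc 0 from rfl, cb_step, hF_pos_tt 1 (by norm_num)]
  simp

theorem cb_Hn (n : ℤ) (hn : 2 ≤ n) (m : ℤ) : hF n (cbH m) = 0 := by
  rw [← cb_neg1, show (-1 : ℤ) = Int.negSucc 0 from rfl, cb_step, hF_pos_tt n (by omega),
    if_neg (by push_cast; omega)]
  simp

/-- the vector `x_1^2 t^m` -/
noncomputable def cbQ (m : ℤ) : VS := hF (-1) (cbH m)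

/-- the vector `x_2 t^m` -/
noncomputable def cbR (m : ℤ) : VS := hF (-2) (tt m)

theorem cb_Q0 (m : ℤ) : hF 0 (cbQ m) = (2 * (m : ℂ)) • cbQ m := by
  unfold cbQ
  rw [show (-1 : ℤ) = Int.negSucc 0 from rfl, cb_step, cb_hF_H0, map_smul, if_neg (by norm_num)]
  simp

theorem cb_Q1 (m : ℤ) : hF 1 (cbQ m) = (4 : ℂ) • cbH m := by
  unfold cbQ
  rw [show (-1 : ℤ) = Int.negSucc 0 from rfl, cb_step, cb_H1, map_smul, if_pos (by norm_num),
    show Int.negSucc 0 = (-1 : ℤ) from rfl, cb_neg1]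
  push_cast
  module

theorem cb_Qn (n : ℤ) (hn : 2 ≤ n) (m : ℤ) : hF n (cbQ m) = 0 := by
  unfold cbQ
  rw [show (-1 : ℤ) = Int.negSucc 0 from rfl, cb_step, cb_Hn n hn, if_neg (by push_cast; omega)]
  simp

theorem cb_R0 (m : ℤ) : hF 0 (cbR m) = (2 * (m : ℂ)) • cbR m := by
  unfold cbR
  rw [show (-2 : ℤ) = Int.negSucc 1 from rfl, cb_step, cb_hF_tt0, map_smul, if_neg (by norm_num)]
  simp

theorem cb_R1 (m : ℤ) : hF 1 (cbR m) = 0 := by
  unfold cbR
  rw [show (-2 : ℤ) = Int.negSucc 1 from rfl, cb_step, hF_pos_tt 1 (by norm_num),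
    if_neg (by norm_num)]
  simp

theorem cb_R2 (m : ℤ) : hF 2 (cbR m) = (4 : ℂ) • tt m := by
  unfold cbR
  rw [show (-2 : ℤ) = Int.negSucc 1 from rfl, cb_step, hF_pos_tt 2 (by norm_num),
    if_pos (by norm_num)]
  push_cast
  rw [map_zero, zero_add]
  congr 1
  norm_num

theorem cb_Rn (n : ℤ) (hn : 3 ≤ n) (m : ℤ) : hF n (cbR m) = 0 := by
  unfold cbR
  rw [show (-2 : ℤ) = Int.negSucc 1 from rfl, cb_step, hF_pos_tt n (by omega),
    if_neg (by push_cast; omega)]
  simp

theorem cb_om : omS = (1 / 4 : ℂ) • cbQ 0 + (1 / 2 : ℂ) • cbR 0 + (cbQ 1 + cbR 1) := by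
  unfold omS cbQ cbR cbH tt
  rw [show (-1 : ℤ) = Int.negSucc 0 from rfl, show (-2 : ℤ) = Int.negSucc 1 from rfl, ca_hneg,
    ca_hneg, ca_hneg, ca_hneg, Finsupp.single_add, Finsupp.single_add, Finsupp.smul_single,
    Finsupp.smul_single, mul_one, pow_two]

theorem cb_om0 : hF 0 omS = (2 : ℂ) • (cbQ 1 + cbR 1) := by
  rw [cb_om]
  simp only [map_add, map_smul, cb_Q0, cb_R0]
  push_cast
  module

theorem cb_om1 : hF 1 omS = cbH 0 + (4 : ℂ) • cbH 1 := by
  rw [cb_om]
  simp only [map_add, map_smul, cb_Q1, cb_R1]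
  module

theorem cb_om2 : hF 2 omS = (2 : ℂ) • tt 0 + (4 : ℂ) • tt 1 := by
  rw [cb_om]
  simp only [map_add, map_smul, cb_Qn 2 le_rfl, cb_R2]
  module

theorem cb_omn (n : ℤ) (hn : 3 ≤ n) : hF n omS = 0 := by
  rw [cb_om]
  simp only [map_add, map_smul, cb_Qn n (by omega), cb_Rn n hn]
  simp

theorem cb_gstep (n k : ℤ) (v : VS) :
    gF 1 k (hF n v) = hF n (gF 1 k v) - (2 : ℂ) • gF 1 (k + n) v := by
  have h1 := gF_comm 1 n k v
  rw [sub_eq_iff_eq_add] at h1
  rw [h1]
  push_cast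
  module

theorem cb_g1 (k : ℤ) (hk : -2 ≤ k) : gF 1 k (tt 1) = 0 := by
  rw [gF_tt]
  unfold SZ
  rw [if_neg (by omega), Finsupp.single_zero]

theorem cb_g0 (k : ℤ) (hk : 0 ≤ k) : gF 1 k (tt 0) = 0 := by
  rw [gF_tt]
  unfold SZ
  rw [if_neg (by omega), Finsupp.single_zero]

theorem cb_g0a : gF 1 (-1) (tt 0) = tt 1 := by
  rw [gF_tt]
  have h1 : SZ 1 (-(-1) - 1 - 2 * 1 * 0) = 1 := by
    unfold SZ
    norm_num
    rw [Sch]
  rw [h1, zero_add]
  rfl

theorem cb_g0b : gF 1 (-2) (tt 0) = cbH 1 := by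
  rw [gF_tt]
  have h1 : SZ 1 (-(-2) - 1 - 2 * 1 * 0) = MvPolynomial.X 0 := by
    unfold SZ
    norm_num
    rw [Sch]
    simp [Sch]
  rw [h1, zero_add]
  rfl

theorem cb_gom0 : gF 1 0 omS = -cbH 1 := by
  rw [cb_om]
  simp only [map_add, map_smul]
  unfold cbQ cbR
  rw [← cb_neg1 0, ← cb_neg1 1]
  simp only [cb_gstep, map_sub, map_smul]
  norm_num only
  rw [cb_g0 0 le_rfl, cb_g0a, cb_g0b, cb_g1 0 (by norm_num), cb_g1 (-1) (by norm_num),
    cb_g1 (-2) (by norm_num), cb_neg1]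
  simp only [map_zero]
  module

theorem cb_gomn (k : ℤ) (hk : 1 ≤ k) : gF 1 k omS = 0 := by
  rw [cb_om]
  simp only [map_add, map_smul]
  unfold cbQ cbR
  rw [← cb_neg1 0, ← cb_neg1 1]
  simp only [cb_gstep, map_sub, map_smul]
  rw [cb_g0 k (by omega), cb_g0 (k + -1) (by omega), cb_g1 k (by omega),
    cb_g1 (k + -1) (by omega), cb_g1 (k + -1 + -1) (by omega), cb_g1 (k + -2) (by omega)]
  simp only [map_zero]
  rcases eq_or_lt_of_le hk with h | h
  · subst h
    norm_num only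
    rw [cb_g0a]
    module
  · rw [cb_g0 (k + -1 + -1) (by omega), cb_g0 (k + -2) (by omega)]
    module

/- MODULE CB (uses CA) -/
theorem om_om (B : VA VS) (hB : Good B) (n : ℕ) : B.Y omS n omS =
    if n = 0 then TT omS else if n = 1 then (2 : ℂ) • omS else
      if n = 3 then (-5 / 2 : ℂ) • tt 0 else 0 := by
  rcases Nat.lt_or_ge n 2 with hn | hn
  · interval_cases n
    · rw [if_pos rfl, Nat.cast_zero, om_zero B hB]
    · rw [if_neg (by norm_num), if_pos rfl, Nat.cast_one]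
      have hQ : ∀ m : ℤ, cbQ m =
          Finsupp.single m (MvPolynomial.monomial (Finsupp.single 0 2) 1) := by
        intro m
        unfold cbQ cbH
        rw [show (-1 : ℤ) = Int.negSucc 0 from rfl, ca_hneg, ← pow_two, MvPolynomial.X_pow_eq_monomial]
      have hR : ∀ m : ℤ, cbR m =
          Finsupp.single m (MvPolynomial.monomial (Finsupp.single 1 1) 1) := by
        intro m
        unfold cbR tt
        rw [show (-2 : ℤ) = Int.negSucc 1 from rfl, ca_hneg, mul_one]
        rfl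
      have w1 : ∀ m : ℤ, wt (Finsupp.single 0 2) m = 2 + m * (m - 1) := by
        intro m
        unfold wt
        rw [Finsupp.sum_single_index (by simp)]
        norm_num
      have w2 : ∀ m : ℤ, wt (Finsupp.single 1 1) m = 2 + m * (m - 1) := by
        intro m
        unfold wt
        rw [Finsupp.sum_single_index (by simp)]
        norm_num
      have hQ' : ∀ m : ℤ, B.Y omS 1 (cbQ m) = ((2 : ℂ) + m * (m - 1)) • cbQ m := by
        intro m
        rw [hQ, om_one B hB, w1]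
        push_cast
        rfl
      have hR' : ∀ m : ℤ, B.Y omS 1 (cbR m) = ((2 : ℂ) + m * (m - 1)) • cbR m := by
        intro m
        rw [hR, om_one B hB, w2]
        push_cast
        rfl
      conv_lhs => rw [cb_om]
      rw [← cb_om]
      have h1 : B.Y omS 1 ((1 / 4 : ℂ) • cbQ 0 + (1 / 2 : ℂ) • cbR 0 + (cbQ 1 + cbR 1)) =
          (2 : ℂ) • ((1 / 4 : ℂ) • cbQ 0 + (1 / 2 : ℂ) • cbR 0 + (cbQ 1 + cbR 1)) := by
        simp only [map_add, map_smul, hQ', hR']
        push_cast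
        module
      rw [← cb_om] at h1
      exact h1
  · rw [if_neg (by omega), if_neg (by omega), om_mode B hB, finsum_eq_range _ 3 (fun i hi => by
      rw [cb_omn ((n : ℤ) + i) (by omega), cb_omn i (by omega)]
      simp)]
    rw [Finset.sum_range_succ, Finset.sum_range_succ, Finset.sum_range_succ, Finset.sum_range_zero,
      zero_add]
    simp only [Nat.cast_zero, Nat.cast_one, Nat.cast_ofNat, sub_zero, add_zero]
    rw [cb_om0, cb_om1, cb_om2]
    rcases Nat.lt_or_ge n 4 with h4 | h4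
    · interval_cases n
      · rw [if_neg (by norm_num)]
        norm_num only
        rw [cb_om2, cb_omn 3 (by norm_num), cb_omn 4 (by norm_num), cb_om1, cb_gom0]
        simp only [map_add, map_smul, map_zero, cb_neg1, cb_Q1, cb_R1, cb_hF_H0]
        push_cast
        module
      · rw [if_pos rfl]
        norm_num only
        rw [cb_om2, cb_omn 3 (by norm_num), cb_omn 4 (by norm_num), cb_omn 5 (by norm_num),
          cb_gomn 1 (by norm_num)]
        simp only [map_add, map_smul, map_zero, cb_Qn 2 le_rfl, cb_R2, cb_H1, cb_hF_tt0]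
        push_cast
        module
    · rw [if_neg (by omega)]
      rw [cb_omn ((n : ℤ)) (by omega), cb_omn ((n : ℤ) + 1) (by omega),
        cb_omn ((n : ℤ) + 2) (by omega), cb_omn ((n : ℤ) - 1) (by omega),
        cb_gomn ((n : ℤ) - 2) (by omega)]
      simp only [map_add, map_smul, map_zero]
      rw [cb_Qn _ (by omega), cb_Rn _ (by omega), cb_Hn _ (by omega), cb_Hn _ (by omega),
        hF_pos_tt _ (by omega), hF_pos_tt _ (by omega)]
      simp

end Pool.Agent.VL
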