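import Pool.Agent.VL.CDefs

set_option autoImplicit false

open Filter Finset

namespace Pool.Agent.VL

open Pool.Agent.VOAut

section
variable {I V : Type*} [AddCommGroup V] [Module ℂ V] (b : Module.Basis I ℂ V) (D : Module.End ℂ V)
  (w : I → ℤ) (hD : ∀ i, D (b i) = ((w i : ℤ) : ℂ) • b i)
include hD

theorem grd_repr (x : V) (i : I) : b.repr (D x) i = ((w i : ℤ) : ℂ) * b.repr x i := by
  have h : (Finsupp.lapply i ∘ₗ b.repr.toLinearMap ∘ₗ D) =
      ((w i : ℤ) : ℂ) • (Finsupp.lapply i ∘ₗ b.repr.toLinearMap) := by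
    apply b.ext
    intro j
    simp only [LinearMap.comp_apply, LinearEquiv.coe_coe, hD, map_smul, Module.Basis.repr_self,
      LinearMap.smul_apply, Finsupp.lapply_apply, smul_eq_mul]
    by_cases hij : j = i
    · rw [hij]
    · rw [Finsupp.single_eq_of_ne (Ne.symm hij), mul_zero, mul_zero]
  have := congrArg (fun f => f x) h
  simpa using this

theorem grd_eigen (n : ℤ) : Module.End.eigenspace D (n : ℂ) =
    Submodule.span ℂ (b '' {i | w i = n}) := by
  apply le_antisymm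
  · intro x hx
    rw [Module.End.mem_eigenspace_iff] at hx
    rw [Module.Basis.mem_span_image]
    intro i hi
    have h1 := grd_repr b D w hD x i
    rw [hx, map_smul, Finsupp.smul_apply, smul_eq_mul] at h1
    have h2 : b.repr x i ≠ 0 := by
      simpa using hi
    have h3 := mul_right_cancel₀ h2 h1
    exact (Int.cast_injective h3).symm
  · rw [Submodule.span_le]
    rintro _ ⟨i, hi, rfl⟩
    simp only [SetLike.mem_coe, Module.End.mem_eigenspace_iff]
    rw [hD, show w i = n from hi]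

theorem grd_isInternal :
    DirectSum.IsInternal (fun n : ℤ => Module.End.eigenspace D (n : ℂ)) := by
  apply DirectSum.isInternal_submodule_of_iSupIndep_of_iSup_eq_top
  · exact (Module.End.eigenspaces_iSupIndep D).comp (f := fun n : ℤ => (n : ℂ))
      Int.cast_injective
  · rw [eq_top_iff, ← b.span_eq, Submodule.span_le]
    rintro _ ⟨i, rfl⟩
    refine Submodule.mem_iSup_of_mem (w i) ?_
    rw [Module.End.mem_eigenspace_iff]
    exact hD i

end

/-- the sum over the variables -/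
theorem grd_wt_nonneg (p : ℕ →₀ ℕ) : 0 ≤ p.sum fun i k => ((i : ℤ) + 1) * k :=
  Finset.sum_nonneg fun i _ => by positivity

theorem grd_wt_single (p : ℕ →₀ ℕ) (i : ℕ) :
    ((i : ℤ) + 1) * p i ≤ p.sum fun i k => ((i : ℤ) + 1) * k := by
  by_cases hi : i ∈ p.support
  · exact Finset.single_le_sum (f := fun i : ℕ => ((i : ℤ) + 1) * (p i : ℤ))
      (fun j _ => by positivity) hi
  · rw [Finsupp.notMem_support_iff.1 hi]
    simpa using grd_wt_nonneg p

theorem grd_sq_nonneg (m : ℤ) : 0 ≤ m * (m - 1) := by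
  rcases le_or_gt m 0 with h | h
  · nlinarith
  · exact mul_nonneg h.le (by omega)

theorem grd_m (m n : ℤ) (h : m * (m - 1) ≤ n) (hn : 0 ≤ n) : -(n + 1) ≤ m ∧ m ≤ n + 1 := by
  constructor
  · by_contra hc
    push Not at hc
    nlinarith
  · by_contra hc
    push Not at hc
    nlinarith

theorem grd_m01 (m : ℤ) (h : m * (m - 1) ≤ 1) : m = 0 ∨ m = 1 := by
  obtain ⟨h1, h2⟩ := grd_m m 1 h (by norm_num)
  norm_num at h1 h2
  interval_cases m <;> simp_all

theorem grd_p_single (p : ℕ →₀ ℕ) (h : ∀ i, i ≠ 0 → p i = 0) : p = Finsupp.single 0 (p 0) := by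
  ext i
  by_cases hi : i = 0
  · rw [hi, Finsupp.single_eq_same]
  · rw [h i hi, Finsupp.single_eq_of_ne hi]

theorem grd_wt_zero (p : ℕ →₀ ℕ) (m : ℤ) : wt p m = 0 ↔ p = 0 ∧ (m = 0 ∨ m = 1) := by
  constructor
  · intro h
    unfold wt at h
    have h1 := grd_wt_nonneg p
    have h2 := grd_sq_nonneg m
    refine ⟨?_, grd_m01 m (by omega)⟩
    ext i
    have h3 := grd_wt_single p i
    by_contra hc
    have h4 : 1 ≤ p i := Nat.one_le_iff_ne_zero.2 (by simpa using hc)
    have h5 : (1 : ℤ) ≤ p i := by exact_mod_cast h4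
    nlinarith
  · rintro ⟨rfl, rfl | rfl⟩ <;> simp [wt]

theorem grd_wt_one (p : ℕ →₀ ℕ) (m : ℤ) :
    wt p m = 1 ↔ p = Finsupp.single 0 1 ∧ (m = 0 ∨ m = 1) := by
  constructor
  · intro h
    unfold wt at h
    have h1 := grd_wt_nonneg p
    have h2 := grd_sq_nonneg m
    have hm := grd_m01 m (by omega)
    refine ⟨?_, hm⟩
    have h0 : m * (m - 1) = 0 := by rcases hm with rfl | rfl <;> simp
    have hp : p = Finsupp.single 0 (p 0) := by
      apply grd_p_single
      intro i hi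
      have h3 := grd_wt_single p i
      by_contra hc
      have h4 : 1 ≤ p i := Nat.one_le_iff_ne_zero.2 (by simpa using hc)
      have h5 : (1 : ℤ) ≤ p i := by exact_mod_cast h4
      have h6 : 1 ≤ i := Nat.one_le_iff_ne_zero.2 hi
      have h7 : (1 : ℤ) ≤ i := by exact_mod_cast h6
      nlinarith
    have hs : (p.sum fun i k => ((i : ℤ) + 1) * k) = p 0 := by
      rw [hp, Finsupp.sum_single_index (by simp)]
      simp
    rw [hs, h0] at h
    have h8 : p 0 = 1 := by
      have : (p 0 : ℤ) = 1 := by linarith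
      exact_mod_cast this
    rw [hp, h8]
  · rintro ⟨rfl, rfl | rfl⟩ <;> simp [wt]

theorem grd_finite (n : ℤ) :
    {i : Σ _ : ℤ, (ℕ →₀ ℕ) | wt i.2 i.1 = n}.Finite := by
  rcases lt_or_ge n 0 with hn | hn
  · refine Set.Finite.subset Set.finite_empty ?_
    rintro ⟨m, p⟩ h
    simp only [Set.mem_ofPred_eq, wt] at h
    have h1 := grd_wt_nonneg p
    have h2 := grd_sq_nonneg m
    omega
  · set f : ℕ →₀ ℕ := ∑ i ∈ Finset.range n.toNat, Finsupp.single i n.toNat with hf
    have hfin : ((Set.Icc (-(n + 1)) (n + 1)) ×ˢ (Set.Icc (0 : ℕ →₀ ℕ) f)).Finite :=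
      (Set.finite_Icc _ _).prod (Set.finite_Icc _ _)
    refine Set.Finite.subset (hfin.image (fun x : ℤ × (ℕ →₀ ℕ) => (⟨x.1, x.2⟩ : Σ _ : ℤ, (ℕ →₀ ℕ)))) ?_
    rintro ⟨m, p⟩ h
    simp only [Set.mem_ofPred_eq, wt] at h
    have h1 := grd_wt_nonneg p
    have h2 := grd_sq_nonneg m
    refine ⟨(m, p), ⟨grd_m m n (by omega) hn, ⟨bot_le, ?_⟩⟩, rfl⟩
    intro i
    have h3 := grd_wt_single p i
    change p i ≤ f i
    have hfi : f i = if i < n.toNat then n.toNat else 0 := by
      rw [hf, Finsupp.finsetSum_apply]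
      simp only [Finsupp.single_apply]
      rw [Finset.sum_ite_eq' (Finset.range n.toNat) i (fun _ => n.toNat)]
      simp
    rw [hfi]
    have h4 : ((i : ℤ) + 1) * p i ≤ n := by linarith
    rcases Nat.eq_zero_or_pos (p i) with h0 | h0
    · rw [h0]
      exact Nat.zero_le _
    · have h5 : (1 : ℤ) ≤ p i := by exact_mod_cast h0
      have h6 : (i : ℤ) + 1 ≤ n := by nlinarith
      have h7 : (p i : ℤ) ≤ n := by nlinarith
      rw [if_pos (by omega)]
      omega

theorem grd_internal (D : Module.End ℂ VS) (hD : ∀ (m : ℤ) (p : ℕ →₀ ℕ),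
    D (Finsupp.single m (MvPolynomial.monomial p 1)) =
      ((wt p m : ℤ) : ℂ) • Finsupp.single m (MvPolynomial.monomial p 1)) :
    DirectSum.IsInternal (fun n : ℤ => Module.End.eigenspace D (n : ℂ)) ∧
    (∀ n : ℤ, FiniteDimensional ℂ (Module.End.eigenspace D (n : ℂ))) ∧
    (∀ n : ℤ, n < 0 → Module.End.eigenspace D (n : ℂ) = ⊥) ∧
    Module.End.eigenspace D (0 : ℂ) = Submodule.span ℂ {tt 0, tt 1} ∧
    Module.End.eigenspace D (1 : ℂ) = Submodule.span ℂ
      {Finsupp.single 0 (MvPolynomial.X 0), Finsupp.single 1 (MvPolynomial.X 0)} := by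
  set b : Module.Basis (Σ _ : ℤ, (ℕ →₀ ℕ)) ℂ VS :=
    Finsupp.basis (fun _ : ℤ => MvPolynomial.basisMonomials ℕ ℂ) with hb
  have hbi : ∀ i : Σ _ : ℤ, (ℕ →₀ ℕ), b i = Finsupp.single i.1 (MvPolynomial.monomial i.2 1) := by
    intro i
    rw [hb, Finsupp.coe_basis]
    simp [MvPolynomial.coe_basisMonomials]
  have hD' : ∀ i, D (b i) = ((wt i.2 i.1 : ℤ) : ℂ) • b i := by
    intro i
    rw [hbi]
    exact hD i.1 i.2
  have he := grd_eigen b D (fun i => wt i.2 i.1) hD'
  refine ⟨grd_isInternal b D (fun i => wt i.2 i.1) hD', ?_, ?_, ?_, ?_⟩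
  · intro n
    rw [he n]
    exact FiniteDimensional.span_of_finite ℂ ((grd_finite n).image b)
  · intro n hn
    rw [he n]
    have : {i : Σ _ : ℤ, (ℕ →₀ ℕ) | wt i.2 i.1 = n} = ∅ := by
      ext ⟨m, p⟩
      simp only [Set.mem_ofPred_eq, Set.mem_empty_iff_false, iff_false]
      intro h
      unfold wt at h
      have h1 := grd_wt_nonneg p
      have h2 := grd_sq_nonneg m
      omega
    rw [this, Set.image_empty, Submodule.span_empty]
  · have h0 := he 0
    rw [Int.cast_zero] at h0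
    rw [h0]
    congr 1
    ext x
    simp only [Set.mem_image, Set.mem_ofPred_eq, Set.mem_insert_iff, Set.mem_singleton_iff]
    constructor
    · rintro ⟨⟨m, p⟩, h, rfl⟩
      obtain ⟨rfl, rfl | rfl⟩ := (grd_wt_zero p m).1 h
      · left
        rw [hbi]
        rfl
      · right
        rw [hbi]
        rfl
    · rintro (rfl | rfl)
      · exact ⟨⟨0, 0⟩, (grd_wt_zero _ _).2 ⟨rfl, Or.inl rfl⟩, by rw [hbi]; rfl⟩
      · exact ⟨⟨1, 0⟩, (grd_wt_zero _ _).2 ⟨rfl, Or.inr rfl⟩, by rw [hbi]; rfl⟩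
  · have h0 := he 1
    rw [Int.cast_one] at h0
    rw [h0]
    congr 1
    ext x
    simp only [Set.mem_image, Set.mem_ofPred_eq, Set.mem_insert_iff, Set.mem_singleton_iff]
    constructor
    · rintro ⟨⟨m, p⟩, h, rfl⟩
      obtain ⟨rfl, rfl | rfl⟩ := (grd_wt_one p m).1 h
      · left
        rw [hbi]
        rfl
      · right
        rw [hbi]
        rfl
    · rintro (rfl | rfl)
      · exact ⟨⟨0, Finsupp.single 0 1⟩, (grd_wt_one _ _).2 ⟨rfl, Or.inl rfl⟩, by rw [hbi]; rfl⟩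
      · exact ⟨⟨1, Finsupp.single 0 1⟩, (grd_wt_one _ _).2 ⟨rfl, Or.inr rfl⟩, by rw [hbi]; rfl⟩

end Pool.Agent.VL
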