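import Pool.Agent.VL.LA
import Pool.Agent.VL.LB

/-!
# Locality of the vertex operators `Γ_1`, `Γ_{-1}`
-/

set_option autoImplicit false

open Filter Finset

namespace Pool.Agent.VL

open Pool.Agent.VOAut

/-- exchange of the two sums over a triangle -/
theorem lc_swap {A : Type*} [AddCommMonoid A] (p : ℕ) (f : ℕ → ℕ → A) :
    ∑ i ∈ range (p + 1), ∑ r ∈ range (p - i + 1), f i r =
      ∑ r ∈ range (p + 1), ∑ i ∈ range (p - r + 1), f i r := by
  apply Finset.sum_comm'
  intro x y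
  simp only [Finset.mem_range]
  omega

/-- regrouping by the sum of the two indices -/
theorem lc_regroup {A : Type*} [AddCommMonoid A] (p : ℕ) (g : ℕ → ℕ → A) :
    ∑ i ∈ range (p + 1), ∑ r ∈ range (p - i + 1), g r (i + r) =
      ∑ t ∈ range (p + 1), ∑ r ∈ range (t + 1), g r t := by
  rw [lc_swap p (fun i r => g r (i + r))]
  have h : ∀ r ∈ range (p + 1), ∑ i ∈ range (p - r + 1), g r (i + r) =
      ∑ t ∈ Finset.Ico r (p + 1), g r t := by
    intro r hr
    rw [Finset.sum_Ico_eq_sum_range]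
    have : p + 1 - r = p - r + 1 := by
      have := Finset.mem_range.1 hr
      omega
    rw [this]
    refine Finset.sum_congr rfl (fun i _ => ?_)
    rw [add_comm]
  rw [Finset.sum_congr rfl h]
  apply Finset.sum_comm'
  intro x y
  simp only [Finset.mem_range, Finset.mem_Ico]
  omega

theorem lc_Sch_succ (ε : ℤ) (p : ℕ) :
    ((p : ℂ) + 1) • Sch ε (p + 1) =
      (ε : ℂ) • ∑ i ∈ range (p + 1), MvPolynomial.X i * Sch ε (p - i) := by
  have hp : ((p : ℂ) + 1) ≠ 0 := by exact_mod_cast Nat.succ_ne_zero p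
  rw [Sch, smul_smul, mul_div_cancel₀ _ hp,
    Finset.sum_range (fun i => (MvPolynomial.X i : SX) * Sch ε (p - i))]

/-- The image of `S_p` under the substitution. -/
theorem lc_sub (ε ε' : ℤ) (c : ℕ → ℂ) (h0 : c 0 = 1)
    (hc : ∀ t : ℕ, ((t : ℂ) + 1) * c (t + 1) = -(2 * (ε : ℂ) * ε') * ∑ r ∈ range (t + 1), c r)
    (p : ℕ) : sub ε (Sch ε' p) =
      ∑ i ∈ range (p + 1), Polynomial.monomial i (c i • Sch ε' (p - i)) := by
  induction p using Nat.strong_induction_on with
  | _ p ih =>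
    rcases p with _ | p
    · simp [Sch, h0]
    have hp : ((p : ℂ) + 1) ≠ 0 := by exact_mod_cast Nat.succ_ne_zero p
    have key : ((p : ℂ) + 1) • sub ε (Sch ε' (p + 1)) = ((p : ℂ) + 1) •
        ∑ i ∈ range (p + 1 + 1), Polynomial.monomial i (c i • Sch ε' (p + 1 - i)) := by
      rw [← map_smul, lc_Sch_succ, map_smul, map_sum]
      have h1 : ∀ i ∈ range (p + 1), sub ε (MvPolynomial.X i * Sch ε' (p - i)) =
          ∑ r ∈ range (p - i + 1), Polynomial.monomial r
            (c r • (MvPolynomial.X i * Sch ε' (p - i - r))) -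
          ∑ r ∈ range (p - i + 1), (2 * (ε : ℂ)) •
            Polynomial.monomial (i + r + 1) (c r • Sch ε' (p - (i + r))) := by
        intro i hi
        have hi' := Finset.mem_range.1 hi
        rw [map_mul, ih (p - i) (by omega)]
        have h2 : sub ε (MvPolynomial.X i) = Polynomial.C (MvPolynomial.X i) -
            (2 * (ε : ℂ)) • (Polynomial.X : Polynomial SX) ^ (i + 1) := by
          simp [sub]
        rw [h2, sub_mul, Finset.mul_sum, Finset.mul_sum]
        congr 1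
        · refine Finset.sum_congr rfl (fun r _ => ?_)
          rw [Polynomial.C_mul_monomial, mul_smul_comm]
        · refine Finset.sum_congr rfl (fun r _ => ?_)
          rw [smul_mul_assoc, Polynomial.X_pow_mul_monomial, Nat.sub_sub,
            show r + (i + 1) = i + r + 1 by omega]
      have h3 : ∑ i ∈ range (p + 1), ∑ r ∈ range (p - i + 1), (2 * (ε : ℂ)) •
            Polynomial.monomial (i + r + 1) (c r • Sch ε' (p - (i + r))) =
          ∑ t ∈ range (p + 1), ∑ r ∈ range (t + 1), (2 * (ε : ℂ)) •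
            Polynomial.monomial (t + 1) (c r • Sch ε' (p - t)) :=
        lc_regroup p (fun r t => (2 * (ε : ℂ)) •
            Polynomial.monomial (t + 1) (c r • Sch ε' (p - t)))
      rw [Finset.sum_congr rfl h1, Finset.sum_sub_distrib, lc_swap, h3, smul_sub]
      have h4 : (ε' : ℂ) • ∑ r ∈ range (p + 1), ∑ i ∈ range (p - r + 1), Polynomial.monomial r
            (c r • (MvPolynomial.X i * Sch ε' (p - i - r))) =
          ∑ r ∈ range (p + 1 + 1), Polynomial.monomial r
            ((((p : ℂ) + 1 - r) * c r) • Sch ε' (p + 1 - r)) := by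
        rw [Finset.sum_range_succ _ (p + 1), Finset.smul_sum]
        have h5 : ((p : ℂ) + 1 - ((p + 1 : ℕ) : ℂ)) = 0 := by
          push_cast
          ring
        rw [h5, zero_mul, zero_smul, map_zero, add_zero]
        refine Finset.sum_congr rfl (fun r hr => ?_)
        have hr' := Finset.mem_range.1 hr
        rw [← map_sum, ← Finset.smul_sum, Polynomial.smul_monomial, smul_comm (ε' : ℂ) (c r)]
        have h6 := lc_Sch_succ ε' (p - r)
        have h7 : ∀ i ∈ range (p - r + 1), (MvPolynomial.X i : SX) * Sch ε' (p - i - r) =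
            MvPolynomial.X i * Sch ε' (p - r - i) := by
          intro i _
          rw [Nat.sub_right_comm]
        rw [Finset.sum_congr rfl h7, ← h6, smul_smul, show p + 1 - r = p - r + 1 by omega]
        congr 2
        rw [Nat.cast_sub (by omega)]
        ring
      have h8 : (ε' : ℂ) • ∑ t ∈ range (p + 1), ∑ r ∈ range (t + 1), (2 * (ε : ℂ)) •
            Polynomial.monomial (t + 1) (c r • Sch ε' (p - t)) =
          ∑ t ∈ range (p + 1), Polynomial.monomial (t + 1)
            ((-(((t : ℂ) + 1) * c (t + 1))) • Sch ε' (p - t)) := by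
        rw [Finset.smul_sum]
        refine Finset.sum_congr rfl (fun t _ => ?_)
        rw [hc t, ← Finset.smul_sum, ← map_sum, ← Finset.sum_smul, smul_smul,
          Polynomial.smul_monomial, smul_smul]
        congr 2
        ring
      rw [h4, h8, Finset.sum_range_succ' _ (p + 1), Finset.sum_range_succ' _ (p + 1), smul_add,
        Finset.smul_sum, add_sub_right_comm, ← Finset.sum_sub_distrib]
      congr 1
      · refine Finset.sum_congr rfl (fun t _ => ?_)
        rw [show p + 1 - (t + 1) = p - t by omega, ← map_sub, ← sub_smul, Polynomial.smul_monomial,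
          smul_smul]
        congr 2
        push_cast
        ring
      · rw [Polynomial.smul_monomial, smul_smul]
        congr 2
        push_cast
        ring
    exact smul_right_injective _ hp key

theorem lc_GS (ε ε' : ℤ) (c : ℕ → ℂ) (h0 : c 0 = 1)
    (hc : ∀ t : ℕ, ((t : ℂ) + 1) * c (t + 1) = -(2 * (ε : ℂ) * ε') * ∑ r ∈ range (t + 1), c r)
    (j M : ℤ) (p : ℕ) : GS ε j M (Sch ε' p) =
      ∑ i ∈ range (p + 1), c i • (Sch ε' (p - i) * SZ ε (-j - 1 - 2 * ε * M + i)) := by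
  unfold GS
  rw [LinearMap.comp_apply, AlgHom.toLinearMap_apply, lc_sub ε ε' c h0 hc p, map_sum]
  refine Finset.sum_congr rfl (fun i _ => ?_)
  rw [Polynomial.lsum_apply, Polynomial.sum_monomial_index _ _ (by simp)]
  rw [LinearMap.mulRight_apply, smul_mul_assoc]

theorem lc_ab (ε ε' : ℤ) (c : ℕ → ℂ) (h0 : c 0 = 1)
    (hc : ∀ t : ℕ, ((t : ℂ) + 1) * c (t + 1) = -(2 * (ε : ℂ) * ε') * ∑ r ∈ range (t + 1), c r)
    (j k m : ℤ) (K : ℕ) (hK : -k - 1 - 2 * ε' * m < K) :
    gF ε j (gF ε' k (tt m)) = Finsupp.single (m + ε' + ε)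
      (∑ i ∈ range K, c i • (SZ ε' (-k - 1 - 2 * ε' * m - i) *
        SZ ε (-j - 1 - 2 * ε * (m + ε') + i))) := by
  rw [gF_tt, gF, op_single]
  congr 1
  generalize hP : -k - 1 - 2 * ε' * m = P at *
  by_cases h : 0 ≤ P
  · obtain ⟨p, rfl⟩ := Int.eq_ofNat_of_zero_le h
    have h1 : SZ ε' (p : ℤ) = Sch ε' p := by simp [SZ]
    rw [h1, lc_GS ε ε' c h0 hc]
    have hK' : p + 1 ≤ K := by omega
    rw [← Finset.sum_subset (Finset.range_mono hK')
      (f := fun i => c i • (SZ ε' ((p : ℤ) - i) * SZ ε (-j - 1 - 2 * ε * (m + ε') + i)))]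
    · refine Finset.sum_congr rfl (fun i hi => ?_)
      have hi' := Finset.mem_range.1 hi
      have h2 : SZ ε' ((p : ℤ) - i) = Sch ε' (p - i) := by
        have h3 : (0 : ℤ) ≤ (p : ℤ) - i := by omega
        have h4 : ((p : ℤ) - i).toNat = p - i := by omega
        rw [SZ, if_pos h3, h4]
      rw [h2]
    · intro i _ hi
      have hi' : ¬ i < p + 1 := fun h => hi (Finset.mem_range.2 h)
      have h3 : ¬ (0 : ℤ) ≤ (p : ℤ) - i := by omega
      rw [show SZ ε' ((p : ℤ) - i) = 0 by rw [SZ, if_neg h3], zero_mul, smul_zero]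
  · have h1 : ∀ i : ℕ, SZ ε' (P - i) = 0 := by
      intro i
      rw [SZ, if_neg (by omega)]
    have h2 : SZ ε' P = 0 := by
      rw [SZ, if_neg h]
    rw [h2, map_zero]
    symm
    apply Finset.sum_eq_zero
    intro i _
    rw [h1 i, zero_mul, smul_zero]

/-- The operator whose vanishing is locality. -/
noncomputable def lc_C (a b : ℤ → Module.End ℂ VS) (N : ℕ) (m n : ℤ) : Module.End ℂ VS :=
  ∑ i ∈ range (N + 1), ((-1 : ℂ) ^ i * (N.choose i : ℂ)) •
    (a (m + N - i) ∘ₗ b (n + i) - (-1 : ℂ) ^ N • (b (n + N - i) ∘ₗ a (m + i)))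

theorem lc_C_apply (a b : ℤ → Module.End ℂ VS) (N : ℕ) (m n : ℤ) (w : VS) :
    lc_C a b N m n w = ∑ i ∈ range (N + 1), ((-1 : ℂ) ^ i * (N.choose i : ℂ)) •
      (a (m + N - i) (b (n + i) w) - (-1 : ℂ) ^ N • b (n + N - i) (a (m + i) w)) := by
  simp [lc_C, LinearMap.sum_apply]

theorem lc_RR (a b : ℤ → Module.End ℂ VS) (N : ℕ) (m n : ℤ) (w : VS) :
    RR a b N m n w = lc_C a b N m n w := by
  rw [lc_C_apply, RR, finsum_eq_range _ (N + 1)]
  · refine Finset.sum_congr rfl (fun i _ => ?_)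
    unfold rt
    rw [Ring.choose_natCast]
    simp
  · intro i hi
    unfold rt
    rw [Ring.choose_natCast, Nat.choose_eq_zero_of_lt (by omega)]
    simp

theorem lc_comm (ε ε' : ℤ) (N : ℕ) (l m n : ℤ) (w : VS) :
    hF l (lc_C (gF ε) (gF ε') N m n w) - lc_C (gF ε) (gF ε') N m n (hF l w) =
      (2 * (ε : ℂ)) • lc_C (gF ε) (gF ε') N (m + l) n w +
      (2 * (ε' : ℂ)) • lc_C (gF ε) (gF ε') N m (n + l) w := by
  simp only [lc_C_apply]
  rw [map_sum, ← Finset.sum_sub_distrib, Finset.smul_sum, Finset.smul_sum,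
    ← Finset.sum_add_distrib]
  refine Finset.sum_congr rfl (fun i _ => ?_)
  have h1 : ∀ (x y : ℤ) (v : VS), hF l (gF ε x (gF ε' y v)) = gF ε x (gF ε' y (hF l v)) +
      (2 * (ε : ℂ)) • gF ε (x + l) (gF ε' y v) + (2 * (ε' : ℂ)) • gF ε x (gF ε' (y + l) v) := by
    intro x y v
    rw [← gF_comm ε l x, ← map_smul, ← gF_comm ε' l y, map_sub]
    abel
  have h2 : ∀ (x y : ℤ) (v : VS), hF l (gF ε' y (gF ε x v)) = gF ε' y (gF ε x (hF l v)) +
      (2 * (ε : ℂ)) • gF ε' y (gF ε (x + l) v) + (2 * (ε' : ℂ)) • gF ε' (y + l) (gF ε x v) := by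
    intro x y v
    rw [← gF_comm ε' l y, ← map_smul, ← gF_comm ε l x, map_sub]
    abel
  rw [map_smul, map_sub, map_smul, h1, h2,
    show m + l + (N : ℤ) - i = m + N - i + l by ring, show m + l + (i : ℤ) = m + i + l by ring,
    show n + l + (N : ℤ) - i = n + N - i + l by ring, show n + l + (i : ℤ) = n + i + l by ring]
  module

/-- It is enough to check locality on the vectors `t^m`. -/
theorem lc_red (ε ε' : ℤ) (N : ℕ) (h : ∀ m n M : ℤ, lc_C (gF ε) (gF ε') N m n (tt M) = 0) :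
    Loc (gF ε) (gF ε') := by
  refine ⟨N, fun m n w => ?_⟩
  rw [lc_RR]
  have key : ∀ w : VS, ∀ m n : ℤ, lc_C (gF ε) (gF ε') N m n w = 0 := by
    intro w
    refine VS_ind (fun w => ∀ m n : ℤ, lc_C (gF ε) (gF ε') N m n w = 0) ?_ ?_ ?_ ?_ w
    · intro M m n
      exact h m n M
    · intro i v hv m n
      have := lc_comm ε ε' N (Int.negSucc i) m n v
      rw [hv, hv, hv, map_zero, smul_zero, smul_zero, add_zero, zero_sub, neg_eq_zero] at this
      exact this
    · intro v w hv hw m n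
      rw [map_add, hv, hw, add_zero]
    · intro c v hv m n
      rw [map_smul, hv, smul_zero]
  exact key w m n

theorem lc_tel {A : Type*} [AddCommGroup A] [Module ℂ A] (f : ℕ → A) (K : ℕ) :
    ∑ r ∈ range K, ((r : ℂ) + 1) • (f r - (2 : ℂ) • f (r + 1) + f (r + 2)) =
      f 0 - ((K : ℂ) + 1) • f K + (K : ℂ) • f (K + 1) := by
  induction K with
  | zero => simp
  | succ K ih =>
    rw [Finset.sum_range_succ, ih]
    push_cast
    module

theorem lc_same (ε : ℤ) (hε : ε * ε = 1) (m n M : ℤ) :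
    lc_C (gF ε) (gF ε) 0 m n (tt M) = 0 := by
  have hε' : (ε : ℂ) * ε = 1 := by exact_mod_cast hε
  set c : ℕ → ℂ := fun i => if i = 0 then 1 else if i = 1 then -2 else if i = 2 then 1 else 0
    with hcdef
  have h0 : c 0 = 1 := by simp [hcdef]
  have hsum : ∀ t : ℕ, ∑ r ∈ range (t + 3), c r = 0 := by
    intro t
    induction t with
    | zero => simp [hcdef, Finset.sum_range_succ]; norm_num
    | succ t ih =>
      rw [show t + 1 + 3 = (t + 3) + 1 by ring, Finset.sum_range_succ, ih]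
      simp [hcdef]
  have hc : ∀ t : ℕ, ((t : ℂ) + 1) * c (t + 1) =
      -(2 * (ε : ℂ) * ε) * ∑ r ∈ range (t + 1), c r := by
    intro t
    rw [mul_assoc 2 (ε : ℂ) ε, hε']
    rcases t with _ | _ | t
    · simp [hcdef]
    · simp [hcdef, Finset.sum_range_succ]
      norm_num
    · rw [show t + 1 + 1 + 1 = t + 3 by ring, hsum t]
      simp [hcdef]
  have hab : ∀ j k : ℤ, gF ε j (gF ε k (tt M)) = Finsupp.single (M + ε + ε)
      (SZ ε (-k - 1 - 2 * ε * M) * SZ ε (-j - 1 - 2 * ε * M - 2) -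
        (2 : ℂ) • (SZ ε (-k - 1 - 2 * ε * M - 1) * SZ ε (-j - 1 - 2 * ε * M - 1)) +
        SZ ε (-k - 1 - 2 * ε * M - 2) * SZ ε (-j - 1 - 2 * ε * M)) := by
    intro j k
    rw [lc_ab ε ε c h0 hc j k M ((-k - 1 - 2 * ε * M).toNat + 3) (by
      have := Int.self_le_toNat (-k - 1 - 2 * ε * M)
      push_cast
      omega)]
    congr 1
    have h3 : ∀ K : ℕ, ∑ i ∈ range (K + 3), c i • (SZ ε (-k - 1 - 2 * ε * M - i) *
        SZ ε (-j - 1 - 2 * ε * (M + ε) + i)) = ∑ i ∈ range 3, c i •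
        (SZ ε (-k - 1 - 2 * ε * M - i) * SZ ε (-j - 1 - 2 * ε * (M + ε) + i)) := by
      intro K
      induction K with
      | zero => rfl
      | succ K ih =>
        rw [show K + 1 + 3 = (K + 3) + 1 by ring, Finset.sum_range_succ, ih]
        simp [hcdef]
    rw [h3]
    have e1 : -j - 1 - 2 * ε * (M + ε) = -j - 1 - 2 * ε * M - 2 := by
      linear_combination (-2) * hε
    rw [e1]
    simp only [Finset.sum_range_succ, Finset.sum_range_zero, hcdef]
    simp
    rw [show -j - 1 - 2 * ε * M - 2 + 1 = -j - 1 - 2 * ε * M - 1 by ring]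
    module
  rw [lc_C_apply]
  simp only [Finset.sum_range_succ, Finset.sum_range_zero]
  simp only [pow_zero, Nat.choose_self, Nat.cast_one, mul_one, one_smul, zero_add, Nat.cast_zero,
    sub_zero, add_zero]
  rw [hab, hab, sub_eq_zero]
  congr 1
  rw [mul_comm (SZ ε (-m - 1 - 2 * ε * M)), mul_comm (SZ ε (-m - 1 - 2 * ε * M - 1)),
    mul_comm (SZ ε (-m - 1 - 2 * ε * M - 2))]
  abel

theorem lc_opp (ε ε' : ℤ) (hε : ε * ε' = -1) (m n M : ℤ) :
    lc_C (gF ε) (gF ε') 2 m n (tt M) = 0 := by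
  have hab : ∀ (δ δ' : ℤ), δ * δ' = -1 → ∀ j k : ℤ,
      gF δ (j + 2) (gF δ' k (tt M)) - (2 : ℂ) • gF δ (j + 1) (gF δ' (k + 1) (tt M)) +
        gF δ j (gF δ' (k + 2) (tt M)) =
      Finsupp.single (M + δ' + δ) (SZ δ' (-k - 1 - 2 * δ' * M) * SZ δ (-j - 1 - 2 * δ * M)) := by
    intro δ δ' hδ j k
    have hδ' : (δ : ℂ) * δ' = -1 := by exact_mod_cast hδ
    obtain ⟨c, hcd⟩ : ∃ c : ℕ → ℂ, ∀ i, c i = (i : ℂ) + 1 := ⟨fun i => (i : ℂ) + 1, fun _ => rfl⟩
    have h0 : c 0 = 1 := by rw [hcd]; simp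
    have hc : ∀ t : ℕ, ((t : ℂ) + 1) * c (t + 1) =
        -(2 * (δ : ℂ) * δ') * ∑ r ∈ range (t + 1), c r := by
      intro t
      rw [mul_assoc 2 (δ : ℂ) δ', hδ']
      induction t with
      | zero =>
        simp [hcd]
        norm_num
      | succ t ih =>
        rw [Finset.sum_range_succ, mul_add, ← ih, hcd, hcd]
        push_cast
        ring
    obtain ⟨P, hP⟩ : ∃ P : ℤ, P = -k - 1 - 2 * δ' * M := ⟨_, rfl⟩
    obtain ⟨Q, hQ⟩ : ∃ Q : ℤ, Q = -j - 1 - 2 * δ * M := ⟨_, rfl⟩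
    have hK := Int.self_le_toNat P
    rw [lc_ab δ δ' c h0 hc (j + 2) k M (P.toNat + 1) (by push_cast; omega),
      lc_ab δ δ' c h0 hc (j + 1) (k + 1) M (P.toNat + 1) (by push_cast; omega),
      lc_ab δ δ' c h0 hc j (k + 2) M (P.toNat + 1) (by push_cast; omega), ← hP, ← hQ,
      Finsupp.smul_single, ← Finsupp.single_sub, ← Finsupp.single_add]
    congr 1
    have htel := lc_tel (fun i : ℕ => SZ δ' (P - i) * SZ δ (Q + i)) (P.toNat + 1)
    have hz : ∀ x : ℤ, x < 0 → SZ δ' x = 0 := fun x hx => by rw [SZ, if_neg (by omega)]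
    simp only [Nat.cast_zero, sub_zero, add_zero] at htel
    rw [hz (P - ((P.toNat + 1 : ℕ) : ℤ)) (by push_cast; omega),
      hz (P - ((P.toNat + 1 + 1 : ℕ) : ℤ)) (by push_cast; omega), zero_mul, zero_mul, smul_zero,
      smul_zero, sub_zero, add_zero] at htel
    rw [← htel, Finset.smul_sum, ← Finset.sum_sub_distrib, ← Finset.sum_add_distrib]
    refine Finset.sum_congr rfl (fun i _ => ?_)
    rw [hcd]
    have e : 2 * δ * (M + δ') = 2 * δ * M - 2 := by linear_combination 2 * hδ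
    rw [show -(k + 1) - 1 - 2 * δ' * M - (i : ℤ) = P - ((i + 1 : ℕ) : ℤ) by rw [hP]; push_cast; ring,
      show -(k + 2) - 1 - 2 * δ' * M - (i : ℤ) = P - ((i + 2 : ℕ) : ℤ) by rw [hP]; push_cast; ring,
      show -(j + 2) - 1 - 2 * δ * (M + δ') + (i : ℤ) = Q + i by rw [e, hQ]; ring,
      show -(j + 1) - 1 - 2 * δ * (M + δ') + (i : ℤ) = Q + ((i + 1 : ℕ) : ℤ) by
        rw [e, hQ]; push_cast; ring,
      show -j - 1 - 2 * δ * (M + δ') + (i : ℤ) = Q + ((i + 2 : ℕ) : ℤ) by
        rw [e, hQ]; push_cast; ring]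
    module
  have hε2 : ε' * ε = -1 := by rw [mul_comm]; exact hε
  have h1 := hab ε ε' hε m n
  have h2 := hab ε' ε hε2 n m
  rw [lc_C_apply]
  simp only [Finset.sum_range_succ, Finset.sum_range_zero]
  have c1 : (2 : ℕ).choose 1 = 2 := rfl
  simp only [Nat.choose_zero_right, c1, Nat.choose_self, Nat.cast_one, Nat.cast_zero,
    Nat.cast_ofNat, sub_zero, add_zero, zero_add, pow_zero, pow_one, mul_one, one_smul]
  have e1 : m + 2 - 1 = m + 1 := by ring
  have e2 : n + 2 - 1 = n + 1 := by ring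
  have e3 : m + 2 - 2 = m := by ring
  have e4 : n + 2 - 2 = n := by ring
  rw [e1, e2, e3, e4]
  have h3 : Finsupp.single (M + ε' + ε)
      (SZ ε' (-n - 1 - 2 * ε' * M) * SZ ε (-m - 1 - 2 * ε * M)) =
    Finsupp.single (M + ε + ε') (SZ ε (-m - 1 - 2 * ε * M) * SZ ε' (-n - 1 - 2 * ε' * M)) := by
    rw [mul_comm, add_right_comm]
  rw [h3, ← h2] at h1
  have h4 := sub_eq_zero.2 h1
  rw [← h4]
  module

theorem loc_gg (ε ε' : ℤ) (hε : ε = 1 ∨ ε = -1) (hε' : ε' = 1 ∨ ε' = -1) :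
    Loc (gF ε) (gF ε') := by
  rcases hε with rfl | rfl <;> rcases hε' with rfl | rfl
  · exact lc_red 1 1 0 (fun m n M => lc_same 1 (by norm_num) m n M)
  · exact lc_red 1 (-1) 2 (fun m n M => lc_opp 1 (-1) (by norm_num) m n M)
  · exact lc_red (-1) 1 2 (fun m n M => lc_opp (-1) 1 (by norm_num) m n M)
  · exact lc_red (-1) (-1) 0 (fun m n M => lc_same (-1) (by norm_num) m n M)

end Pool.Agent.VL
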