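import Pool.Agent.VL.RD
import Pool.Agent.VL.LC

set_option autoImplicit false

open Filter Finset

namespace Pool.Agent.VL

open Pool.Agent.VOAut

theorem ld_SZ_zero (ε : ℤ) : SZ ε 0 = 1 := by
  unfold SZ
  rw [if_pos le_rfl, Int.toNat_zero, Sch]

theorem ld_gF_tt (ε : ℤ) (m : ℤ) : gF ε (-1 - 2 * ε * m) (tt m) = tt (m + ε) := by
  rw [gF_tt]
  have : -(-1 - 2 * ε * m) - 1 - 2 * ε * m = 0 := by ring
  rw [this, ld_SZ_zero]
  rfl

theorem ld_hF (g : SX) : hF (-1) (Finsupp.single 0 g) =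
    Finsupp.single 0 (MvPolynomial.X 0 * g) := by
  unfold hF
  rw [op_single, zero_add]
  rfl

theorem ld_gen (N : Submodule ℂ VS) (h0 : tt 0 ∈ N) (h : ∀ (n : ℤ) (v : VS), v ∈ N →
      hF n v ∈ N ∧ gF 1 n v ∈ N ∧ gF (-1) n v ∈ N) : N = ⊤ := by
  have htt : ∀ m : ℤ, tt m ∈ N := by
    intro m
    induction m using Int.induction_on with
    | zero => exact h0
    | succ i ih =>
      rw [← ld_gF_tt]
      exact (h _ _ ih).2.1
    | pred i ih =>
      have := (h (-1 - 2 * (-1) * (-(i : ℤ))) _ ih).2.2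
      rw [ld_gF_tt] at this
      exact this
  rw [Submodule.eq_top_iff']
  intro v
  refine VS_ind (fun v => v ∈ N) htt (fun i v hv => (h _ _ hv).1)
    (fun v w hv hw => N.add_mem hv hw) (fun c v hv => N.smul_mem c hv) v

theorem exists_VA : ∃ B : VA VS, B.vac = tt 0 ∧
    B.Y (Finsupp.single 0 (MvPolynomial.X 0)) = hF ∧ B.Y (tt 1) = gF 1 ∧ B.Y (tt (-1)) = gF (-1) ∧
    (∀ u : VS, Cov TT (B.Y u)) ∧
    (∀ N : Submodule ℂ VS, tt 0 ∈ N → (∀ (n : ℤ) (v : VS), v ∈ N →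
      hF n v ∈ N ∧ gF 1 n v ∈ N ∧ gF (-1) n v ∈ N) → N = ⊤) := by
  obtain ⟨B, hv, hS, hc⟩ := reconstruct (tt 0) TT TT_vac
    ({⟨hF, hF_trunc⟩, ⟨gF 1, gF_trunc 1⟩, ⟨gF (-1), gF_trunc (-1)⟩} : Set (FS VS))
    (by
      rintro a (rfl | rfl | rfl)
      · exact hF_cov
      · exact gF_cov 1 (by norm_num)
      · exact gF_cov (-1) (by norm_num))
    (by
      rintro a (rfl | rfl | rfl)
      · exact hF_crea
      · exact gF_crea 1
      · exact gF_crea (-1))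
    (by
      rintro a (rfl | rfl | rfl) b (rfl | rfl | rfl)
      · exact loc_hh
      · exact loc_hg 1
      · exact loc_hg (-1)
      · exact loc_symm (loc_hg 1)
      · exact loc_gg 1 1 (Or.inl rfl) (Or.inl rfl)
      · exact loc_gg 1 (-1) (Or.inl rfl) (Or.inr rfl)
      · exact loc_symm (loc_hg (-1))
      · exact loc_gg (-1) 1 (Or.inr rfl) (Or.inl rfl)
      · exact loc_gg (-1) (-1) (Or.inr rfl) (Or.inr rfl))
    (by
      intro N h0 hN
      refine ld_gen N h0 (fun n v hv => ⟨?_, ?_, ?_⟩)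
      · exact hN ⟨hF, hF_trunc⟩ (Or.inl rfl) n v hv
      · exact hN ⟨gF 1, gF_trunc 1⟩ (Or.inr (Or.inl rfl)) n v hv
      · exact hN ⟨gF (-1), gF_trunc (-1)⟩ (Or.inr (Or.inr rfl)) n v hv)
  refine ⟨B, hv, ?_, ?_, ?_, hc, ld_gen⟩
  · have h1 := hS ⟨hF, hF_trunc⟩ (Or.inl rfl)
    have h2 : hF (-1) (tt 0) = Finsupp.single 0 (MvPolynomial.X 0) := by
      unfold tt
      rw [ld_hF, mul_one]
    rw [← h2]
    exact h1
  · have h1 := hS ⟨gF 1, gF_trunc 1⟩ (Or.inr (Or.inl rfl))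
    have h2 : gF 1 (-1) (tt 0) = tt 1 := ld_gF_tt 1 0
    rw [← h2]
    exact h1
  · have h1 := hS ⟨gF (-1), gF_trunc (-1)⟩ (Or.inr (Or.inr rfl))
    have h2 : gF (-1) (-1) (tt 0) = tt (-1) := ld_gF_tt (-1) 0
    rw [← h2]
    exact h1

end Pool.Agent.VL
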