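import Pool.Agent.VL.CB
import Pool.Agent.VL.GRD
import Pool.Agent.VL.LD

set_option autoImplicit false

open Filter Finset

namespace Pool.Agent.VL

open Pool.Agent.VOAut

theorem cc_choose3 (r : ℤ) : ((Ring.choose (r + 1) 3 : ℤ) : ℂ) = ((r : ℂ) ^ 3 - r) / 6 := by
  have h := Ring.descPochhammer_eq_factorial_smul_choose (r + 1) 3
  have h2 : (descPochhammer ℤ 3).smeval (r + 1) = (r + 1) * r * (r - 1) := by
    simp only [descPochhammer_succ_right, descPochhammer_zero, Polynomial.smeval_mul,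
      Polynomial.smeval_sub, Polynomial.smeval_X, one_mul,
      Polynomial.smeval_natCast, pow_one, pow_zero, nsmul_eq_mul, mul_one]
    push_cast
    ring
  rw [h2] at h
  have h3 : (Nat.factorial 3) • Ring.choose (r + 1) 3 = 6 * Ring.choose (r + 1) 3 := by
    rw [nsmul_eq_mul]
    norm_num [Nat.factorial]
  rw [h3] at h
  have h4 : (6 : ℂ) * ((Ring.choose (r + 1) 3 : ℤ) : ℂ) = ((r : ℂ) + 1) * r * (r - 1) := by
    have := congrArg (Int.cast : ℤ → ℂ) h
    push_cast at this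
    exact this.symm
  rw [eq_div_iff (by norm_num), mul_comm, h4]
  ring

theorem cc_comm (B : VA VS) (u v w : VS) (m n : ℤ) :
    B.Y u m (B.Y v n w) - B.Y v n (B.Y u m w) =
      ∑ᶠ i : ℕ, ((Ring.choose m i : ℤ) : ℂ) • B.Y (B.Y u i v) (m + n - i) w := by
  have h1 := B.jacobi u v w 0 m n
  rw [finsum_eq_single (fun i : ℕ => ((-1 : ℂ) ^ i * ((Ring.choose (0 : ℤ) i : ℤ) : ℂ)) •
      (B.Y u (m + 0 - i) (B.Y v (n + i) w) - (-1 : ℂ) ^ (0 : ℤ) • B.Y v (n + 0 - i)
        (B.Y u (m + i) w))) 0] at h1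
  · simp only [zero_add] at h1
    rw [h1]
    simp
  · intro i hi
    obtain ⟨j, rfl⟩ := Nat.exists_eq_succ_of_ne_zero hi
    have : Ring.choose (0 : ℤ) (j + 1) = 0 := by
      have := Ring.choose_zero_succ ℤ j
      exact this
    rw [Nat.succ_eq_add_one, this]
    simp

theorem cc_vir (B : VA VS) (hB : Good B) (m n : ℤ) (v : VS) :
    B.Y omS (m + 1) (B.Y omS (n + 1) v) - B.Y omS (n + 1) (B.Y omS (m + 1) v) =
      ((m : ℂ) - n) • B.Y omS (m + n + 1) v +
        (if m + n = 0 then ((m : ℂ) ^ 3 - m) / 12 * (-5) else 0) • v := by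
  rw [cc_comm, finsum_eq_range _ 4]
  · rw [Finset.sum_range_succ, Finset.sum_range_succ, Finset.sum_range_succ,
      Finset.sum_range_succ, Finset.sum_range_zero, zero_add]
    simp only [om_om B hB]
    simp only [if_true, one_ne_zero, if_false, OfNat.ofNat_ne_zero, OfNat.ofNat_ne_one,
      Nat.cast_zero, Nat.cast_one, sub_zero, Ring.choose_zero_right, Ring.choose_one_right,
      Int.cast_one, one_smul, Nat.reduceEqDiff, map_zero, Pi.zero_apply, LinearMap.zero_apply,
      smul_zero, add_zero, Nat.cast_ofNat]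
    rw [ca_trans B hB, cc_choose3]
    have e1 : m + 1 + (n + 1) - 1 = m + n + 1 := by ring
    have e3 : B.Y ((-5 / 2 : ℂ) • tt 0) (m + 1 + (n + 1) - 3) v =
        (if m + n = 0 then (-5 / 2 : ℂ) else 0) • v := by
      rw [map_smul, ← hB.vac, Pi.smul_apply, LinearMap.smul_apply, B.vacuum]
      by_cases h : m + n = 0
      · rw [if_pos h, if_pos (by omega)]
      · rw [if_neg h, if_neg (by omega), smul_zero, zero_smul]
    rw [e3, e1, map_smul, Pi.smul_apply, LinearMap.smul_apply]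
    by_cases h : m + n = 0
    · rw [if_pos h, if_pos h]
      push_cast
      module
    · rw [if_neg h, if_neg h]
      push_cast
      module
  · intro i hi
    rw [om_om B hB, if_neg (by omega), if_neg (by omega), if_neg (by omega)]
    simp

theorem exists_voa : ∃ A : VOA VS, A.vac = tt 0 ∧ A.om = omS ∧ A.c = -5 ∧
    A.Y (Finsupp.single 0 (MvPolynomial.X 0)) = hF ∧ A.Y (tt 1) = gF 1 ∧ A.Y (tt (-1)) = gF (-1) ∧
    A.Y omS 0 = TT ∧ (∀ u : VS, Cov TT (A.Y u)) ∧
    (∀ N : Submodule ℂ VS, tt 0 ∈ N → (∀ (n : ℤ) (v : VS), v ∈ N →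
      hF n v ∈ N ∧ gF 1 n v ∈ N ∧ gF (-1) n v ∈ N) → N = ⊤) ∧
    (∀ n : ℤ, n < 0 → A.gr n = ⊥) ∧ A.gr 0 = Submodule.span ℂ {tt 0, tt 1} ∧
    A.gr 1 = Submodule.span ℂ
      {Finsupp.single 0 (MvPolynomial.X 0), Finsupp.single 1 (MvPolynomial.X 0)} ∧
    A.gr 2 = A.gr 2 ⊓ Module.End.eigenspace (A.Y omS 1) 2 := by
  obtain ⟨B, h1, h2, h3, h4, h5, h6⟩ := exists_VA
  have hB : Good B := ⟨h1, h2, h3, h4, h5, h6⟩
  obtain ⟨g1, g2, g3, g4, g5⟩ := grd_internal (B.Y omS 1) (om_one B hB)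
  let A : VOA VS :=
    { Y := B.Y
      vac := B.vac
      om := omS
      c := -5
      gr := fun n : ℤ => Module.End.eigenspace (B.Y omS 1) (n : ℂ)
      trunc := B.trunc
      vacuum := B.vacuum
      creation := B.creation
      creation_neg_one := B.creation_neg_one
      jacobi := B.jacobi
      virasoro := cc_vir B hB
      translation := by
        intro u n
        rw [om_zero B hB]
        refine LinearMap.ext fun v => ?_
        rw [ca_trans B hB]
        rfl
      mem_gr := by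
        intro n v
        rw [Module.End.mem_eigenspace_iff]
      internal := g1
      findim := g2
      bounded := ⟨0, g3⟩ }
  refine ⟨A, h1, rfl, rfl, h2, h3, h4, om_zero B hB, h5, h6, g3, ?_, ?_, ?_⟩
  · show Module.End.eigenspace (B.Y omS 1) ((0 : ℤ) : ℂ) = _
    rw [Int.cast_zero]
    exact g4
  · show Module.End.eigenspace (B.Y omS 1) ((1 : ℤ) : ℂ) = _
    rw [Int.cast_one]
    exact g5
  · show Module.End.eigenspace (B.Y omS 1) ((2 : ℤ) : ℂ) =
      Module.End.eigenspace (B.Y omS 1) ((2 : ℤ) : ℂ) ⊓ Module.End.eigenspace (B.Y omS 1) 2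
    rw [Int.cast_ofNat, inf_idem]

end Pool.Agent.VL
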