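import Pool.Agent.VL.LDefs
import Pool.Agent.VL.MDefs

/-!
# The conformal vector and the weights
-/

set_option autoImplicit false

open Filter Finset

namespace Pool.Agent.VL

open Pool.Agent.VOAut

/-- the conformal vector `x_1^2/4 + x_2/2 + (x_1^2 + x_2) t` -/
noncomputable def omS : VS :=
  Finsupp.single 0 ((1 / 4 : ℂ) • (MvPolynomial.X 0 : SX) ^ 2 + (1 / 2 : ℂ) • MvPolynomial.X 1) +
    Finsupp.single 1 ((MvPolynomial.X 0 : SX) ^ 2 + MvPolynomial.X 1)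

/-- the weight of the monomial `x^p t^m` -/
noncomputable def wt (p : ℕ →₀ ℕ) (m : ℤ) : ℤ := (p.sum fun i k => ((i : ℤ) + 1) * k) + m * (m - 1)

/-- The properties of the vertex algebra of `exists_VA`. -/
structure Good (B : VA VS) : Prop where
  vac : B.vac = tt 0
  h : B.Y (Finsupp.single 0 (MvPolynomial.X 0)) = hF
  e : B.Y (tt 1) = gF 1
  f : B.Y (tt (-1)) = gF (-1)
  cov : ∀ u : VS, Cov TT (B.Y u)
  gen : ∀ N : Submodule ℂ VS, tt 0 ∈ N → (∀ (n : ℤ) (v : VS), v ∈ N →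
      hF n v ∈ N ∧ gF 1 n v ∈ N ∧ gF (-1) n v ∈ N) → N = ⊤

end Pool.Agent.VL
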