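import Pool.Agent.VOAut.Basic

/-!
# Admissible modules in an arbitrary universe, rationality, simplicity, `C_2`-cofiniteness

The vertex operator algebras are those of `Pool.Agent.VOAut.Defs` (Borcherds' identity for all
`l, m, n`, Virasoro algebra, `L(0)`-grading with finite dimensional pieces bounded below).
-/

set_option autoImplicit false

universe u w

namespace Pool.Agent.VL

open Pool.Agent.VOAut

/-- An admissible module of a vertex operator algebra: a weak module (Jacobi identity in
component form, vacuum property, truncation) with a grading by the natural numbers (written as a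
grading by the integers with zero pieces in negative degrees) such that `u_m` maps the piece of
degree `i` to the piece of degree `i + wt u - m - 1`. -/
structure Adm {V : Type u} [AddCommGroup V] [Module ℂ V] (A : VOA V)
    (M : Type w) [AddCommGroup M] [Module ℂ M] where
  /-- the modes -/
  Y : V →ₗ[ℂ] (ℤ → Module.End ℂ M)
  /-- the homogeneous pieces -/
  gr : ℤ → Submodule ℂ M
  trunc : ∀ (u : V) (x : M), ∃ N : ℤ, ∀ n : ℤ, N ≤ n → Y u n x = 0
  vacuum : ∀ (n : ℤ) (x : M), Y A.vac n x = if n = -1 then x else 0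
  jacobi : ∀ (u v : V) (x : M) (l m n : ℤ),
    (∑ᶠ i : ℕ, ((Ring.choose m i : ℤ) : ℂ) • Y (A.Y u (l + i) v) (m + n - i) x) =
    ∑ᶠ i : ℕ, ((-1 : ℂ) ^ i * ((Ring.choose l i : ℤ) : ℂ)) •
      (Y u (m + l - i) (Y v (n + i) x) - (-1 : ℂ) ^ l • Y v (n + l - i) (Y u (m + i) x))
  internal : DirectSum.IsInternal gr
  nonneg : ∀ n : ℤ, n < 0 → gr n = ⊥
  graded : ∀ (k m i : ℤ) (u : V) (x : M), u ∈ A.gr k → x ∈ gr i →
    Y u m x ∈ gr (i + k - m - 1)

variable {V : Type u} [AddCommGroup V] [Module ℂ V]

/-- Admissible submodules: stable under all modes and graded. -/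
def Adm.IsSub {A : VOA V} {M : Type w} [AddCommGroup M] [Module ℂ M]
    (X : Adm A M) (N : Submodule ℂ M) : Prop :=
  (∀ (u : V) (n : ℤ) (x : M), x ∈ N → X.Y u n x ∈ N) ∧ N = ⨆ n : ℤ, N ⊓ X.gr n

/-- Irreducible admissible submodules. -/
def Adm.IsIrr {A : VOA V} {M : Type w} [AddCommGroup M] [Module ℂ M]
    (X : Adm A M) (N : Submodule ℂ M) : Prop :=
  X.IsSub N ∧ N ≠ ⊥ ∧ ∀ N' : Submodule ℂ M, N' ≤ N → X.IsSub N' → N' = ⊥ ∨ N' = N

/-- Rationality: every admissible module (on a vector space in the universe `w`) is a direct sum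
of irreducible admissible submodules. -/
def Rational (A : VOA V) : Prop :=
  ∀ (M : Type w) [AddCommGroup M] [Module ℂ M] (X : Adm A M),
    ∃ (ι : Type w) (N : ι → Submodule ℂ M),
      (∀ i, X.IsIrr (N i)) ∧ iSupIndep N ∧ ⨆ i, N i = ⊤

/-- Simplicity: no ideals except `0` and `V` (an ideal is a subspace stable under all `u_n`,
even without any grading condition). -/
def Simple (A : VOA V) : Prop :=
  ∀ N : Submodule ℂ V, (∀ (u : V) (n : ℤ) (v : V), v ∈ N → A.Y u n v ∈ N) → N = ⊥ ∨ N = ⊤

/-- `C_2`-cofiniteness: the span of all `u_{-2} v` has finite codimension. -/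
def C2Cofinite (A : VOA V) : Prop :=
  FiniteDimensional ℂ (V ⧸ Submodule.span ℂ {x : V | ∃ u v : V, x = A.Y u (-2) v})

end Pool.Agent.VL
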