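import Pool.Agent.VL.Defs

/-!
# Fields, `n`-th products, locality
-/

set_option autoImplicit false

universe u

open Filter Finset

namespace Pool.Agent.VL

open Pool.Agent.VOAut

variable (W : Type u) [AddCommGroup W] [Module ℂ W]

/-- The space of fields: sequences of operators `a n`, `n : ℤ`, with `a n w = 0` for large `n`. -/
def FS : Submodule ℂ (ℤ → Module.End ℂ W) where
  carrier := {a | ∀ w, ∃ N : ℤ, ∀ n : ℤ, N ≤ n → a n w = 0}
  zero_mem' := fun _ => ⟨0, fun _ _ => rfl⟩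
  add_mem' := by
    intro a b ha hb w
    obtain ⟨N, hN⟩ := ha w
    obtain ⟨N', hN'⟩ := hb w
    refine ⟨max N N', fun n hn => ?_⟩
    rw [Pi.add_apply, LinearMap.add_apply, hN n ((le_max_left _ _).trans hn),
      hN' n ((le_max_right _ _).trans hn), add_zero]
  smul_mem' := by
    intro c a ha w
    obtain ⟨N, hN⟩ := ha w
    refine ⟨N, fun n hn => ?_⟩
    rw [Pi.smul_apply, LinearMap.smul_apply, hN n hn, smul_zero]

variable {W}

/-- One term of the right hand side of Borcherds' identity. -/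
noncomputable def rt (a b : ℤ → Module.End ℂ W) (l m n : ℤ) (w : W) (i : ℕ) : W :=
  ((-1 : ℂ) ^ i * ((Ring.choose l i : ℤ) : ℂ)) •
      (a (m + l - i) (b (n + i) w) - (-1 : ℂ) ^ l • b (n + l - i) (a (m + i) w))

/-- The right hand side of Borcherds' identity for two sequences of operators. -/
noncomputable def RR (a b : ℤ → Module.End ℂ W) (l m n : ℤ) (w : W) : W :=
  ∑ᶠ i : ℕ, rt a b l m n w i

theorem FS.trunc_nat (a : FS W) (w : W) (l : ℤ) : ∃ N : ℕ, ∀ i : ℕ, N ≤ i → a.1 (l + i) w = 0 := by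
  obtain ⟨N, hN⟩ := a.2 w
  refine ⟨(N - l).toNat, fun i hi => hN _ ?_⟩
  have := Int.self_le_toNat (N - l)
  omega

theorem rt_zero (a b : FS W) (w : W) (m n : ℤ) :
    ∃ N : ℕ, ∀ l : ℤ, ∀ i : ℕ, N ≤ i → rt a.1 b.1 l m n w i = 0 := by
  obtain ⟨N, hN⟩ := FS.trunc_nat b w n
  obtain ⟨N', hN'⟩ := FS.trunc_nat a w m
  refine ⟨max N N', fun l i hi => ?_⟩
  unfold rt
  rw [hN i ((le_max_left _ _).trans hi), hN' i ((le_max_right _ _).trans hi)]
  simp

/-- The right hand side of Borcherds' identity for two fields, as an operator. -/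
noncomputable def RO (a b : FS W) (l m n : ℤ) : Module.End ℂ W where
  toFun w := RR a.1 b.1 l m n w
  map_add' := by
    intro x y
    obtain ⟨N1, h1⟩ := rt_zero a b x m n
    obtain ⟨N2, h2⟩ := rt_zero a b y m n
    obtain ⟨N3, h3⟩ := rt_zero a b (x + y) m n
    obtain ⟨K, k1, k2, k3⟩ := ((finsum_ev _ N1 (h1 l)).and ((finsum_ev _ N2 (h2 l)).and
      (finsum_ev _ N3 (h3 l)))).exists
    unfold RR
    rw [k1, k2, k3, ← Finset.sum_add_distrib]
    refine Finset.sum_congr rfl (fun i _ => ?_)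
    unfold rt
    simp only [map_add]
    module
  map_smul' := by
    intro c x
    obtain ⟨N1, h1⟩ := rt_zero a b x m n
    obtain ⟨N3, h3⟩ := rt_zero a b (c • x) m n
    obtain ⟨K, k1, k3⟩ := ((finsum_ev _ N1 (h1 l)).and (finsum_ev _ N3 (h3 l))).exists
    unfold RR
    rw [k1, k3, RingHom.id_apply, Finset.smul_sum]
    refine Finset.sum_congr rfl (fun i _ => ?_)
    unfold rt
    simp only [map_smul]
    module

/-- The `l`-th product of two fields. -/
noncomputable def prd (a b : FS W) (l : ℤ) : FS W :=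
  ⟨fun n => RO a b l 0 n, by
    intro w
    obtain ⟨N, hN⟩ := b.2 w
    obtain ⟨N', hN'⟩ := FS.trunc_nat a w 0
    have hf : ∀ i : ℕ, ∃ K : ℤ, ∀ n : ℤ, K ≤ n → b.1 n (a.1 ((0 : ℤ) + i) w) = 0 :=
      fun i => b.2 (a.1 ((0 : ℤ) + i) w)
    choose K hK using hf
    obtain ⟨B, hB⟩ : ∃ B : ℤ, ∀ i ∈ range N', K i - l + i ≤ B := by
      obtain ⟨B, hB⟩ := ((range N').image (fun i : ℕ => K i - l + (i : ℤ))).bddAbove
      exact ⟨B, fun i hi => hB (Finset.mem_coe.2 (Finset.mem_image_of_mem _ hi))⟩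
    refine ⟨max N B, fun n hn => ?_⟩
    change ∑ᶠ i : ℕ, rt a.1 b.1 l 0 n w i = 0
    apply finsum_eq_zero_of_forall_eq_zero
    intro i
    unfold rt
    have h1 : b.1 (n + i) w = 0 := hN _ (by
      have := (le_max_left N B).trans hn
      omega)
    have h2 : b.1 (n + l - i) (a.1 ((0 : ℤ) + i) w) = 0 := by
      by_cases hi : i < N'
      · apply hK
        have := hB i (Finset.mem_range.2 hi)
        have := (le_max_right N B).trans hn
        omega
      · rw [hN' i (not_lt.1 hi), map_zero]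
    rw [h1, h2]
    simp⟩

/-- Mutual locality. -/
def Loc (a b : ℤ → Module.End ℂ W) : Prop :=
  ∃ N : ℕ, ∀ (m n : ℤ) (w : W), RR a b N m n w = 0

/-- The identity field. -/
def idF : FS W :=
  ⟨fun n => if n = -1 then LinearMap.id else 0, by
    intro w
    refine ⟨0, fun n hn => ?_⟩
    have : n ≠ -1 := by omega
    simp [this]⟩

/-- Translation covariance with respect to an operator `T`. -/
def Cov (T : Module.End ℂ W) (a : ℤ → Module.End ℂ W) : Prop :=
  ∀ (n : ℤ) (w : W), T (a n w) - a n (T w) = (-(n : ℂ)) • a (n - 1) w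

/-- Creation property. -/
def Crea (vac : W) (a : ℤ → Module.End ℂ W) : Prop :=
  ∀ n : ℤ, 0 ≤ n → a n vac = 0

end Pool.Agent.VL
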