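import Pool.Agent.VL.FDefs

/-!
# The space of the lattice vertex algebra of `√2 ℤ` and its basic operators

`SX = ℂ[x_1, x_2, ...]` where the variable `x_{i+1}` is `MvPolynomial.X i`, and
`VS = ⊕_m SX t^m` (finitely supported functions `ℤ → SX`).
-/

set_option autoImplicit false

open Filter Finset

namespace Pool.Agent.VL

/-- The polynomial ring in `x_1, x_2, ...` (`X i` is `x_{i+1}`). -/
abbrev SX := MvPolynomial ℕ ℂ

/-- The space `⊕_m SX t^m`. -/
abbrev VS := ℤ →₀ SX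

/-- The operator that acts by `F m : SX → SX` from the component `m` to the component `m + e`. -/
noncomputable def op (F : ℤ → (SX →ₗ[ℂ] SX)) (e : ℤ) : Module.End ℂ VS :=
  Finsupp.lsum ℂ (fun m => (Finsupp.lsingle (m + e) : SX →ₗ[ℂ] VS) ∘ₗ F m)

/-- The monomial `t^m`. -/
noncomputable def tt (m : ℤ) : VS := Finsupp.single m 1

/-- Heisenberg modes on a component: `h(0) = 2 m`, `h(i+1) = 2 (i+1) ∂/∂x_{i+1}`,
`h(-(i+1))` is multiplication by `x_{i+1}`. -/
noncomputable def hS : ℤ → ℤ → (SX →ₗ[ℂ] SX)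
  | Int.ofNat 0, m => (2 * (m : ℂ)) • LinearMap.id
  | Int.ofNat (i + 1), _ => (2 * ((i : ℂ) + 1)) • (MvPolynomial.pderiv (R := ℂ) i).toLinearMap
  | Int.negSucc i, _ => LinearMap.mulLeft ℂ (MvPolynomial.X i)

/-- The Heisenberg field. -/
noncomputable def hF (n : ℤ) : Module.End ℂ VS := op (hS n) 0

/-- The polynomials `S_p` with `∑ S_p z^p = exp(ε ∑ x_n z^n / n)`. -/
noncomputable def Sch (ε : ℤ) : ℕ → SX
  | 0 => 1
  | (p + 1) => ((ε : ℂ) / ((p : ℂ) + 1)) • ∑ i : Fin (p + 1), MvPolynomial.X (i : ℕ) * Sch ε (p - i)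
termination_by p => p
decreasing_by omega

/-- `S_p`, zero for negative `p`. -/
noncomputable def SZ (ε : ℤ) (p : ℤ) : SX := if 0 ≤ p then Sch ε p.toNat else 0

/-- The substitution `x_n ↦ x_n - 2 ε y^n`. -/
noncomputable def sub (ε : ℤ) : SX →ₐ[ℂ] Polynomial SX :=
  MvPolynomial.aeval (fun i : ℕ => Polynomial.C (MvPolynomial.X i) -
    (2 * (ε : ℂ)) • (Polynomial.X : Polynomial SX) ^ (i + 1))

/-- The `k`-th mode of the vertex operator `Γ_ε(z) = exp(ε ∑ x_n z^n / n)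
exp(-2 ε ∑ z^{-n} ∂/∂x_n) t^ε z^{2 ε m}` on the component `m`. -/
noncomputable def GS (ε : ℤ) (k m : ℤ) : SX →ₗ[ℂ] SX :=
  (Polynomial.lsum (fun j : ℕ => LinearMap.mulRight ℂ (SZ ε (-k - 1 - 2 * ε * m + j)))) ∘ₗ
    (sub ε).toLinearMap

/-- The vertex operators `Γ_ε`, `ε = 1, -1`. -/
noncomputable def gF (ε : ℤ) (k : ℤ) : Module.End ℂ VS := op (GS ε k) ε

/-- The derivation `x_n ↦ n x_{n+1}` of `SX`. -/
noncomputable def dS : Derivation ℂ SX SX :=
  MvPolynomial.mkDerivation ℂ (fun i : ℕ => ((i : ℂ) + 1) • (MvPolynomial.X (i + 1) : SX))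

/-- The translation operator. -/
noncomputable def TT : Module.End ℂ VS :=
  op (fun m => dS.toLinearMap + (m : ℂ) • LinearMap.mulLeft ℂ (MvPolynomial.X 0)) 0

end Pool.Agent.VL
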