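import Pool.Agent.VL.MC

set_option autoImplicit false

universe u w

open Filter Finset

namespace Pool.Agent.VL

open Pool.Agent.VOAut

section M
variable {V : Type u} [AddCommGroup V] [Module ℂ V] {A : VOA V}
  {M : Type w} [AddCommGroup M] [Module ℂ M] (X : Adm A M) (L : Lat A)

theorem mb_kne : (L.κ : ℂ) ≠ 0 := by
  exact_mod_cast L.κ_pos.ne'

/-- commutator with one summand of `NH` -/
theorem mb_term (n : ℤ) (i : ℕ) (x : M) :
    X.Y L.h n (((L.κ : ℂ)⁻¹) • X.Y L.h (-1 - i) (X.Y L.h (1 + i) x)) -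
      ((L.κ : ℂ)⁻¹) • X.Y L.h (-1 - i) (X.Y L.h (1 + i) (X.Y L.h n x)) =
    (if n = 1 + i then (n : ℂ) else 0) • X.Y L.h n x +
      (if n = -1 - i then (n : ℂ) else 0) • X.Y L.h n x := by
  have hk := mb_kne L
  have h1 := mhh X L n (-1 - i) (X.Y L.h (1 + i) x)
  have h2 := mhh X L n (1 + i) x
  have h3 := eq_add_of_sub_eq h1
  have h4 := eq_add_of_sub_eq h2
  rw [map_smul, h3, h4, map_add, map_smul]
  by_cases c1 : n = 1 + i
  · subst c1
    have d1 : ((1 : ℤ) + i) + (-1 - i) = 0 := by ring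
    have d2 : ¬ ((1 : ℤ) + i + (1 + i) = 0) := by omega
    have d3 : ¬ ((1 : ℤ) + i = -1 - i) := by omega
    rw [if_pos d1, if_neg d2, if_pos rfl, if_neg d3]
    simp only [zero_smul, zero_add, add_zero, smul_add, smul_smul]
    rw [add_sub_cancel_right]
    congr 1
    field_simp
  · by_cases c2 : n = -1 - i
    · subst c2
      have d1 : ¬ ((-1 : ℤ) - i + (-1 - i) = 0) := by omega
      have d2 : ((-1 : ℤ) - i + (1 + i) = 0) := by ring
      rw [if_neg d1, if_pos d2, if_neg c1, if_pos rfl]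
      simp only [zero_smul, zero_add, smul_add, smul_smul]
      rw [add_sub_cancel_right]
      congr 1
      field_simp
    · have d1 : ¬ (n + (-1 - i) = 0) := by omega
      have d2 : ¬ (n + (1 + i) = 0) := by omega
      rw [if_neg d1, if_neg d2, if_neg c1, if_neg c2]
      simp

theorem nh_comm (n : ℤ) (x : M) : X.Y L.h n (NH X L x) - NH X L (X.Y L.h n x) =
    (n : ℂ) • X.Y L.h n x := by
  obtain ⟨N1, h1⟩ := X.trunc_nat L.h x 1
  obtain ⟨N2, h2⟩ := X.trunc_nat L.h (X.Y L.h n x) 1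
  set K := N1 + N2 + n.natAbs + 1 with hK
  rw [NH_apply, NH_apply, finsum_eq_range (fun i : ℕ =>
      ((L.κ : ℂ)⁻¹) • X.Y L.h (-1 - i) (X.Y L.h (1 + i) x)) K
      (fun i hi => by rw [h1 i (by omega), map_zero, smul_zero]),
    finsum_eq_range (fun i : ℕ =>
      ((L.κ : ℂ)⁻¹) • X.Y L.h (-1 - i) (X.Y L.h (1 + i) (X.Y L.h n x))) K
      (fun i hi => by rw [h2 i (by omega), map_zero, smul_zero]), map_sum,
    ← Finset.sum_sub_distrib]
  simp only [mb_term]
  rw [Finset.sum_add_distrib, ← Finset.sum_smul, ← Finset.sum_smul, ← add_smul]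
  congr 1
  rcases lt_trichotomy n 0 with hn | hn | hn
  · obtain ⟨k, hk⟩ : ∃ k : ℕ, n = -1 - k := ⟨(-1 - n).toNat, by omega⟩
    rw [Finset.sum_eq_zero (fun i _ => if_neg (by omega)), zero_add, Finset.sum_eq_single k]
    · rw [if_pos hk]
    · intro i _ hi
      exact if_neg (by omega)
    · intro h
      exact absurd (Finset.mem_range.2 (by omega)) h
  · subst hn
    rw [Finset.sum_eq_zero (fun i _ => if_neg (by omega)),
      Finset.sum_eq_zero (fun i _ => if_neg (by omega))]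
    simp
  · obtain ⟨k, hk⟩ : ∃ k : ℕ, n = 1 + k := ⟨(n - 1).toNat, by omega⟩
    rw [add_comm, Finset.sum_eq_zero (fun i _ => if_neg (by omega)), zero_add,
      Finset.sum_eq_single k]
    · rw [if_pos hk]
    · intro i _ hi
      exact if_neg (by omega)
    · intro h
      exact absurd (Finset.mem_range.2 (by omega)) h

theorem mb_gr_h (d n : ℤ) (x : M) (hx : x ∈ X.gr d) : X.Y L.h n x ∈ X.gr (d - n) := by
  have h1 := X.graded 1 n d L.h x L.h_mem hx
  have h2 : d + 1 - n - 1 = d - n := by ring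
  rw [h2] at h1
  exact h1

/-- `NH x` is in a submodule if all the terms are -/
theorem mb_NH_mem (P : Submodule ℂ M) (x : M)
    (h : ∀ i : ℕ, X.Y L.h (-1 - i) (X.Y L.h (1 + i) x) ∈ P) : NH X L x ∈ P := by
  rw [NH_apply]
  apply finsum_induction (fun y => y ∈ P) P.zero_mem (fun y z => P.add_mem)
  intro i
  exact P.smul_mem _ (h i)

theorem nh_gr (d : ℤ) (x : M) (hx : x ∈ X.gr d) : NH X L x ∈ X.gr d := by
  apply mb_NH_mem
  intro i
  have h1 := mb_gr_h X L _ (-1 - i) _ (mb_gr_h X L d (1 + i) x hx)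
  have h2 : d - (1 + (i : ℤ)) - (-1 - i) = d := by ring
  rw [h2] at h1
  exact h1

theorem mb_shift (c : ℤ) (n : ℤ) (y : M) (hy : y ∈ Module.End.eigenspace (NH X L) (c : ℂ)) :
    X.Y L.h n y ∈ Module.End.eigenspace (NH X L) ((c - n : ℤ) : ℂ) := by
  rw [Module.End.mem_eigenspace_iff] at hy ⊢
  have h1 := nh_comm X L n y
  rw [hy, map_smul] at h1
  rw [← sub_eq_zero]
  have h2 : NH X L (X.Y L.h n y) = (c : ℂ) • X.Y L.h n y - (n : ℂ) • X.Y L.h n y := by
    rw [← h1]
    abel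
  rw [h2]
  push_cast
  module

theorem mb_shift_D (W W' : Submodule ℂ M) (n : ℤ) (hW : ∀ y ∈ W, X.Y L.h n y ∈ W')
    (S S' : Set ℤ) (hS : ∀ c ∈ S, c - n ∈ S') (y : M) (hy : y ∈ mcD (NH X L) W S) :
    X.Y L.h n y ∈ mcD (NH X L) W' S' := by
  have h1 : mcD (NH X L) W S ≤ (mcD (NH X L) W' S').comap (X.Y L.h n) := by
    apply iSup₂_le
    rintro l hl z ⟨hz1, hz2⟩
    exact Submodule.mem_iSup_of_mem (l - n) (Submodule.mem_iSup_of_mem (hS l hl)
      ⟨hW z hz1, mb_shift X L l n z hz2⟩)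
  exact h1 hy

theorem mb_main (k : ℕ) : ∀ d : ℤ, d < k → X.gr d ≤ mcD (NH X L) (X.gr d) (Set.Ici 0) := by
  induction k with
  | zero =>
    intro d hd
    rw [X.nonneg d (by simpa using hd)]
    exact bot_le
  | succ k ih =>
    intro d hd x hx
    have h1 : NH X L x ∈ mcD (NH X L) (X.gr d) (Set.Ici 1) := by
      apply mb_NH_mem
      intro i
      refine mb_shift_D X L (X.gr (d - (1 + i))) (X.gr d) (-1 - i) ?_ (Set.Ici 0) (Set.Ici 1)
        ?_ _ (ih _ (by push_cast at hd; omega) (mb_gr_h X L d _ x hx))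
      · intro y hy
        have h1 := mb_gr_h X L _ (-1 - i) _ hy
        have h2 : d - (1 + (i : ℤ)) - (-1 - i) = d := by ring
        rw [h2] at h1
        exact h1
      · intro c hc
        have : (0 : ℤ) ≤ c := hc
        change (1 : ℤ) ≤ c - (-1 - i)
        omega
    have h2 := mcD_insert (NH X L) (X.gr d) (Set.Ici 1) 0 (by simp) x hx (by simpa using h1)
    refine mcD_mono _ _ ?_ h2
    intro c hc
    rcases hc with hc | hc
    · rw [hc]
      change (0 : ℤ) ≤ 0
      exact le_rfl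
    · have : (1 : ℤ) ≤ c := hc
      change (0 : ℤ) ≤ c
      omega

theorem mb_main' (d : ℤ) : X.gr d ≤ mcD (NH X L) (X.gr d) (Set.Ici 0) :=
  mb_main X L (d + 1).toNat d (by have := Int.self_le_toNat (d + 1); omega)

theorem mb_top : ⨆ d, X.gr d = ⊤ := X.internal.submodule_iSup_eq_top

theorem nh_diag : ⨆ j : ℕ, Module.End.eigenspace (NH X L) (j : ℂ) = ⊤ := by
  rw [eq_top_iff, ← mb_top X]
  apply iSup_le
  intro d
  refine (mb_main' X L d).trans ?_
  apply iSup₂_le
  intro l hl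
  obtain ⟨j, rfl⟩ := Int.eq_ofNat_of_zero_le (show (0 : ℤ) ≤ l from hl)
  refine le_trans inf_le_right ?_
  have := le_iSup (fun j : ℕ => Module.End.eigenspace (NH X L) (j : ℂ)) j
  simpa using this

theorem mb_indep (c : ℤ) (W : Submodule ℂ M) (S : Set ℤ) (hc : c ∉ S) (z : M)
    (h1 : z ∈ Module.End.eigenspace (NH X L) (c : ℂ)) (h2 : z ∈ mcD (NH X L) W S) : z = 0 := by
  have h3 := Module.End.eigenspaces_iSupIndep (NH X L) (c : ℂ)
  have h4 : mcD (NH X L) W S ≤ ⨆ ν, ⨆ (_ : ν ≠ (c : ℂ)), Module.End.eigenspace (NH X L) ν := by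
    apply iSup₂_le
    intro l hl
    refine le_trans inf_le_right ?_
    refine le_iSup₂_of_le (l : ℂ) ?_ le_rfl
    intro h
    have h5 : l = c := by exact_mod_cast h
    exact hc (h5 ▸ hl)
  have h5 := Submodule.disjoint_def.1 h3 z h1 (h4 h2)
  exact h5

theorem mb_mem_D (x : M) : x ∈ mcD (NH X L) ⊤ (Set.Ici 0) := by
  have h1 : ⨆ d, X.gr d ≤ mcD (NH X L) ⊤ (Set.Ici 0) := by
    apply iSup_le
    intro d
    refine (mb_main' X L d).trans (iSup₂_le fun l hl => ?_)
    exact le_iSup₂_of_le l hl (inf_le_inf_right _ le_top)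
  rw [mb_top] at h1
  exact h1 Submodule.mem_top

theorem nh_zero_iff (x : M) : NH X L x = 0 ↔ x ∈ Om X L := by
  constructor
  · intro h n hn
    have h1 := nh_comm X L n x
    rw [h, map_zero, zero_sub] at h1
    have h2 : X.Y L.h n x ∈ Module.End.eigenspace (NH X L) ((-n : ℤ) : ℂ) := by
      rw [Module.End.mem_eigenspace_iff, ← neg_eq_iff_eq_neg.2 h1.symm]
      push_cast
      module
    refine mb_indep X L (-n) ⊤ (Set.Ici 0) ?_ _ h2 (mb_mem_D X L _)
    intro h3
    have : (0 : ℤ) ≤ -n := h3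
    omega
  · intro h
    rw [NH_apply]
    apply finsum_eq_zero_of_forall_eq_zero
    intro i
    rw [h _ (by omega), map_zero, smul_zero]

theorem nh_span (N : Submodule ℂ M) (h0 : ∀ d : ℤ, Om X L ⊓ X.gr d ≤ N)
    (h1 : ∀ (n : ℤ) (x : M), x ∈ N → X.Y L.h n x ∈ N) : N = ⊤ := by
  have key : ∀ k : ℕ, ∀ d : ℤ, d < k → X.gr d ≤ N := by
    intro k
    induction k with
    | zero =>
      intro d hd
      rw [X.nonneg d (by simpa using hd)]
      exact bot_le
    | succ k ih =>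
      intro d hd
      refine (mb_main' X L d).trans (iSup₂_le fun l hl => ?_)
      rintro x ⟨hx1, hx2⟩
      have hl' : (0 : ℤ) ≤ l := hl
      have hx3 := Module.End.mem_eigenspace_iff.1 hx2
      rcases hl'.eq_or_lt with h | h
      · subst h
        exact h0 d ⟨(nh_zero_iff X L x).1 (by simpa using hx3), hx1⟩
      · have h2 : NH X L x ∈ N := by
          apply mb_NH_mem
          intro i
          exact h1 _ _ (ih _ (by push_cast at hd; omega) (mb_gr_h X L d (1 + i) x hx1))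
        rw [hx3] at h2
        refine (N.smul_mem_iff ?_).1 h2
        exact_mod_cast h.ne'
  rw [eq_top_iff, ← mb_top X]
  apply iSup_le
  intro d
  exact key (d + 1).toNat d (by have := Int.self_le_toNat (d + 1); omega)

/-- The vacuum part of a Heisenberg span. -/
theorem nh_vac (N₀ N : Submodule ℂ M) (h0 : N₀ ≤ Om X L)
    (hN : ∀ P : Submodule ℂ M, N₀ ≤ P → (∀ (n : ℤ) (x : M), x ∈ P → n < 0 → X.Y L.h n x ∈ P) →
      N ≤ P) : N ⊓ Om X L ≤ N₀ := by
  rintro x ⟨hx1, hx2⟩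
  have hOm : ∀ y ∈ Om X L, y ∈ Module.End.eigenspace (NH X L) ((0 : ℤ) : ℂ) := by
    intro y hy
    rw [Module.End.mem_eigenspace_iff, (nh_zero_iff X L y).2 hy]
    simp
  have h1 := hN (N₀ ⊔ mcD (NH X L) ⊤ (Set.Ici 1)) le_sup_left (by
    intro n x hx hn
    obtain ⟨y, hy, z, hz, rfl⟩ := Submodule.mem_sup.1 hx
    rw [map_add]
    apply Submodule.add_mem
    · apply Submodule.mem_sup_right
      refine Submodule.mem_iSup_of_mem (0 - n) (Submodule.mem_iSup_of_mem ?_
        ⟨Submodule.mem_top, mb_shift X L 0 n y (hOm y (h0 hy))⟩)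
      change (1 : ℤ) ≤ 0 - n
      omega
    · apply Submodule.mem_sup_right
      refine mb_shift_D X L ⊤ ⊤ n (fun _ _ => Submodule.mem_top) (Set.Ici 1) (Set.Ici 1) ?_ z hz
      intro c hc
      have : (1 : ℤ) ≤ c := hc
      change (1 : ℤ) ≤ c - n
      omega)
  obtain ⟨y, hy, z, hz, hyz⟩ := Submodule.mem_sup.1 (h1 hx1)
  have h2 : z ∈ Module.End.eigenspace (NH X L) ((0 : ℤ) : ℂ) := by
    have h3 : z = x - y := by rw [← hyz]; abel
    rw [h3]
    exact Submodule.sub_mem _ (hOm x hx2) (hOm y (h0 hy))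
  have h3 := mb_indep X L 0 ⊤ (Set.Ici 1) (by simp) z h2 hz
  rw [h3, add_zero] at hyz
  rw [← hyz]
  exact hy

end M

end Pool.Agent.VL
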