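import Pool.Agent.VL.MA

set_option autoImplicit false

universe u w

open Filter Finset

namespace Pool.Agent.VL

open Pool.Agent.VOAut

section M
variable {V : Type u} [AddCommGroup V] [Module ℂ V] {A : VOA V}
  {M : Type w} [AddCommGroup M] [Module ℂ M] (X : Adm A M) (L : Lat A)

/-- the recursion for highest weight vectors -/
theorem mc_rec (x : M) (hx : x ∈ Om X L) (n : ℤ) :
    (-((n : ℂ) + 1)) • X.Y L.e n x =
      (∑ᶠ i : ℕ, X.Y L.h (-1 - i) (X.Y L.e (n + 1 + i) x)) + X.Y L.e n (X.Y L.h 0 x) := by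
  have h1 := mrec X L (n + 1) x
  obtain ⟨N1, hN1⟩ := X.trunc_nat L.e x (n + 1)
  rw [finsum_eq_range _ (N1 + 1)] at h1
  · rw [finsum_eq_range (fun i : ℕ => X.Y L.h (-1 - i) (X.Y L.e (n + 1 + i) x)) (N1 + 1)]
    · rw [Finset.sum_add_distrib] at h1
      have h2 : ∑ i ∈ range (N1 + 1), X.Y L.e (n + 1 - 1 - (i : ℤ)) (X.Y L.h (i : ℤ) x) =
          X.Y L.e n (X.Y L.h 0 x) := by
        rw [Finset.sum_eq_single 0]
        · simp
        · intro i _ hi
          rw [hx (i : ℤ) (by omega), map_zero]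
        · intro h
          exact absurd (Finset.mem_range.2 (Nat.succ_pos _)) h
      rw [h2] at h1
      rw [← h1]
      have h3 : n + 1 - 1 = n := by ring
      rw [h3]
      push_cast
      rfl
    · intro i hi
      rw [hN1 i (by omega), map_zero]
  · intro i hi
    rw [hN1 i (by omega), map_zero, zero_add, hx (i : ℤ) (by omega), map_zero]

theorem top_e (l : ℤ) (x : M) (hx : x ∈ Om X L) (hl : X.Y L.h 0 x = (l : ℂ) • x) (n : ℤ)
    (hn : -l - 1 < n) : X.Y L.e n x = 0 := by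
  obtain ⟨N, hN⟩ := X.trunc L.e x
  have key : ∀ k : ℕ, ∀ n : ℤ, N - k ≤ n → -l - 1 < n → X.Y L.e n x = 0 := by
    intro k
    induction k with
    | zero =>
      intro n hn _
      exact hN n (by simpa using hn)
    | succ k ih =>
      intro n hn1 hn2
      by_cases h : N - k ≤ n
      · exact ih n h hn2
      · have h1 := mc_rec X L x hx n
        have h2 : (∑ᶠ i : ℕ, X.Y L.h (-1 - i) (X.Y L.e (n + 1 + i) x)) = 0 := by
          apply finsum_eq_zero_of_forall_eq_zero
          intro i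
          rw [ih (n + 1 + i) (by push_cast at hn1; omega) (by omega), map_zero]
        rw [h2, zero_add, hl, map_smul] at h1
        have h3 : ((-((n : ℂ) + 1)) - l) • X.Y L.e n x = 0 := by
          rw [sub_smul, h1, sub_self]
        refine (smul_eq_zero.1 h3).resolve_left ?_
        intro h4
        have h5 : ((-(n + 1) - l : ℤ) : ℂ) = 0 := by
          push_cast
          exact h4
        have h6 : (-(n + 1) - l : ℤ) = 0 := by exact_mod_cast h5
        omega
  exact key (N - n).toNat n (by have := Int.self_le_toNat (N - n); omega) hn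

theorem top_om (l : ℤ) (x : M) (hx : x ∈ Om X L) (hl : X.Y L.h 0 x = (l : ℂ) • x) :
    X.Y L.e (-l - 1) x ∈ Om X L ∧
      X.Y L.h 0 (X.Y L.e (-l - 1) x) = ((l + L.κ : ℤ) : ℂ) • X.Y L.e (-l - 1) x := by
  constructor
  · intro n hn
    have h1 := mhe X L n (-l - 1) x
    rw [hx n hn, map_zero, sub_zero, top_e X L l x hx hl (n + (-l - 1)) (by omega),
      smul_zero] at h1
    exact h1
  · have h1 := mhe X L 0 (-l - 1) x
    rw [hl, map_smul, zero_add] at h1
    rw [eq_add_of_sub_eq h1]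
    push_cast
    module

theorem low_e (l : ℤ) (x : M) (hx : x ∈ Om X L) (hl : X.Y L.h 0 x = (l : ℂ) • x)
    (N : Submodule ℂ M) (h1 : ∀ (n : ℤ) (y : M), y ∈ N → X.Y L.h n y ∈ N)
    (h2 : X.Y L.e (-l - 1) x ∈ N) (n : ℤ) : X.Y L.e n x ∈ N := by
  have key : ∀ k : ℕ, ∀ n : ℤ, -l - 1 - k ≤ n → X.Y L.e n x ∈ N := by
    intro k
    induction k with
    | zero =>
      intro n hn
      rcases lt_or_eq_of_le (by simpa using hn : -l - 1 ≤ n) with h | h
      · rw [top_e X L l x hx hl n h]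
        exact N.zero_mem
      · rw [← h]
        exact h2
    | succ k ih =>
      intro n hn1
      by_cases h : -l - 1 - k ≤ n
      · exact ih n h
      · have h1' := mc_rec X L x hx n
        have h3 : (∑ᶠ i : ℕ, X.Y L.h (-1 - i) (X.Y L.e (n + 1 + i) x)) ∈ N := by
          apply finsum_induction (fun y => y ∈ N) N.zero_mem (fun y z => N.add_mem)
          intro i
          exact h1 _ _ (ih (n + 1 + i) (by push_cast at hn1; omega))
        rw [hl, map_smul] at h1'
        have h4 : ((-((n : ℂ) + 1)) - l) • X.Y L.e n x ∈ N := by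
          rw [sub_smul, h1', add_sub_cancel_right]
          exact h3
        refine (N.smul_mem_iff ?_).1 h4
        intro h5
        have h6 : ((-(n + 1) - l : ℤ) : ℂ) = 0 := by
          push_cast
          exact h5
        have h7 : (-(n + 1) - l : ℤ) = 0 := by exact_mod_cast h6
        omega
  exact key (-l - 1 - n).toNat n (by have := Int.self_le_toNat (-l - 1 - n); omega)

theorem mc_swap_mem (x : M) : x ∈ Om X L.swap ↔ x ∈ Om X L := by
  have h0 : ∀ n : ℤ, X.Y L.swap.h n x = -(X.Y L.h n x) := by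
    intro n
    change X.Y (-L.h) n x = _
    rw [map_neg]
    rfl
  constructor
  · intro h n hn
    have := h n hn
    rw [h0, neg_eq_zero] at this
    exact this
  · intro h n hn
    rw [h0, h n hn, neg_zero]

theorem mc_swap_h (x : M) (n : ℤ) : X.Y L.swap.h n x = -(X.Y L.h n x) := by
  change X.Y (-L.h) n x = _
  rw [map_neg]
  rfl

/-- the Jacobi identity for `f`, `e` and the mode `κ - 1` -/
theorem mc_jac (x : M) (m : ℤ) : L.a • x =
    ∑ᶠ i : ℕ, ((-1 : ℂ) ^ i * ((Ring.choose ((L.κ : ℤ) - 1) i : ℤ) : ℂ)) •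
      (X.Y L.f (m + ((L.κ : ℤ) - 1) - i) (X.Y L.e (-m - 1 + i) x) -
        (-1 : ℂ) ^ ((L.κ : ℤ) - 1) • X.Y L.e (-m - 1 + ((L.κ : ℤ) - 1) - i)
          (X.Y L.f (m + i) x)) := by
  rw [← X.jacobi L.f L.e x ((L.κ : ℤ) - 1) m (-m - 1)]
  rw [finsum_eq_range _ 1]
  · rw [Finset.sum_range_one]
    have h1 : (L.κ : ℤ) - 1 + ((0 : ℕ) : ℤ) = (L.κ : ℤ) - 1 := by simp
    have h2 : m + (-m - 1) - ((0 : ℕ) : ℤ) = -1 := by
      push_cast
      ring
    rw [h1, h2, L.fe1, map_smul, Pi.smul_apply, LinearMap.smul_apply, X.vacuum]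
    simp
  · intro i hi
    rw [L.fe _ (by omega)]
    simp

theorem fe_inv (l : ℤ) (x : M) (hx : x ∈ Om X L) (hl : X.Y L.h 0 x = (l : ℂ) • x) :
    X.Y L.f (l + L.κ - 1) (X.Y L.e (-l - 1) x) = L.a • x := by
  have hf : ∀ n : ℤ, l - 1 < n → X.Y L.f n x = 0 := by
    intro n hn
    have h1 := top_e X L.swap (-l) x ((mc_swap_mem X L x).2 hx) (by
      rw [mc_swap_h, hl]
      push_cast
      module) n (by omega)
    exact h1
  rw [mc_jac X L x l, finsum_eq_range _ 1]
  · rw [Finset.sum_range_one, hf _ (by omega), map_zero, smul_zero, sub_zero]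
    have h1 : l + ((L.κ : ℤ) - 1) - ((0 : ℕ) : ℤ) = l + L.κ - 1 := by
      push_cast
      ring
    have h2 : -l - 1 + ((0 : ℕ) : ℤ) = -l - 1 := by simp
    rw [h1, h2]
    simp
  · intro i hi
    rw [top_e X L l x hx hl _ (by omega), hf _ (by omega)]
    simp

/-- if `e_n x = 0` for `n ≥ -1` and `f_n x = 0` for `n ≥ 0`, then `x = 0` -/
theorem mc_zero (x : M) (he : ∀ n : ℤ, -1 ≤ n → X.Y L.e n x = 0)
    (hf : ∀ n : ℤ, 0 ≤ n → X.Y L.f n x = 0) : x = 0 := by
  have h1 := mc_jac X L x 0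
  rw [finsum_eq_zero_of_forall_eq_zero] at h1
  · exact (smul_eq_zero.1 h1).resolve_left L.a_ne
  · intro i
    rw [he _ (by omega), hf _ (by omega)]
    simp

/-- the span of eigenvectors with eigenvalues in a set of integers -/
def mcD (T : Module.End ℂ M) (W : Submodule ℂ M) (S : Set ℤ) : Submodule ℂ M :=
  ⨆ l ∈ S, W ⊓ Module.End.eigenspace T (l : ℂ)

theorem mcD_le (T : Module.End ℂ M) (W : Submodule ℂ M) (S : Set ℤ) : mcD T W S ≤ W :=
  iSup₂_le fun _ _ => inf_le_left

theorem mcD_mono (T : Module.End ℂ M) (W : Submodule ℂ M) {S S' : Set ℤ} (h : S ⊆ S') :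
    mcD T W S ≤ mcD T W S' :=
  iSup₂_le fun l hl => le_iSup₂_of_le l (h hl) le_rfl

theorem mcD_insert (T : Module.End ℂ M) (W : Submodule ℂ M) (S : Set ℤ) (c : ℤ) (hc : c ∉ S)
    (y : M) (hy : y ∈ W) (h : T y - (c : ℂ) • y ∈ mcD T W S) : y ∈ mcD T W (insert c S) := by
  have h1 : mcD T W S ≤ (mcD T W S).map (T - (c : ℂ) • LinearMap.id) := by
    apply iSup₂_le
    rintro l hl z ⟨hz1, hz2⟩
    have hne : ((l : ℂ) - c) ≠ 0 := by
      intro h2
      have h3 : l = c := by exact_mod_cast sub_eq_zero.1 h2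
      exact hc (h3 ▸ hl)
    refine ⟨((l : ℂ) - c)⁻¹ • z, ?_, ?_⟩
    · refine Submodule.mem_iSup_of_mem l (Submodule.mem_iSup_of_mem hl ⟨?_, ?_⟩)
      · exact W.smul_mem _ hz1
      · exact Submodule.smul_mem _ _ hz2
    · have h4 := Module.End.mem_eigenspace_iff.1 hz2
      simp only [map_smul, LinearMap.sub_apply, LinearMap.smul_apply, LinearMap.id_apply, h4]
      rw [← sub_smul, smul_smul, inv_mul_cancel₀ hne, one_smul]
  obtain ⟨y0, hy0, hy1⟩ := h1 h
  have hy2 : T y0 - (c : ℂ) • y0 = T y - (c : ℂ) • y := hy1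
  have h2 : y = (y - y0) + y0 := by abel
  rw [h2]
  apply Submodule.add_mem
  · refine Submodule.mem_iSup_of_mem c (Submodule.mem_iSup_of_mem (Set.mem_insert _ _) ⟨?_, ?_⟩)
    · exact W.sub_mem hy (mcD_le T W S hy0)
    · rw [SetLike.mem_coe, Module.End.mem_eigenspace_iff, map_sub, smul_sub,
        sub_eq_sub_iff_sub_eq_sub, ← hy2]
  · exact mcD_mono T W (Set.subset_insert _ _) hy0

theorem mc_om_zero (x : M) (hx : x ∈ Om X L) : X.Y L.h 0 x ∈ Om X L := by
  intro n hn
  have h1 := mhh X L n 0 x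
  rw [hx n hn, map_zero, sub_zero, if_neg (by omega), zero_smul] at h1
  exact h1

theorem mc_gr_zero (d : ℤ) (x : M) (hx : x ∈ X.gr d) : X.Y L.h 0 x ∈ X.gr d := by
  have h1 := X.graded 1 0 d L.h x L.h_mem hx
  have h2 : d + 1 - 0 - 1 = d := by ring
  rw [h2] at h1
  exact h1

/-- one elimination step -/
theorem mc_step (x : M) (hx : x ∈ Om X L) (N : ℤ) (he : ∀ k : ℤ, N < k → X.Y L.e k x = 0)
    (k : ℤ) (hk : N ≤ k) : X.Y L.e k (X.Y L.h 0 x - ((-(N + 1) : ℤ) : ℂ) • x) = 0 := by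
  rcases lt_or_eq_of_le hk with h | h
  · have h1 := mhe X L 0 k x
    rw [he k h, map_zero, zero_sub, zero_add, he k h, smul_zero, neg_eq_zero] at h1
    rw [map_sub, map_smul, h1, he k h, smul_zero, sub_zero]
  · subst h
    have h1 := mc_rec X L x hx N
    have h2 : (∑ᶠ i : ℕ, X.Y L.h (-1 - i) (X.Y L.e (N + 1 + i) x)) = 0 := by
      apply finsum_eq_zero_of_forall_eq_zero
      intro i
      rw [he (N + 1 + i) (by omega), map_zero]
    rw [h2, zero_add] at h1
    rw [map_sub, map_smul, ← h1]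
    push_cast
    module

theorem h0_diag (d : ℤ) : Om X L ⊓ X.gr d ≤
    ⨆ l : ℤ, (Om X L ⊓ X.gr d ⊓ Module.End.eigenspace (X.Y L.h 0) (l : ℂ)) := by
  have hW : ∀ y ∈ Om X L ⊓ X.gr d, ∀ c : ℂ, X.Y L.h 0 y - c • y ∈ Om X L ⊓ X.gr d := by
    intro y hy c
    exact Submodule.sub_mem _ ⟨mc_om_zero X L y hy.1, mc_gr_zero X L d y hy.2⟩
      (Submodule.smul_mem _ _ hy)
  -- elimination with `f`
  have hF : ∀ m : ℕ, ∀ y ∈ Om X L ⊓ X.gr d, (∀ k : ℤ, -1 ≤ k → X.Y L.e k y = 0) →
      (∀ k : ℤ, (m : ℤ) ≤ k → X.Y L.f k y = 0) →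
      y ∈ mcD (X.Y L.h 0) (Om X L ⊓ X.gr d) (Set.Icc 1 (m : ℤ)) := by
    intro m
    induction m with
    | zero =>
      intro y _ h1 h2
      rw [mc_zero X L y h1 (by simpa using h2)]
      exact Submodule.zero_mem _
    | succ m ih =>
      intro y hy h1 h2
      have h3 := ih (X.Y L.h 0 y - (((m : ℤ) + 1 : ℤ) : ℂ) • y) (hW y hy _) (by
        intro k hk
        have h4 := mhe X L 0 k y
        rw [h1 k hk, map_zero, zero_sub, zero_add, h1 k hk, smul_zero, neg_eq_zero] at h4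
        rw [map_sub, map_smul, h4, h1 k hk, smul_zero, sub_zero]) (by
        intro k hk
        have h4 := mc_step X L.swap y ((mc_swap_mem X L y).2 hy.1) m (fun k hk => by
          change X.Y L.f k y = 0
          exact h2 k (by push_cast; omega)) k hk
        rw [mc_swap_h] at h4
        have h5 : X.Y L.f k (-(X.Y L.h 0 y) - ((-((m : ℤ) + 1) : ℤ) : ℂ) • y) = 0 := h4
        rw [← neg_eq_zero, ← map_neg] at h5
        rw [← h5]
        congr 1
        push_cast
        module)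
      have h4 := mcD_insert _ _ _ _ (by simp) y hy h3
      refine mcD_mono _ _ ?_ h4
      intro l hl
      rcases hl with hl | hl
      · rw [hl]
        simp
      · have := hl.1
        have := hl.2
        exact ⟨by omega, by push_cast; omega⟩
  -- elimination with `e`
  have hE : ∀ m : ℕ, ∀ y ∈ Om X L ⊓ X.gr d, (∀ k : ℤ, (m : ℤ) - 1 ≤ k → X.Y L.e k y = 0) →
      y ∈ mcD (X.Y L.h 0) (Om X L ⊓ X.gr d) (Set.Ioi (-(m : ℤ))) := by
    intro m
    induction m with
    | zero =>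
      intro y hy h1
      have h2 := hF (d + L.q).toNat y hy (by simpa using h1) (by
        intro k hk
        have h3 := X.graded L.q k d L.f y L.f_mem hy.2
        rw [X.nonneg _ (by have := Int.self_le_toNat (d + L.q); omega)] at h3
        exact (Submodule.mem_bot ℂ).1 h3)
      refine mcD_mono _ _ ?_ h2
      intro l hl
      have := hl.1
      change -((0 : ℕ) : ℤ) < l
      push_cast
      omega
    | succ m ih =>
      intro y hy h1
      have h3 := ih (X.Y L.h 0 y - ((-(m : ℤ) : ℤ) : ℂ) • y) (hW y hy _) (by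
        intro k hk
        have h4 := mc_step X L y hy.1 ((m : ℤ) - 1) (fun k hk => h1 k (by push_cast; omega)) k hk
        have h5 : -((m : ℤ) - 1 + 1) = -(m : ℤ) := by ring
        rw [h5] at h4
        exact h4)
      have h4 := mcD_insert _ _ _ _ (by simp) y hy h3
      refine mcD_mono _ _ ?_ h4
      intro l hl
      rcases hl with hl | hl
      · rw [hl]
        change -((m + 1 : ℕ) : ℤ) < -(m : ℤ)
        push_cast
        omega
      · have h5 : -(m : ℤ) < l := hl
        change -((m + 1 : ℕ) : ℤ) < l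
        push_cast
        omega
  intro x hx
  have h1 := hE (d + L.p + 1).toNat x hx (by
    intro k hk
    have h3 := X.graded L.p k d L.e x L.e_mem hx.2
    rw [X.nonneg _ (by have := Int.self_le_toNat (d + L.p + 1); omega)] at h3
    exact (Submodule.mem_bot ℂ).1 h3)
  have h2 : mcD (X.Y L.h 0) (Om X L ⊓ X.gr d) (Set.Ioi (-((d + L.p + 1).toNat : ℤ))) ≤
      ⨆ l : ℤ, (Om X L ⊓ X.gr d ⊓ Module.End.eigenspace (X.Y L.h 0) (l : ℂ)) :=
    iSup₂_le fun l _ => le_iSup (fun l : ℤ =>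
      (Om X L ⊓ X.gr d ⊓ Module.End.eigenspace (X.Y L.h 0) (l : ℂ))) l
  exact h2 h1

end M

end Pool.Agent.VL
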