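import Pool.Agent.VL.MB

set_option autoImplicit false

universe u w

open Filter Finset

namespace Pool.Agent.VL

open Pool.Agent.VOAut

section M
variable {V : Type u} [AddCommGroup V] [Module ℂ V] {A : VOA V}
  {M : Type w} [AddCommGroup M] [Module ℂ M] (X : Adm A M) (L : Lat A)

/-- the span under the negative modes of `h` -/
def mdW (N₀ : Submodule ℂ M) : Submodule ℂ M :=
  sInf {P | N₀ ≤ P ∧ ∀ (n : ℤ) (y : M), y ∈ P → n < 0 → X.Y L.h n y ∈ P}

theorem mdW_le (N₀ : Submodule ℂ M) : N₀ ≤ mdW X L N₀ :=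
  le_sInf fun _ hP => hP.1

theorem mdW_ind (N₀ P : Submodule ℂ M) (h1 : N₀ ≤ P)
    (h2 : ∀ (n : ℤ) (y : M), y ∈ P → n < 0 → X.Y L.h n y ∈ P) : mdW X L N₀ ≤ P :=
  sInf_le ⟨h1, h2⟩

theorem mdW_neg (N₀ : Submodule ℂ M) (n : ℤ) (y : M) (hy : y ∈ mdW X L N₀) (hn : n < 0) :
    X.Y L.h n y ∈ mdW X L N₀ := by
  refine (Submodule.mem_sInf).2 fun P hP => ?_
  exact hP.2 n y ((Submodule.mem_sInf).1 hy P hP) hn

theorem mdW_h (N₀ : Submodule ℂ M) (h0 : N₀ ≤ Om X L) (h1 : ∀ y ∈ N₀, X.Y L.h 0 y ∈ N₀)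
    (n : ℤ) (y : M) (hy : y ∈ mdW X L N₀) : X.Y L.h n y ∈ mdW X L N₀ := by
  let Q : Submodule ℂ M :=
    { carrier := {y | y ∈ mdW X L N₀ ∧ ∀ n : ℤ, X.Y L.h n y ∈ mdW X L N₀}
      zero_mem' := ⟨Submodule.zero_mem _, fun n => by
        rw [map_zero]
        exact Submodule.zero_mem _⟩
      add_mem' := by
        rintro x y ⟨hx, hx'⟩ ⟨hy, hy'⟩
        refine ⟨Submodule.add_mem _ hx hy, fun n => ?_⟩
        rw [map_add]
        exact Submodule.add_mem _ (hx' n) (hy' n)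
      smul_mem' := by
        rintro c x ⟨hx, hx'⟩
        refine ⟨Submodule.smul_mem _ c hx, fun n => ?_⟩
        rw [map_smul]
        exact Submodule.smul_mem _ c (hx' n) }
  have hQ : mdW X L N₀ ≤ Q := by
    apply mdW_ind
    · intro y hy
      refine ⟨mdW_le X L N₀ hy, fun n => ?_⟩
      rcases lt_trichotomy n 0 with hn | hn | hn
      · exact mdW_neg X L N₀ n y (mdW_le X L N₀ hy) hn
      · subst hn
        exact mdW_le X L N₀ (h1 y hy)
      · rw [h0 hy n hn]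
        exact Submodule.zero_mem _
    · rintro m y ⟨hy, hy'⟩ hm
      refine ⟨mdW_neg X L N₀ m y hy hm, fun n => ?_⟩
      rw [eq_add_of_sub_eq (mhh X L n m y)]
      exact Submodule.add_mem _ (Submodule.smul_mem _ _ hy) (mdW_neg X L N₀ m _ (hy' n) hm)
  exact (hQ hy).2 n

theorem mdW_E (N₀ : Submodule ℂ M) (E : ℤ → Module.End ℂ M) (c : ℂ)
    (hE : ∀ (m n : ℤ) (x : M), X.Y L.h m (E n x) - E n (X.Y L.h m x) = c • E (m + n) x)
    (h1 : ∀ y ∈ N₀, ∀ n : ℤ, E n y ∈ mdW X L N₀)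
    (n : ℤ) (y : M) (hy : y ∈ mdW X L N₀) : E n y ∈ mdW X L N₀ := by
  let Q : Submodule ℂ M :=
    { carrier := {y | y ∈ mdW X L N₀ ∧ ∀ n : ℤ, E n y ∈ mdW X L N₀}
      zero_mem' := ⟨Submodule.zero_mem _, fun n => by
        rw [map_zero]
        exact Submodule.zero_mem _⟩
      add_mem' := by
        rintro x y ⟨hx, hx'⟩ ⟨hy, hy'⟩
        refine ⟨Submodule.add_mem _ hx hy, fun n => ?_⟩
        rw [map_add]
        exact Submodule.add_mem _ (hx' n) (hy' n)
      smul_mem' := by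
        rintro c x ⟨hx, hx'⟩
        refine ⟨Submodule.smul_mem _ c hx, fun n => ?_⟩
        rw [map_smul]
        exact Submodule.smul_mem _ c (hx' n) }
  have hQ : mdW X L N₀ ≤ Q := by
    apply mdW_ind
    · intro y hy
      exact ⟨mdW_le X L N₀ hy, h1 y hy⟩
    · rintro m y ⟨hy, hy'⟩ hm
      refine ⟨mdW_neg X L N₀ m y hy hm, fun n => ?_⟩
      have h2 : E n (X.Y L.h m y) = X.Y L.h m (E n y) - c • E (m + n) y := by
        rw [← hE m n y]
        abel
      rw [h2]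
      exact Submodule.sub_mem _ (mdW_neg X L N₀ m _ (hy' n) hm)
        (Submodule.smul_mem _ _ (hy' _))
  exact (hQ hy).2 n

/-- repeated application of the top mode of `e` -/
noncomputable def mdUp (l : ℤ) (x : M) : ℕ → M
  | 0 => x
  | k + 1 => X.Y L.e (-(l + k * L.κ) - 1) (mdUp l x k)

theorem mdUp_props (l d : ℤ) (x : M) (hx : x ∈ Om X L) (hl : X.Y L.h 0 x = (l : ℂ) • x)
    (hd : x ∈ X.gr d) (k : ℕ) : mdUp X L l x k ∈ Om X L ∧
      X.Y L.h 0 (mdUp X L l x k) = ((l + k * L.κ : ℤ) : ℂ) • mdUp X L l x k ∧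
      ∃ d' : ℤ, mdUp X L l x k ∈ X.gr d' := by
  induction k with
  | zero =>
    refine ⟨hx, ?_, d, hd⟩
    simpa [mdUp] using hl
  | succ k ih =>
    obtain ⟨h1, h2, d', h3⟩ := ih
    obtain ⟨h4, h5⟩ := top_om X L _ _ h1 h2
    refine ⟨h4, ?_, _, X.graded L.p _ _ L.e _ L.e_mem h3⟩
    change X.Y L.h 0 (X.Y L.e (-(l + k * L.κ) - 1) (mdUp X L l x k)) = _ •
      X.Y L.e (-(l + k * L.κ) - 1) (mdUp X L l x k)
    rw [h5]
    congr 2
    push_cast
    ring

theorem mdUp_back (l d : ℤ) (x : M) (hx : x ∈ Om X L) (hl : X.Y L.h 0 x = (l : ℂ) • x)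
    (hd : x ∈ X.gr d) (k : ℕ) :
    X.Y L.f (l + (k + 1) * L.κ - 1) (mdUp X L l x (k + 1)) = L.a • mdUp X L l x k := by
  obtain ⟨h1, h2, -⟩ := mdUp_props X L l d x hx hl hd k
  have h3 := fe_inv X L _ _ h1 h2
  have h4 : l + (k + 1) * (L.κ : ℤ) - 1 = l + k * L.κ + L.κ - 1 := by ring
  rw [h4]
  exact h3

/-- the two-sided sequence of highest weight vectors -/
noncomputable def mdSeq (l : ℤ) (x : M) : ℤ → M
  | Int.ofNat k => mdUp X L l x k
  | Int.negSucc k => mdUp X L.swap (-l) x (k + 1)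

theorem mdSeq_nonpos (l : ℤ) (x : M) (k : ℕ) :
    mdSeq X L l x (-(k : ℤ)) = mdUp X L.swap (-l) x k := by
  cases k with
  | zero => rfl
  | succ k => rfl

theorem md_swap_hl (l : ℤ) (x : M) (hl : X.Y L.h 0 x = (l : ℂ) • x) :
    X.Y L.swap.h 0 x = ((-l : ℤ) : ℂ) • x := by
  rw [mc_swap_h, hl]
  push_cast
  module

theorem mdSeq_props (l d : ℤ) (x : M) (hx : x ∈ Om X L) (hl : X.Y L.h 0 x = (l : ℂ) • x)
    (hd : x ∈ X.gr d) (k : ℤ) : mdSeq X L l x k ∈ Om X L ∧
      X.Y L.h 0 (mdSeq X L l x k) = ((l + k * L.κ : ℤ) : ℂ) • mdSeq X L l x k ∧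
      ∃ d' : ℤ, mdSeq X L l x k ∈ X.gr d' := by
  cases k with
  | ofNat k => exact mdUp_props X L l d x hx hl hd k
  | negSucc k =>
    obtain ⟨h1, h2, h3⟩ := mdUp_props X L.swap (-l) d x ((mc_swap_mem X L x).2 hx)
      (md_swap_hl X L l x hl) hd (k + 1)
    refine ⟨(mc_swap_mem X L _).1 h1, ?_, h3⟩
    rw [mc_swap_h, neg_eq_iff_eq_neg] at h2
    change X.Y L.h 0 (mdUp X L.swap (-l) x (k + 1)) = _ • mdUp X L.swap (-l) x (k + 1)
    rw [h2, ← neg_smul]
    congr 1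
    change -((-l + ((k + 1 : ℕ) : ℤ) * (L.κ : ℤ) : ℤ) : ℂ) = _
    rw [Int.negSucc_eq]
    push_cast
    ring

theorem mdSeq_e (l d : ℤ) (x : M) (hx : x ∈ Om X L) (hl : X.Y L.h 0 x = (l : ℂ) • x)
    (hd : x ∈ X.gr d) (k : ℤ) : ∃ c : ℂ, c ≠ 0 ∧
      X.Y L.e (-(l + k * L.κ) - 1) (mdSeq X L l x k) = c • mdSeq X L l x (k + 1) := by
  cases k with
  | ofNat k =>
    refine ⟨1, one_ne_zero, ?_⟩
    rw [one_smul]
    rfl
  | negSucc k =>
    refine ⟨L.b, L.b_ne, ?_⟩
    have h1 := mdUp_back X L.swap (-l) d x ((mc_swap_mem X L x).2 hx)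
      (md_swap_hl X L l x hl) hd k
    have h2 : Int.negSucc k + 1 = -(k : ℤ) := by
      rw [Int.negSucc_eq]
      ring
    rw [h2, mdSeq_nonpos]
    have h3 : (-(l + Int.negSucc k * (L.κ : ℤ)) - 1) = -l + (k + 1) * (L.κ : ℤ) - 1 := by
      rw [Int.negSucc_eq]
      ring
    rw [h3]
    exact h1

theorem mdSeq_f (l d : ℤ) (x : M) (hx : x ∈ Om X L) (hl : X.Y L.h 0 x = (l : ℂ) • x)
    (hd : x ∈ X.gr d) (k : ℤ) : ∃ c : ℂ, c ≠ 0 ∧
      X.Y L.f (l + k * L.κ - 1) (mdSeq X L l x k) = c • mdSeq X L l x (k - 1) := by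
  rcases lt_or_ge 0 k with hk | hk
  · obtain ⟨j, rfl⟩ : ∃ j : ℕ, k = (j : ℤ) + 1 := ⟨(k - 1).toNat, by omega⟩
    refine ⟨L.a, L.a_ne, ?_⟩
    have h1 := mdUp_back X L l d x hx hl hd j
    have h2 : (j : ℤ) + 1 - 1 = Int.ofNat j := by simp
    rw [h2]
    exact h1
  · obtain ⟨j, rfl⟩ : ∃ j : ℕ, k = -(j : ℤ) := ⟨(-k).toNat, by omega⟩
    refine ⟨1, one_ne_zero, ?_⟩
    rw [one_smul, mdSeq_nonpos]
    have h1 : -(j : ℤ) - 1 = -((j + 1 : ℕ) : ℤ) := by
      push_cast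
      ring
    rw [h1, mdSeq_nonpos]
    have h2 : l + -(j : ℤ) * (L.κ : ℤ) - 1 = -(-l + j * (L.κ : ℤ)) - 1 := by ring
    rw [h2]
    rfl

/-- components of a finite sum of eigenvectors -/
theorem md_comp (T : Module.End ℂ M) (N : Submodule ℂ M) (hN : ∀ y ∈ N, T y ∈ N)
    (y : ℤ → M) (μ : ℤ → ℂ) (hμ : Function.Injective μ) (hy : ∀ k, T (y k) = μ k • y k)
    (S : Finset ℤ) : ∀ c : ℤ → ℂ, ∑ k ∈ S, c k • y k ∈ N → ∀ k ∈ S, c k • y k ∈ N := by
  classical
  induction S using Finset.induction_on with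
  | empty =>
    intro c _ k hk
    exact absurd hk (Finset.notMem_empty k)
  | insert j S hj ih =>
    intro c h k hk
    rw [Finset.sum_insert hj] at h
    have h1 : T (c j • y j + ∑ k ∈ S, c k • y k) -
        μ j • (c j • y j + ∑ k ∈ S, c k • y k) = ∑ k ∈ S, (c k * (μ k - μ j)) • y k := by
      rw [map_add, map_smul, hy, map_sum, smul_add, Finset.smul_sum]
      have h2 : ∀ k ∈ S, T (c k • y k) = (c k * μ k) • y k := by
        intro k _
        rw [map_smul, hy, smul_smul]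
      rw [Finset.sum_congr rfl h2]
      have h3 : ∑ k ∈ S, (c k * (μ k - μ j)) • y k =
          ∑ k ∈ S, (c k * μ k) • y k - ∑ k ∈ S, μ j • (c k • y k) := by
        rw [← Finset.sum_sub_distrib]
        refine Finset.sum_congr rfl fun k _ => ?_
        module
      rw [h3]
      module
    have h2 : ∑ k ∈ S, (c k * (μ k - μ j)) • y k ∈ N := by
      rw [← h1]
      exact N.sub_mem (hN _ h) (N.smul_mem _ h)
    have h3 : ∀ k ∈ S, c k • y k ∈ N := by
      intro k hk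
      have h4 := ih _ h2 k hk
      have h5 : μ k - μ j ≠ 0 := by
        rw [sub_ne_zero]
        intro h6
        exact hj (hμ h6 ▸ hk)
      rw [mul_comm, mul_smul] at h4
      exact (N.smul_mem_iff h5).1 h4
    rcases Finset.mem_insert.1 hk with hk | hk
    · subst hk
      have h4 := N.sub_mem h (Submodule.sum_mem N h3)
      rw [add_sub_cancel_right] at h4
      exact h4
    · exact h3 k hk

theorem irr_of_hw (d l : ℤ) (x : M) (hx : x ∈ Om X L) (hd : x ∈ X.gr d)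
    (hl : X.Y L.h 0 x = (l : ℂ) • x) (h0 : x ≠ 0) : ∃ N : Submodule ℂ M, x ∈ N ∧ X.IsIrr N := by
  classical
  set y : ℤ → M := mdSeq X L l x with hy
  have hyp := mdSeq_props X L l d x hx hl hd
  have hye := mdSeq_e X L l d x hx hl hd
  have hyf := mdSeq_f X L l d x hx hl hd
  have hy0 : y 0 = x := rfl
  let N₀ : Submodule ℂ M := Submodule.span ℂ (Set.range y)
  have hyN : ∀ k, y k ∈ N₀ := fun k => Submodule.subset_span ⟨k, rfl⟩
  have hN₀ : N₀ ≤ Om X L := by
    rw [Submodule.span_le]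
    rintro _ ⟨k, rfl⟩
    exact (hyp k).1
  have hspan : ∀ (T : Module.End ℂ M) (P : Submodule ℂ M), (∀ k, T (y k) ∈ P) →
      ∀ z ∈ N₀, T z ∈ P := by
    intro T P hT
    have h1 : N₀ ≤ P.comap T := by
      rw [Submodule.span_le]
      rintro _ ⟨k, rfl⟩
      exact hT k
    exact fun z hz => h1 hz
  have hN₀h : ∀ z ∈ N₀, X.Y L.h 0 z ∈ N₀ := by
    apply hspan
    intro k
    rw [(hyp k).2.1]
    exact N₀.smul_mem _ (hyN k)
  let W : Submodule ℂ M := mdW X L N₀
  have hWh : ∀ (n : ℤ) (z : M), z ∈ W → X.Y L.h n z ∈ W := mdW_h X L N₀ hN₀ hN₀h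
  have hWe : ∀ (n : ℤ) (z : M), z ∈ W → X.Y L.e n z ∈ W := by
    apply mdW_E X L N₀ (X.Y L.e) L.κ (mhe X L)
    intro z hz n
    refine hspan (X.Y L.e n) W (fun k => ?_) z hz
    apply low_e X L _ _ (hyp k).1 (hyp k).2.1 W hWh
    obtain ⟨c, -, hc⟩ := hye k
    rw [hc]
    exact W.smul_mem _ (mdW_le X L N₀ (hyN _))
  have hWf : ∀ (n : ℤ) (z : M), z ∈ W → X.Y L.f n z ∈ W := by
    apply mdW_E X L N₀ (X.Y L.f) (-(L.κ : ℂ)) (mhf X L)
    intro z hz n
    refine hspan (X.Y L.f n) W (fun k => ?_) z hz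
    refine low_e X L.swap (-(l + k * L.κ)) _ ((mc_swap_mem X L _).2 (hyp k).1)
      (md_swap_hl X L _ _ (hyp k).2.1) W (fun n z hz => ?_) ?_ n
    · rw [mc_swap_h]
      exact W.neg_mem (hWh n z hz)
    · obtain ⟨c, -, hc⟩ := hyf k
      have h1 : -(-(l + k * (L.κ : ℤ))) - 1 = l + k * L.κ - 1 := by ring
      rw [h1]
      change X.Y L.f (l + k * L.κ - 1) (y k) ∈ W
      rw [hc]
      exact W.smul_mem _ (mdW_le X L N₀ (hyN _))
  have hWall := mstable X L W (fun n z hz => ⟨hWh n z hz, hWe n z hz, hWf n z hz⟩)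
  have hWgr : W = ⨆ n : ℤ, W ⊓ X.gr n := by
    apply le_antisymm
    · apply mdW_ind
      · rw [Submodule.span_le]
        rintro _ ⟨k, rfl⟩
        obtain ⟨d', hd'⟩ := (hyp k).2.2
        exact Submodule.mem_iSup_of_mem d' ⟨mdW_le X L N₀ (hyN k), hd'⟩
      · intro n z hz _
        have h1 : (⨆ m : ℤ, W ⊓ X.gr m) ≤ (⨆ m : ℤ, W ⊓ X.gr m).comap (X.Y L.h n) := by
          apply iSup_le
          rintro m z ⟨hz1, hz2⟩
          exact Submodule.mem_iSup_of_mem (m - n) ⟨hWh n z hz1, mb_gr_h X L m n z hz2⟩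
        exact h1 hz
    · exact iSup_le fun n => inf_le_left
  refine ⟨W, mdW_le X L N₀ (hy0 ▸ hyN 0), ⟨fun u n z hz => hWall u n z hz, hWgr⟩, ?_, ?_⟩
  · intro h
    have h1 : x ∈ W := mdW_le X L N₀ (hy0 ▸ hyN 0)
    rw [h] at h1
    exact h0 ((Submodule.mem_bot ℂ).1 h1)
  · intro N' hN'W hN'
    by_cases hbot : N' = ⊥
    · exact Or.inl hbot
    · right
      obtain ⟨hst, hgr⟩ := hN'
      -- an element of minimal degree
      have hex : ∃ k : ℕ, N' ⊓ X.gr (k : ℤ) ≠ ⊥ := by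
        by_contra hcon
        push Not at hcon
        apply hbot
        rw [hgr, iSup_eq_bot]
        intro m
        rcases lt_or_ge m 0 with hm | hm
        · rw [X.nonneg m hm, inf_bot_eq]
        · obtain ⟨k, rfl⟩ := Int.eq_ofNat_of_zero_le hm
          exact hcon k
      have hmin : ∀ k : ℕ, k < Nat.find hex → ¬ (N' ⊓ X.gr (k : ℤ) ≠ ⊥) :=
        fun k hk => Nat.find_min hex hk
      obtain ⟨z, ⟨hz1, hz2⟩, hz0⟩ := Submodule.exists_mem_ne_zero_of_ne_bot (Nat.find_spec hex)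
      have hzOm : z ∈ Om X L := by
        intro n hn
        have h1 := mb_gr_h X L _ n z hz2
        have h2 := hst L.h n z hz1
        rcases lt_or_ge (((Nat.find hex : ℕ) : ℤ) - n) 0 with hm | hm
        · rw [X.nonneg _ hm] at h1
          exact (Submodule.mem_bot ℂ).1 h1
        · obtain ⟨k, hk⟩ := Int.eq_ofNat_of_zero_le hm
          rw [hk] at h1
          have h3 := hmin k (by omega)
          rw [not_not] at h3
          have h4 : X.Y L.h n z ∈ N' ⊓ X.gr (k : ℤ) := ⟨h2, h1⟩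
          rw [h3] at h4
          exact (Submodule.mem_bot ℂ).1 h4
      have hzN : z ∈ N₀ := nh_vac X L N₀ W hN₀
        (fun P h1 h2 => mdW_ind X L N₀ P h1 h2) ⟨hN'W hz1, hzOm⟩
      -- some member of the sequence
      have hyk : ∃ k, y k ∈ N' := by
        obtain ⟨c, hc⟩ := (Finsupp.mem_span_range_iff_exists_finsupp).1 hzN
        have hc' : ∑ k ∈ c.support, c k • y k = z := hc
        have h1 := md_comp (X.Y L.h 0) N' (fun y hy => hst L.h 0 y hy) y
          (fun k => ((l + k * L.κ : ℤ) : ℂ)) (by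
            intro k k' h
            have h' : ((l + k * (L.κ : ℤ) : ℤ) : ℂ) = ((l + k' * (L.κ : ℤ) : ℤ) : ℂ) := h
            have h2 : l + k * (L.κ : ℤ) = l + k' * L.κ := by exact_mod_cast h'
            have h3 : (L.κ : ℤ) ≠ 0 := by exact_mod_cast L.κ_pos.ne'
            have h4 : k * (L.κ : ℤ) = k' * L.κ := by linarith
            exact mul_right_cancel₀ h3 h4) (fun k => (hyp k).2.1) c.support c (by
            rw [hc']
            exact hz1)
        have h2 : ∃ k ∈ c.support, c k • y k ≠ 0 := by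
          by_contra hcon
          push Not at hcon
          apply hz0
          rw [← hc']
          exact Finset.sum_eq_zero hcon
        obtain ⟨k, hk, hk'⟩ := h2
        refine ⟨k, (N'.smul_mem_iff ?_).1 (h1 k hk)⟩
        exact Finsupp.mem_support_iff.1 hk
      obtain ⟨k, hk⟩ := hyk
      have hup : ∀ j : ℤ, y j ∈ N' → y (j + 1) ∈ N' := by
        intro j hj
        obtain ⟨c, hc, hc'⟩ := hye j
        have h1 := hst L.e (-(l + j * L.κ) - 1) _ hj
        rw [hc'] at h1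
        exact (N'.smul_mem_iff hc).1 h1
      have hdn : ∀ j : ℤ, y j ∈ N' → y (j - 1) ∈ N' := by
        intro j hj
        obtain ⟨c, hc, hc'⟩ := hyf j
        have h1 := hst L.f (l + j * L.κ - 1) _ hj
        rw [hc'] at h1
        exact (N'.smul_mem_iff hc).1 h1
      have hall : ∀ j : ℤ, y j ∈ N' := by
        have h1 : ∀ m : ℕ, y (k + m) ∈ N' ∧ y (k - m) ∈ N' := by
          intro m
          induction m with
          | zero => simpa using hk
          | succ m ih =>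
            have h2 := hup _ ih.1
            have h3 := hdn _ ih.2
            have e1 : k + (m : ℤ) + 1 = k + ((m + 1 : ℕ) : ℤ) := by push_cast; ring
            have e2 : k - (m : ℤ) - 1 = k - ((m + 1 : ℕ) : ℤ) := by push_cast; ring
            rw [e1] at h2
            rw [e2] at h3
            exact ⟨h2, h3⟩
        intro j
        rcases le_total k j with h | h
        · obtain ⟨m, hm⟩ := Int.eq_ofNat_of_zero_le (sub_nonneg.2 h)
          have h2 := (h1 m).1
          have h3 : k + (m : ℤ) = j := by omega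
          rw [h3] at h2
          exact h2
        · obtain ⟨m, hm⟩ := Int.eq_ofNat_of_zero_le (sub_nonneg.2 h)
          have h2 := (h1 m).2
          have h3 : k - (m : ℤ) = j := by omega
          rw [h3] at h2
          exact h2
      apply le_antisymm hN'W
      apply mdW_ind
      · rw [Submodule.span_le]
        rintro _ ⟨j, rfl⟩
        exact hall j
      · intro n z hz _
        exact hst L.h n z hz

end M

end Pool.Agent.VL
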