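import Pool.Agent.VL.FDefs

set_option autoImplicit false

open Filter Finset

namespace Pool.Agent.VL

open Pool.Agent.VOAut

universe u

variable {W : Type u} [AddCommGroup W] [Module ℂ W]

theorem ra_pascal (l : ℤ) (D : ℕ → W) (K : ℕ) :
    ∑ i ∈ range (K + 1), ((-1 : ℂ) ^ i * ((Ring.choose (l + 1) i : ℤ) : ℂ)) • D i =
      ∑ i ∈ range (K + 1), ((-1 : ℂ) ^ i * ((Ring.choose l i : ℤ) : ℂ)) • D i -
        ∑ i ∈ range K, ((-1 : ℂ) ^ i * ((Ring.choose l i : ℤ) : ℂ)) • D (i + 1) := by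
  rw [Finset.sum_range_succ', Finset.sum_range_succ' (fun i =>
    ((-1 : ℂ) ^ i * ((Ring.choose l i : ℤ) : ℂ)) • D i)]
  have : ∀ i ∈ range K, ((-1 : ℂ) ^ (i + 1) * ((Ring.choose (l + 1) (i + 1) : ℤ) : ℂ)) • D (i + 1) =
      ((-1 : ℂ) ^ (i + 1) * ((Ring.choose l (i + 1) : ℤ) : ℂ)) • D (i + 1) -
        ((-1 : ℂ) ^ i * ((Ring.choose l i : ℤ) : ℂ)) • D (i + 1) := by
    intro i _
    rw [Ring.choose_succ_succ, ← sub_smul]
    congr 1
    push_cast
    ring
  rw [Finset.sum_congr rfl this, Finset.sum_sub_distrib]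
  simp only [pow_zero, Ring.choose_zero_right]
  abel

theorem ra_pascal' (m : ℤ) (D : ℕ → W) (K : ℕ) :
    ∑ i ∈ range (K + 1), (((Ring.choose (m + 1) i : ℤ) : ℂ)) • D i =
      ∑ i ∈ range (K + 1), (((Ring.choose m i : ℤ) : ℂ)) • D i +
        ∑ i ∈ range K, (((Ring.choose m i : ℤ) : ℂ)) • D (i + 1) := by
  rw [Finset.sum_range_succ', Finset.sum_range_succ' (fun i =>
    (((Ring.choose m i : ℤ) : ℂ)) • D i)]
  have : ∀ i ∈ range K, (((Ring.choose (m + 1) (i + 1) : ℤ) : ℂ)) • D (i + 1) =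
      (((Ring.choose m (i + 1) : ℤ) : ℂ)) • D (i + 1) +
        (((Ring.choose m i : ℤ) : ℂ)) • D (i + 1) := by
    intro i _
    rw [Ring.choose_succ_succ, ← add_smul]
    congr 1
    push_cast
    ring
  rw [Finset.sum_congr rfl this, Finset.sum_add_distrib]
  simp only [Ring.choose_zero_right]
  abel

theorem rr_succ (a b : FS W) (l m n : ℤ) (w : W) :
    RR a.1 b.1 (l + 1) m n w = RR a.1 b.1 l (m + 1) n w - RR a.1 b.1 l m (n + 1) w := by
  obtain ⟨N1, h1⟩ := rt_zero a b w m n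
  obtain ⟨N2, h2⟩ := rt_zero a b w (m + 1) n
  obtain ⟨N3, h3⟩ := rt_zero a b w m (n + 1)
  obtain ⟨N4, h4⟩ := FS.trunc_nat b w n
  obtain ⟨N5, h5⟩ := FS.trunc_nat a w m
  set K := N1 + N2 + N3 + N4 + N5 with hK
  set D : ℕ → W := fun i => a.1 (m + 1 + l - i) (b.1 (n + i) w) +
    (-1 : ℂ) ^ l • b.1 (n + 1 + l - i) (a.1 (m + i) w) with hD
  have e1 : RR a.1 b.1 (l + 1) m n w =
      ∑ i ∈ range (K + 1), ((-1 : ℂ) ^ i * ((Ring.choose (l + 1) i : ℤ) : ℂ)) • D i := by
    unfold RR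
    rw [finsum_eq_range _ (K + 1) (fun i hi => h1 _ i (by omega))]
    refine Finset.sum_congr rfl (fun i _ => ?_)
    unfold rt
    rw [hD]
    simp only
    rw [show m + (l + 1) - (i : ℤ) = m + 1 + l - i by ring,
      show n + (l + 1) - (i : ℤ) = n + 1 + l - i by ring,
      zpow_add_one₀ (by norm_num : (-1 : ℂ) ≠ 0)]
    module
  have e2 : RR a.1 b.1 l (m + 1) n w - RR a.1 b.1 l m (n + 1) w =
      ∑ i ∈ range (K + 1), ((-1 : ℂ) ^ i * ((Ring.choose l i : ℤ) : ℂ)) • D i -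
        ∑ i ∈ range (K + 1), ((-1 : ℂ) ^ i * ((Ring.choose l i : ℤ) : ℂ)) • D (i + 1) := by
    unfold RR
    rw [finsum_eq_range _ (K + 1) (fun i hi => h2 _ i (by omega)),
      finsum_eq_range _ (K + 1) (fun i hi => h3 _ i (by omega)),
      ← Finset.sum_sub_distrib, ← Finset.sum_sub_distrib]
    refine Finset.sum_congr rfl (fun i _ => ?_)
    unfold rt
    rw [hD]
    simp only
    push_cast
    rw [show m + 1 + l - ((i : ℤ) + 1) = m + l - i by ring,
      show n + ((i : ℤ) + 1) = n + 1 + i by ring,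
      show n + 1 + l - ((i : ℤ) + 1) = n + l - i by ring,
      show m + ((i : ℤ) + 1) = m + 1 + i by ring]
    module
  rw [e1, e2, ra_pascal, Finset.sum_range_succ (fun i =>
    ((-1 : ℂ) ^ i * ((Ring.choose l i : ℤ) : ℂ)) • D (i + 1)) K]
  have : D (K + 1) = 0 := by
    rw [hD]
    simp only
    rw [h4 (K + 1) (by omega), h5 (K + 1) (by omega)]
    simp
  rw [this]
  simp

theorem loc_symm {a b : ℤ → Module.End ℂ W} (h : Loc a b) : Loc b a := by
  obtain ⟨N, hN⟩ := h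
  refine ⟨N, fun m n w => ?_⟩
  have := hN n m w
  unfold RR at *
  have e : ∀ i : ℕ, rt b a N m n w i = (-(-1 : ℂ) ^ (N : ℤ)) • rt a b N n m w i := by
    intro i
    unfold rt
    have h1 : ((-1 : ℂ) ^ (N : ℤ)) * ((-1 : ℂ) ^ (N : ℤ)) = 1 := by
      rw [← zpow_add₀ (by norm_num : (-1 : ℂ) ≠ 0), ← two_mul]
      exact Even.neg_one_zpow (even_two_mul _)
    set s := (-1 : ℂ) ^ (N : ℤ) with hs
    set c := ((-1 : ℂ) ^ i * ((Ring.choose (N : ℤ) i : ℤ) : ℂ)) with hc
    have h2 : c • (b (m + ↑N - ↑i) (a (n + ↑i) w) - s • a (n + ↑N - ↑i) (b (m + ↑i) w)) =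
      c • ((s * s) • b (m + ↑N - ↑i) (a (n + ↑i) w) - s • a (n + ↑N - ↑i) (b (m + ↑i) w)) := by
      rw [h1, one_smul]
    rw [h2]
    module
  rw [finsum_congr e]
  by_cases hfin : (Function.support (fun i : ℕ => rt a b N n m w i)).Finite
  · rw [← smul_finsum' _ hfin]
    rw [this, smul_zero]
  · exfalso
    apply hfin
    apply Set.Finite.subset (Set.finite_Iio (N + 1))
    intro i hi
    rw [Function.mem_support] at hi
    by_contra hn
    rw [Set.mem_Iio, not_lt] at hn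
    apply hi
    unfold rt
    have : Ring.choose (N : ℤ) i = 0 := by
      rw [Ring.choose_natCast, Nat.choose_eq_zero_of_lt (by omega)]
      simp
    rw [this]
    simp

theorem ra_loc_le {a b : FS W} {N : ℕ} (h : ∀ (m n : ℤ) (w : W), RR a.1 b.1 N m n w = 0)
    (j : ℕ) (m n : ℤ) (w : W) : RR a.1 b.1 (N + j) m n w = 0 := by
  induction j generalizing m n with
  | zero => simpa using h m n w
  | succ j ih =>
    push_cast
    rw [← add_assoc, rr_succ, ih, ih, sub_zero]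

theorem borcherds (a b : FS W) (h : Loc a.1 b.1) (l m n : ℤ) (w : W) :
    (∑ᶠ i : ℕ, ((Ring.choose m i : ℤ) : ℂ) • (prd a b (l + i)).1 (m + n - i) w) =
      RR a.1 b.1 l m n w := by
  obtain ⟨N, hN⟩ := h
  have hz : ∀ l : ℤ, (N : ℤ) ≤ l → ∀ (m n : ℤ) (w : W), RR a.1 b.1 l m n w = 0 := by
    intro l hl m n w
    obtain ⟨j, rfl⟩ := Int.le.dest hl
    exact ra_loc_le hN j m n w
  have hp : ∀ l : ℤ, (N : ℤ) ≤ l → ∀ n : ℤ, ∀ w : W, (prd a b l).1 n w = 0 := by
    intro l hl n w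
    exact hz l hl 0 n w
  -- left hand side as a finite sum
  have hL : ∀ (l m n : ℤ) (K : ℕ), (N : ℤ) ≤ l + K →
      (∑ᶠ i : ℕ, ((Ring.choose m i : ℤ) : ℂ) • (prd a b (l + i)).1 (m + n - i) w) =
        ∑ i ∈ range K, ((Ring.choose m i : ℤ) : ℂ) • (prd a b (l + i)).1 (m + n - i) w := by
    intro l m n K hK
    apply finsum_eq_range
    intro i hi
    rw [hp _ (by omega), smul_zero]
  -- recursion of the left hand side
  have hrec : ∀ l m n : ℤ,
      (∑ᶠ i : ℕ, ((Ring.choose (m + 1) i : ℤ) : ℂ) • (prd a b (l + i)).1 (m + 1 + n - i) w) =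
      (∑ᶠ i : ℕ, ((Ring.choose m i : ℤ) : ℂ) • (prd a b (l + i)).1 (m + (n + 1) - i) w) +
      (∑ᶠ i : ℕ, ((Ring.choose m i : ℤ) : ℂ) • (prd a b (l + 1 + i)).1 (m + n - i) w) := by
    intro l m n
    set K := ((N : ℤ) - l).toNat with hK
    have hK' := Int.self_le_toNat ((N : ℤ) - l)
    rw [hL l (m + 1) n (K + 1) (by push_cast; omega), hL l m (n + 1) (K + 1) (by push_cast; omega),
      hL (l + 1) m n K (by omega)]
    have := ra_pascal' m (fun i : ℕ => (prd a b (l + i)).1 (m + 1 + n - i) w) K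
    rw [this]
    congr 1
    · refine Finset.sum_congr rfl (fun i _ => ?_)
      rw [show m + (n + 1) - (i : ℤ) = m + 1 + n - i by ring]
    · refine Finset.sum_congr rfl (fun i _ => ?_)
      push_cast
      rw [show l + ((i : ℤ) + 1) = l + 1 + i by ring,
        show m + 1 + n - ((i : ℤ) + 1) = m + n - i by ring]
  -- the case m = 0
  have h0 : ∀ l n : ℤ,
      (∑ᶠ i : ℕ, ((Ring.choose (0 : ℤ) i : ℤ) : ℂ) • (prd a b (l + i)).1 (0 + n - i) w) =
        RR a.1 b.1 l 0 n w := by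
    intro l n
    rw [finsum_eq_single _ 0]
    · simp only [Ring.choose_zero_right, Nat.cast_zero, add_zero, zero_add, sub_zero]
      rw [Int.cast_one, one_smul]
      rfl
    · intro i hi
      rw [Ring.choose_zero_pos _ (Nat.pos_of_ne_zero hi)]
      simp
  -- nonnegative m
  have hpos : ∀ (m : ℕ) (l n : ℤ),
      (∑ᶠ i : ℕ, ((Ring.choose (m : ℤ) i : ℤ) : ℂ) • (prd a b (l + i)).1 (m + n - i) w) =
        RR a.1 b.1 l m n w := by
    intro m
    induction m with
    | zero => exact fun l n => h0 l n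
    | succ m ih =>
      intro l n
      push_cast
      rw [hrec l m n, ih l (n + 1), ih (l + 1) n, rr_succ]
      abel
  -- one step down
  have hdown : ∀ m : ℤ, (∀ l n : ℤ,
      (∑ᶠ i : ℕ, ((Ring.choose (m + 1) i : ℤ) : ℂ) • (prd a b (l + i)).1 (m + 1 + n - i) w) =
        RR a.1 b.1 l (m + 1) n w) → ∀ l n : ℤ,
      (∑ᶠ i : ℕ, ((Ring.choose m i : ℤ) : ℂ) • (prd a b (l + i)).1 (m + n - i) w) =
        RR a.1 b.1 l m n w := by
    intro m hm
    have key : ∀ (j : ℕ) (l : ℤ), (N : ℤ) ≤ l + j → ∀ n : ℤ,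
        (∑ᶠ i : ℕ, ((Ring.choose m i : ℤ) : ℂ) • (prd a b (l + i)).1 (m + n - i) w) =
          RR a.1 b.1 l m n w := by
      intro j
      induction j with
      | zero =>
        intro l hl n
        rw [hL l m n 0 (by simpa using hl), hz l (by simpa using hl)]
        simp
      | succ j ih =>
        intro l hl n
        have e1 := hrec l m (n - 1)
        have e2 := rr_succ a b l m (n - 1) w
        rw [hm l (n - 1), ih (l + 1) (by push_cast at hl ⊢; omega) (n - 1)] at e1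
        rw [sub_add_cancel] at e1 e2
        rw [e2] at e1
        have : (∑ᶠ i : ℕ, ((Ring.choose m i : ℤ) : ℂ) • (prd a b (l + i)).1 (m + n - i) w) =
            RR a.1 b.1 l (m + 1) (n - 1) w -
              (RR a.1 b.1 l (m + 1) (n - 1) w - RR a.1 b.1 l m n w) := by
          rw [eq_sub_iff_add_eq]
          exact e1.symm
        rw [this]
        abel
    intro l n
    have := Int.self_le_toNat ((N : ℤ) - l)
    exact key (((N : ℤ) - l).toNat) l (by omega) n
  -- negative m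
  have hneg : ∀ (k : ℕ) (l n : ℤ),
      (∑ᶠ i : ℕ, ((Ring.choose (-(k : ℤ)) i : ℤ) : ℂ) • (prd a b (l + i)).1 (-(k : ℤ) + n - i) w) =
        RR a.1 b.1 l (-(k : ℤ)) n w := by
    intro k
    induction k with
    | zero => simpa using fun l n => h0 l n
    | succ k ih =>
      apply hdown
      have : -((k + 1 : ℕ) : ℤ) + 1 = -(k : ℤ) := by push_cast; ring
      rw [this]
      exact ih
  obtain ⟨k, hk⟩ := Int.eq_nat_or_neg m
  rcases hk with rfl | rfl
  · exact hpos k l n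
  · exact hneg k l n

end Pool.Agent.VL
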