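import Pool.Agent.VL.RA

/-!
# Dong's lemma
-/

set_option autoImplicit false

open Filter Finset

namespace Pool.Agent.VL

open Pool.Agent.VOAut

universe u

variable {W : Type u} [AddCommGroup W] [Module ℂ W]

/-- shift operators on functions on `ℤ³` -/
noncomputable def rbT (v : ℤ × ℤ × ℤ) : Module.End ℂ (ℤ × ℤ × ℤ → W) :=
  LinearMap.funLeft ℂ W (fun p => p + v)

theorem rbT_apply (v : ℤ × ℤ × ℤ) (g : ℤ × ℤ × ℤ → W) (p : ℤ × ℤ × ℤ) :
    rbT v g p = g (p + v) := rfl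

theorem rbT_comm (u v : ℤ × ℤ × ℤ) : Commute (rbT (W := W) u) (rbT v) := by
  apply LinearMap.ext
  intro g
  funext p
  simp only [Module.End.mul_apply, rbT_apply]
  rw [add_right_comm]

noncomputable def rbX : Module.End ℂ (ℤ × ℤ × ℤ → W) := rbT (0, 1, 0) - rbT (0, 0, 1)
noncomputable def rbY : Module.End ℂ (ℤ × ℤ × ℤ → W) := rbT (1, 0, 0) - rbT (0, 0, 1)
noncomputable def rbP : Module.End ℂ (ℤ × ℤ × ℤ → W) := rbT (1, 0, 0) - rbT (0, 1, 0)

theorem rbX_apply (g : ℤ × ℤ × ℤ → W) (m n k : ℤ) :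
    rbX g (m, n, k) = g (m, n + 1, k) - g (m, n, k + 1) := by
  simp [rbX, rbT_apply]

theorem rbY_apply (g : ℤ × ℤ × ℤ → W) (m n k : ℤ) :
    rbY g (m, n, k) = g (m + 1, n, k) - g (m, n, k + 1) := by
  simp [rbY, rbT_apply]

theorem rbP_apply (g : ℤ × ℤ × ℤ → W) (m n k : ℤ) :
    rbP g (m, n, k) = g (m + 1, n, k) - g (m, n + 1, k) := by
  simp [rbP, rbT_apply]

theorem rb_eq : rbX (W := W) = rbY + -rbP := by
  unfold rbX rbY rbP
  abel

theorem rbTX (v : ℤ × ℤ × ℤ) : Commute (rbT (W := W) v) rbX :=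
  (rbT_comm _ _).sub_right (rbT_comm _ _)

theorem rbTY (v : ℤ × ℤ × ℤ) : Commute (rbT (W := W) v) rbY :=
  (rbT_comm _ _).sub_right (rbT_comm _ _)

theorem rbTP (v : ℤ × ℤ × ℤ) : Commute (rbT (W := W) v) rbP :=
  (rbT_comm _ _).sub_right (rbT_comm _ _)

theorem rbXY : Commute (rbX (W := W)) rbY := (rbTY _).sub_left (rbTY _)

theorem rbXP : Commute (rbX (W := W)) rbP := (rbTP _).sub_left (rbTP _)

theorem rbYP : Commute (rbY (W := W)) rbP := (rbTP _).sub_left (rbTP _)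

theorem rb_binom (g : ℤ × ℤ × ℤ → W) (N M : ℕ)
    (h1 : (rbX ^ N * rbY ^ N : Module.End ℂ (ℤ × ℤ × ℤ → W)) g = 0)
    (h2 : (rbP ^ M) g = 0) : (rbX ^ (N + (N + M))) g = 0 := by
  have key : ∀ k s t : ℕ, N + M ≤ k + s + t →
      (rbX ^ (N + k) * rbY ^ s * rbP ^ t : Module.End ℂ (ℤ × ℤ × ℤ → W)) g = 0 := by
    intro k
    induction k with
    | zero =>
      intro s t hst
      by_cases hs : N ≤ s
      · obtain ⟨j, rfl⟩ := Nat.exists_eq_add_of_le hs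
        have c1 : Commute ((rbX (W := W)) ^ N * rbY ^ N) (rbY ^ j * rbP ^ t) :=
          ((rbXY.pow_pow _ _).mul_left ((Commute.refl _).pow_pow _ _)).mul_right
            ((rbXP.pow_pow _ _).mul_left (rbYP.pow_pow _ _))
        rw [add_zero, pow_add, ← mul_assoc, mul_assoc, c1.eq, Module.End.mul_apply, h1, map_zero]
      · obtain ⟨j, hj⟩ : ∃ j, t = j + M := ⟨t - M, by omega⟩
        rw [hj, pow_add rbP, ← mul_assoc, Module.End.mul_apply, h2, map_zero]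
    | succ k ih =>
      intro s t hst
      have e : (rbX (W := W)) ^ (N + (k + 1)) * rbY ^ s * rbP ^ t =
          rbX ^ (N + k) * rbY ^ (s + 1) * rbP ^ t - rbX ^ (N + k) * rbY ^ s * rbP ^ (t + 1) := by
        have c1 : Commute (rbP (W := W)) (rbY ^ s) := (rbYP.symm).pow_right s
        have e2 : (rbX (W := W)) ^ (N + (k + 1)) = rbX ^ (N + k) * (rbY - rbP) := by
          rw [← add_assoc, pow_succ]
          congr 1
          rw [rb_eq]
          abel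
        rw [e2, mul_sub, sub_mul, sub_mul, pow_succ' rbY, pow_succ' rbP, mul_assoc _ rbP,
          c1.eq]
        simp only [mul_assoc]
      rw [e, LinearMap.sub_apply, ih (s + 1) t (by omega), ih s (t + 1) (by omega), sub_zero]
  have := key (N + M) 0 0 (by omega)
  simpa using this

/-- eventual pointwise equality -/
def rbE (g : ℤ × ℤ × ℤ → W) (G : ℕ → (ℤ × ℤ × ℤ → W)) : Prop :=
  ∀ m n k : ℤ, ∀ᶠ K in atTop, g (m, n, k) = G K (m, n, k)

theorem rbE_X {g : ℤ × ℤ × ℤ → W} {G : ℕ → (ℤ × ℤ × ℤ → W)} (h : rbE g G) :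
    rbE (rbX g) (fun K => rbX (G K)) := by
  intro m n k
  filter_upwards [h m (n + 1) k, h m n (k + 1)] with K h1 h2
  rw [rbX_apply, rbX_apply, h1, h2]

theorem rbE_Y {g : ℤ × ℤ × ℤ → W} {G : ℕ → (ℤ × ℤ × ℤ → W)} (h : rbE g G) :
    rbE (rbY g) (fun K => rbY (G K)) := by
  intro m n k
  filter_upwards [h (m + 1) n k, h m n (k + 1)] with K h1 h2
  rw [rbY_apply, rbY_apply, h1, h2]

theorem rbE_XN {g : ℤ × ℤ × ℤ → W} {G : ℕ → (ℤ × ℤ × ℤ → W)} (h : rbE g G) (N : ℕ) :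
    rbE ((rbX ^ N) g) (fun K => (rbX ^ N) (G K)) := by
  induction N with
  | zero => simpa using h
  | succ N ih =>
    simp only [pow_succ', Module.End.mul_apply]
    exact rbE_X ih

theorem rbE_YN {g : ℤ × ℤ × ℤ → W} {G : ℕ → (ℤ × ℤ × ℤ → W)} (h : rbE g G) (N : ℕ) :
    rbE ((rbY ^ N) g) (fun K => (rbY ^ N) (G K)) := by
  induction N with
  | zero => simpa using h
  | succ N ih =>
    simp only [pow_succ', Module.End.mul_apply]
    exact rbE_Y ih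

theorem rr_zero (a b : ℤ → Module.End ℂ W) (m n : ℤ) (w : W) :
    RR a b 0 m n w = a m (b n w) - b n (a m w) := by
  unfold RR
  rw [finsum_eq_single _ 0]
  · unfold rt
    simp
  · intro i hi
    unfold rt
    rw [Ring.choose_zero_pos _ (Nat.pos_of_ne_zero hi)]
    simp

theorem rb_powX (b c : FS W) (v : W) (j : ℕ) (m n k : ℤ) :
    (rbX ^ j) (fun p => b.1 p.2.1 (c.1 p.2.2 v) - c.1 p.2.2 (b.1 p.2.1 v)) (m, n, k) =
      RR b.1 c.1 j n k v := by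
  induction j generalizing n k with
  | zero => simp [rr_zero]
  | succ j ih =>
    rw [pow_succ', Module.End.mul_apply, rbX_apply, ih, ih]
    push_cast
    rw [rr_succ]

theorem rb_powY (a c : FS W) (u : ℤ → W) (j : ℕ) (m n k : ℤ) :
    (rbY ^ j) (fun p => a.1 p.1 (c.1 p.2.2 (u p.2.1)) - c.1 p.2.2 (a.1 p.1 (u p.2.1))) (m, n, k) =
      RR a.1 c.1 j m k (u n) := by
  induction j generalizing m k with
  | zero => simp [rr_zero]
  | succ j ih =>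
    rw [pow_succ', Module.End.mul_apply, rbY_apply, ih, ih]
    push_cast
    rw [rr_succ]

theorem rb_powX' (b c : FS W) (u : ℤ → W) (j : ℕ) (m n k : ℤ) :
    (rbX ^ j) (fun p => b.1 p.2.1 (c.1 p.2.2 (u p.1)) - c.1 p.2.2 (b.1 p.2.1 (u p.1))) (m, n, k) =
      RR b.1 c.1 j n k (u m) := by
  induction j generalizing n k with
  | zero => simp [rr_zero]
  | succ j ih =>
    rw [pow_succ', Module.End.mul_apply, rbX_apply, ih, ih]
    push_cast
    rw [rr_succ]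

theorem rb_mapX (a : ℤ → Module.End ℂ W) (g : ℤ × ℤ × ℤ → W) (j : ℕ) :
    (rbX ^ j) (fun p => a p.1 (g p)) = fun p => a p.1 ((rbX ^ j) g p) := by
  induction j with
  | zero => simp
  | succ j ih =>
    rw [pow_succ', Module.End.mul_apply, ih]
    funext ⟨m, n, k⟩
    rw [rbX_apply, Module.End.mul_apply, rbX_apply, map_sub]

theorem rb_mapY (b : ℤ → Module.End ℂ W) (g : ℤ × ℤ × ℤ → W) (j : ℕ) :
    (rbY ^ j) (fun p => b p.2.1 (g p)) = fun p => b p.2.1 ((rbY ^ j) g p) := by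
  induction j with
  | zero => simp
  | succ j ih =>
    rw [pow_succ', Module.End.mul_apply, ih]
    funext ⟨m, n, k⟩
    rw [rbY_apply, Module.End.mul_apply, rbY_apply, map_sub]

/-- the two basic functions are killed by `X^N Y^N` -/
theorem rb_g1 (a b c : FS W) (w : W) (N : ℕ)
    (h2 : ∀ (m n : ℤ) (w : W), RR a.1 c.1 N m n w = 0)
    (h3 : ∀ (m n : ℤ) (w : W), RR b.1 c.1 N m n w = 0) :
    (rbX ^ N * rbY ^ N : Module.End ℂ (ℤ × ℤ × ℤ → W)) (fun p : ℤ × ℤ × ℤ =>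
      a.1 p.1 (b.1 p.2.1 (c.1 p.2.2 w)) - c.1 p.2.2 (a.1 p.1 (b.1 p.2.1 w))) = 0 := by
  have e : (fun p : ℤ × ℤ × ℤ =>
      a.1 p.1 (b.1 p.2.1 (c.1 p.2.2 w)) - c.1 p.2.2 (a.1 p.1 (b.1 p.2.1 w))) =
      (fun p : ℤ × ℤ × ℤ => a.1 p.1 ((fun p : ℤ × ℤ × ℤ =>
        b.1 p.2.1 (c.1 p.2.2 w) - c.1 p.2.2 (b.1 p.2.1 w)) p)) +
      (fun p : ℤ × ℤ × ℤ => a.1 p.1 (c.1 p.2.2 (b.1 p.2.1 w)) -
        c.1 p.2.2 (a.1 p.1 (b.1 p.2.1 w))) := by
    funext p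
    simp only [Pi.add_apply, map_sub]
    abel
  rw [e, map_add]
  have t1 : (rbX ^ N) (fun p : ℤ × ℤ × ℤ => a.1 p.1 ((fun p : ℤ × ℤ × ℤ =>
        b.1 p.2.1 (c.1 p.2.2 w) - c.1 p.2.2 (b.1 p.2.1 w)) p)) = 0 := by
    rw [rb_mapX]
    funext ⟨m, n, k⟩
    rw [rb_powX, h3, map_zero]
    rfl
  have t2 : (rbY ^ N) (fun p : ℤ × ℤ × ℤ => a.1 p.1 (c.1 p.2.2 (b.1 p.2.1 w)) -
        c.1 p.2.2 (a.1 p.1 (b.1 p.2.1 w))) = 0 := by
    funext ⟨m, n, k⟩
    rw [rb_powY a c (fun n => b.1 n w), h2]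
    rfl
  rw [Module.End.mul_apply, Module.End.mul_apply, t2, map_zero, add_zero,
    ← Module.End.mul_apply, (rbXY.pow_pow N N).eq, Module.End.mul_apply, t1, map_zero]

theorem rb_g2 (a b c : FS W) (w : W) (N : ℕ)
    (h2 : ∀ (m n : ℤ) (w : W), RR a.1 c.1 N m n w = 0)
    (h3 : ∀ (m n : ℤ) (w : W), RR b.1 c.1 N m n w = 0) :
    (rbX ^ N * rbY ^ N : Module.End ℂ (ℤ × ℤ × ℤ → W)) (fun p : ℤ × ℤ × ℤ =>
      b.1 p.2.1 (a.1 p.1 (c.1 p.2.2 w)) - c.1 p.2.2 (b.1 p.2.1 (a.1 p.1 w))) = 0 := by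
  have e : (fun p : ℤ × ℤ × ℤ =>
      b.1 p.2.1 (a.1 p.1 (c.1 p.2.2 w)) - c.1 p.2.2 (b.1 p.2.1 (a.1 p.1 w))) =
      (fun p : ℤ × ℤ × ℤ => b.1 p.2.1 ((fun p : ℤ × ℤ × ℤ =>
        a.1 p.1 (c.1 p.2.2 w) - c.1 p.2.2 (a.1 p.1 w)) p)) +
      (fun p : ℤ × ℤ × ℤ => b.1 p.2.1 (c.1 p.2.2 (a.1 p.1 w)) -
        c.1 p.2.2 (b.1 p.2.1 (a.1 p.1 w))) := by
    funext p
    simp only [Pi.add_apply, map_sub]
    abel
  rw [e, map_add]
  have t1 : (rbY ^ N) (fun p : ℤ × ℤ × ℤ => b.1 p.2.1 ((fun p : ℤ × ℤ × ℤ =>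
        a.1 p.1 (c.1 p.2.2 w) - c.1 p.2.2 (a.1 p.1 w)) p)) = 0 := by
    rw [rb_mapY]
    funext ⟨m, n, k⟩
    rw [rb_powY a c (fun _ => w), h2, map_zero]
    rfl
  have t2 : (rbX ^ N) (fun p : ℤ × ℤ × ℤ => b.1 p.2.1 (c.1 p.2.2 (a.1 p.1 w)) -
        c.1 p.2.2 (b.1 p.2.1 (a.1 p.1 w))) = 0 := by
    funext ⟨m, n, k⟩
    rw [rb_powX' b c (fun m => a.1 m w), h3]
    rfl
  rw [Module.End.mul_apply, Module.End.mul_apply, t1, map_zero, zero_add,
    ← Module.End.mul_apply, (rbXY.pow_pow N N).eq, Module.End.mul_apply, t2, map_zero]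

/-- the function `G_l` -/
noncomputable def rbG (a b c : FS W) (w : W) (l : ℤ) : ℤ × ℤ × ℤ → W := fun p =>
  RR a.1 b.1 l p.1 p.2.1 (c.1 p.2.2 w) - c.1 p.2.2 (RR a.1 b.1 l p.1 p.2.1 w)

theorem rbG_P (a b c : FS W) (w : W) (l : ℤ) (j : ℕ) :
    (rbP ^ j) (rbG a b c w l) = rbG a b c w (l + j) := by
  induction j with
  | zero => simp
  | succ j ih =>
    rw [pow_succ', Module.End.mul_apply, ih]
    funext ⟨m, n, k⟩
    rw [rbP_apply]
    unfold rbG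
    push_cast
    rw [← add_assoc, rr_succ, rr_succ, map_sub]
    abel

theorem rbG_XY (a b c : FS W) (w : W) (l : ℤ) (N : ℕ)
    (h2 : ∀ (m n : ℤ) (w : W), RR a.1 c.1 N m n w = 0)
    (h3 : ∀ (m n : ℤ) (w : W), RR b.1 c.1 N m n w = 0) :
    (rbX ^ N * rbY ^ N : Module.End ℂ (ℤ × ℤ × ℤ → W)) (rbG a b c w l) = 0 := by
  set g1 : ℤ × ℤ × ℤ → W := fun p =>
      a.1 p.1 (b.1 p.2.1 (c.1 p.2.2 w)) - c.1 p.2.2 (a.1 p.1 (b.1 p.2.1 w)) with hg1
  set g2 : ℤ × ℤ × ℤ → W := fun p =>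
      b.1 p.2.1 (a.1 p.1 (c.1 p.2.2 w)) - c.1 p.2.2 (b.1 p.2.1 (a.1 p.1 w)) with hg2
  set H : ℕ → (ℤ × ℤ × ℤ → W) := fun i => ((-1 : ℂ) ^ i * ((Ring.choose l i : ℤ) : ℂ)) •
    (rbT (l - i, (i : ℤ), 0) g1 - (-1 : ℂ) ^ l • rbT ((i : ℤ), l - i, 0) g2) with hH
  have hE : rbE (rbG a b c w l) (fun K => ∑ i ∈ range K, H i) := by
    intro m n k
    obtain ⟨N1, e1⟩ := rt_zero a b (c.1 k w) m n
    obtain ⟨N2, e2⟩ := rt_zero a b w m n
    filter_upwards [finsum_ev _ N1 (e1 l), finsum_ev _ N2 (e2 l)] with K k1 k2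
    unfold rbG RR
    simp only
    rw [k1, k2, map_sum, ← Finset.sum_sub_distrib, Finset.sum_apply]
    refine Finset.sum_congr rfl (fun i _ => ?_)
    rw [hH]
    simp only [Pi.smul_apply, Pi.sub_apply, rbT_apply, hg1, hg2, Prod.mk_add_mk, add_zero]
    unfold rt
    simp only [map_sub, map_smul]
    rw [show m + l - (i : ℤ) = m + (l - i) by ring, show n + l - (i : ℤ) = n + (l - i) by ring]
    module
  have h0 : ∀ i, (rbX ^ N * rbY ^ N : Module.End ℂ (ℤ × ℤ × ℤ → W)) (H i) = 0 := by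
    intro i
    rw [hH]
    simp only
    have cT : ∀ v, Commute (rbT (W := W) v) (rbX ^ N * rbY ^ N) := fun v =>
      ((rbTX v).pow_right N).mul_right ((rbTY v).pow_right N)
    have q1 : (rbX ^ N * rbY ^ N : Module.End ℂ (ℤ × ℤ × ℤ → W)) (rbT (l - i, (i : ℤ), 0) g1) = 0 := by
      rw [← Module.End.mul_apply, ← (cT _).eq, Module.End.mul_apply, hg1, rb_g1 a b c w N h2 h3,
        map_zero]
    have q2 : (rbX ^ N * rbY ^ N : Module.End ℂ (ℤ × ℤ × ℤ → W)) (rbT ((i : ℤ), l - i, 0) g2) = 0 := by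
      rw [← Module.End.mul_apply, ← (cT _).eq, Module.End.mul_apply, hg2, rb_g2 a b c w N h2 h3,
        map_zero]
    rw [map_smul, map_sub, map_smul, q1, q2]
    simp
  have hE2 := rbE_XN (rbE_YN hE N) N
  funext ⟨m, n, k⟩
  obtain ⟨K, hK⟩ := (hE2 m n k).exists
  have h0' : (rbX ^ N) ((rbY ^ N) (∑ i ∈ range K, H i)) = 0 := by
    rw [← Module.End.mul_apply, map_sum]
    exact Finset.sum_eq_zero (fun i _ => h0 i)
  rw [Module.End.mul_apply, hK]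
  simp only [h0']

theorem dong (a b c : FS W) (h1 : Loc a.1 b.1) (h2 : Loc a.1 c.1) (h3 : Loc b.1 c.1) (l : ℤ) :
    Loc (prd a b l).1 c.1 := by
  obtain ⟨N1, h1⟩ := h1
  obtain ⟨N2, h2⟩ := h2
  obtain ⟨N3, h3⟩ := h3
  set N := N2 + N3 with hN
  have h2' : ∀ (m n : ℤ) (w : W), RR a.1 c.1 N m n w = 0 := by
    intro m n w
    have := ra_loc_le h2 N3 m n w
    rw [hN]
    push_cast
    exact this
  have h3' : ∀ (m n : ℤ) (w : W), RR b.1 c.1 N m n w = 0 := by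
    intro m n w
    have := ra_loc_le h3 N2 m n w
    rw [hN, add_comm]
    push_cast
    exact this
  set M := ((N1 : ℤ) - l).toNat with hM
  refine ⟨N + (N + M), fun n k w => ?_⟩
  have hP : (rbP ^ M) (rbG a b c w l) = 0 := by
    rw [rbG_P]
    have hl : ∃ j : ℕ, l + (M : ℤ) = N1 + j := by
      have := Int.self_le_toNat ((N1 : ℤ) - l)
      exact ⟨(l + M - N1).toNat, by omega⟩
    obtain ⟨j, hj⟩ := hl
    funext ⟨m, n, k⟩
    unfold rbG
    rw [hj]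
    simp only
    rw [ra_loc_le h1, ra_loc_le h1, map_zero, sub_zero]
    rfl
  have key := rb_binom (rbG a b c w l) N M (rbG_XY a b c w l N h2' h3') hP
  have hfin : ∀ (j : ℕ) (n k : ℤ), (rbX ^ j) (rbG a b c w l) (0, n, k) =
      RR (prd a b l).1 c.1 j n k w := by
    intro j
    induction j with
    | zero =>
      intro n k
      rw [Nat.cast_zero, rr_zero]
      rfl
    | succ j ih =>
      intro n k
      rw [pow_succ', Module.End.mul_apply, rbX_apply, ih, ih]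
      push_cast
      rw [rr_succ]
  rw [← hfin, key]
  rfl

end Pool.Agent.VL
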