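import Pool.Agent.VL.FDefs

/-! RC: covariance and creation property of the products. -/

set_option autoImplicit false

universe u

open Filter Finset

namespace Pool.Agent.VL

open Pool.Agent.VOAut

variable {W : Type u} [AddCommGroup W] [Module ℂ W]

theorem rc_choose (l : ℤ) (i : ℕ) :
    ((i : ℂ) + 1) * ((Ring.choose l (i + 1) : ℤ) : ℂ) =
      ((Ring.choose l i : ℤ) : ℂ) * ((l : ℂ) - i) := by
  have h := Ring.choose_smul_choose l (n := i + 1) (k := i) (Nat.le_succ i)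
  have h1 : i + 1 - i = 1 := by omega
  rw [h1, Ring.choose_one_right, Nat.choose_succ_self_right, nsmul_eq_mul] at h
  have h2 := congrArg (fun z : ℤ => (z : ℂ)) h
  push_cast at h2
  exact h2

theorem rc_term (T : Module.End ℂ W) (a b : ℤ → Module.End ℂ W) (ha : Cov T a) (hb : Cov T b)
    (l n : ℤ) (w : W) (i : ℕ) :
    T (rt a b l 0 n w i) - rt a b l 0 n (T w) i + (n : ℂ) • rt a b l 0 (n - 1) w i =
      ((-1 : ℂ) ^ (i + 1) * ((Ring.choose l (i + 1) : ℤ) : ℂ) * ((i + 1 : ℕ) : ℂ)) •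
        (a (l - (i + 1 : ℕ)) (b (n + (i + 1 : ℕ) - 1) w) -
          (-1 : ℂ) ^ l • b (n + l - (i + 1 : ℕ)) (a ((i + 1 : ℕ) - 1) w)) -
      ((-1 : ℂ) ^ i * ((Ring.choose l i : ℤ) : ℂ) * (i : ℂ)) •
        (a (l - i) (b (n + i - 1) w) - (-1 : ℂ) ^ l • b (n + l - i) (a (i - 1) w)) := by
  have hT : ∀ (c : ℤ → Module.End ℂ W), Cov T c → ∀ (m : ℤ) (x : W),
      T (c m x) = c m (T x) + (-(m : ℂ)) • c (m - 1) x := by
    intro c hc m x
    rw [← hc m x]
    abel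
  have hc := rc_choose l i
  have e1 : ((-1 : ℂ) ^ (i + 1) * ((Ring.choose l (i + 1) : ℤ) : ℂ) * ((i + 1 : ℕ) : ℂ)) =
      -((-1 : ℂ) ^ i * (((Ring.choose l i : ℤ) : ℂ) * ((l : ℂ) - i))) := by
    rw [← hc]
    push_cast
    ring
  rw [e1]
  have i1 : (0 : ℤ) + l - (i : ℤ) = l - i := by ring
  have i2 : (0 : ℤ) + (i : ℤ) = i := by ring
  have i3 : l - ((i + 1 : ℕ) : ℤ) = l - i - 1 := by push_cast; ring
  have i4 : n + ((i + 1 : ℕ) : ℤ) - 1 = n + i := by push_cast; ring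
  have i5 : n + l - ((i + 1 : ℕ) : ℤ) = n + l - i - 1 := by push_cast; ring
  have i6 : ((i + 1 : ℕ) : ℤ) - 1 = i := by push_cast; ring
  have i7 : n - 1 + (i : ℤ) = n + i - 1 := by ring
  have i8 : n - 1 + l - (i : ℤ) = n + l - i - 1 := by ring
  unfold rt
  simp only [i1, i2, i3, i4, i5, i6, i7, i8, map_smul, map_sub, hT a ha, hT b hb, map_add]
  push_cast
  module

theorem cov_prd (T : Module.End ℂ W) (a b : FS W) (ha : Cov T a.1) (hb : Cov T b.1) (l : ℤ) :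
    Cov T (prd a b l).1 := by
  intro n w
  obtain ⟨N1, h1⟩ := rt_zero a b w 0 n
  obtain ⟨N2, h2⟩ := rt_zero a b (T w) 0 n
  obtain ⟨N3, h3⟩ := rt_zero a b w 0 (n - 1)
  obtain ⟨N4, h4⟩ := FS.trunc_nat b w (n - 1)
  obtain ⟨N5, h5⟩ := FS.trunc_nat a w (-1)
  obtain ⟨K, k1, k2, k3, k4, k5⟩ := ((finsum_ev _ N1 (h1 l)).and ((finsum_ev _ N2 (h2 l)).and
    ((finsum_ev _ N3 (h3 l)).and ((eventually_ge_atTop N4).and
      (eventually_ge_atTop N5))))).exists
  change T (∑ᶠ i : ℕ, rt a.1 b.1 l 0 n w i) - (∑ᶠ i : ℕ, rt a.1 b.1 l 0 n (T w) i) =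
    (-(n : ℂ)) • ∑ᶠ i : ℕ, rt a.1 b.1 l 0 (n - 1) w i
  rw [k1, k2, k3, map_sum]
  have h6 : ∑ i ∈ range K, (T (rt a.1 b.1 l 0 n w i) - rt a.1 b.1 l 0 n (T w) i +
      (n : ℂ) • rt a.1 b.1 l 0 (n - 1) w i) = 0 := by
    rw [Finset.sum_congr rfl fun i _ => rc_term T a.1 b.1 ha hb l n w i]
    rw [Finset.sum_range_sub (fun i : ℕ => ((-1 : ℂ) ^ i * ((Ring.choose l i : ℤ) : ℂ) *
      ((i : ℕ) : ℂ)) • (a.1 (l - (i : ℕ)) (b.1 (n + (i : ℕ) - 1) w) -
          (-1 : ℂ) ^ l • b.1 (n + l - (i : ℕ)) (a.1 ((i : ℕ) - 1) w)))]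
    have h7 : b.1 (n + (K : ℕ) - 1) w = 0 := by
      have := h4 K k4
      rwa [show n - 1 + (K : ℤ) = n + K - 1 by ring] at this
    have h8 : a.1 ((K : ℕ) - 1) w = 0 := by
      have := h5 K k5
      rwa [show -1 + (K : ℤ) = K - 1 by ring] at this
    rw [h7, h8]
    simp
  rw [Finset.sum_add_distrib, Finset.sum_sub_distrib, ← Finset.smul_sum] at h6
  rw [neg_smul]
  exact eq_neg_of_add_eq_zero_left h6

theorem crea_prd (vac : W) (a b : FS W) (ha : Crea vac a.1) (hb : Crea vac b.1) (l : ℤ) :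
    Crea vac (prd a b l).1 := by
  intro n hn
  change ∑ᶠ i : ℕ, rt a.1 b.1 l 0 n vac i = 0
  apply finsum_eq_zero_of_forall_eq_zero
  intro i
  unfold rt
  rw [hb (n + i) (by omega), ha (0 + i) (by omega)]
  simp

theorem prd_vac (vac : W) (a b : FS W) (ha : Crea vac a.1) (hb : Crea vac b.1) (l : ℤ) :
    (prd a b l).1 (-1) vac = a.1 l (b.1 (-1) vac) := by
  change ∑ᶠ i : ℕ, rt a.1 b.1 l 0 (-1) vac i = _
  rw [finsum_eq_single _ 0]
  · unfold rt
    rw [ha (0 + (0 : ℕ)) (by simp)]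
    simp
  · intro i hi
    unfold rt
    rw [hb (-1 + i) (by omega), ha (0 + i) (by omega)]
    simp

theorem loc_id (a : FS W) : Loc (idF (W := W)).1 a.1 := by
  refine ⟨0, fun m n w => ?_⟩
  unfold RR
  rw [finsum_eq_single _ 0]
  · unfold rt idF
    simp only [Nat.cast_zero, add_zero, sub_zero, pow_zero, Ring.choose_zero_right, Int.cast_one,
      mul_one, one_smul, zpow_zero]
    split_ifs <;> simp
  · intro i hi
    unfold rt
    rw [show ((0 : ℕ) : ℤ) = 0 from rfl, Ring.choose_zero_pos ℤ (Nat.pos_of_ne_zero hi)]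
    simp

theorem cov_id (T : Module.End ℂ W) : Cov T (idF (W := W)).1 := by
  intro n w
  unfold idF
  simp only
  by_cases h : n = -1
  · have h2 : ¬ (n - 1 = -1) := by omega
    simp [h]
  · by_cases h2 : n = 0
    · subst h2
      simp
    · have h3 : ¬ (n - 1 = -1) := by omega
      simp [h, h3]

theorem crea_id (vac : W) : Crea vac (idF (W := W)).1 := by
  intro n hn
  have h : ¬ n = -1 := by omega
  unfold idF
  simp [h]

end Pool.Agent.VL
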