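import Pool.Agent.VL.MDefs
import Pool.Agent.VL.RA
import Pool.Agent.VL.RB
import Pool.Agent.VL.RC

/-!
# The reconstruction theorem
-/

set_option autoImplicit false

universe u

open Filter Finset

namespace Pool.Agent.VL

open Pool.Agent.VOAut

variable {W : Type u} [AddCommGroup W] [Module ℂ W]

theorem rd_rr_add (a a' b : FS W) (l m n : ℤ) (w : W) :
    RR (a + a').1 b.1 l m n w = RR a.1 b.1 l m n w + RR a'.1 b.1 l m n w := by
  obtain ⟨N1, h1⟩ := rt_zero a b w m n
  obtain ⟨N2, h2⟩ := rt_zero a' b w m n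
  obtain ⟨N3, h3⟩ := rt_zero (a + a') b w m n
  obtain ⟨K, k1, k2, k3⟩ := ((finsum_ev _ N1 (h1 l)).and ((finsum_ev _ N2 (h2 l)).and
    (finsum_ev _ N3 (h3 l)))).exists
  unfold RR
  rw [k1, k2, k3, ← Finset.sum_add_distrib]
  refine Finset.sum_congr rfl (fun i _ => ?_)
  unfold rt
  simp only [Submodule.coe_add, Pi.add_apply, LinearMap.add_apply, map_add]
  module

theorem rd_rr_smul (c : ℂ) (a b : FS W) (l m n : ℤ) (w : W) :
    RR (c • a).1 b.1 l m n w = c • RR a.1 b.1 l m n w := by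
  obtain ⟨N1, h1⟩ := rt_zero a b w m n
  obtain ⟨N3, h3⟩ := rt_zero (c • a) b w m n
  obtain ⟨K, k1, k3⟩ := ((finsum_ev _ N1 (h1 l)).and (finsum_ev _ N3 (h3 l))).exists
  unfold RR
  rw [k1, k3, Finset.smul_sum]
  refine Finset.sum_congr rfl (fun i _ => ?_)
  unfold rt
  simp only [Submodule.coe_smul, Pi.smul_apply, LinearMap.smul_apply, map_smul]
  module

theorem rd_loc_mono (a b : FS W) {N : ℕ} (h : ∀ (m n : ℤ) (w : W), RR a.1 b.1 N m n w = 0)
    (M : ℕ) (hM : N ≤ M) : ∀ (m n : ℤ) (w : W), RR a.1 b.1 M m n w = 0 := by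
  induction M, hM using Nat.le_induction with
  | base => exact h
  | succ M _ ih =>
    intro m n w
    rw [Nat.cast_succ, rr_succ, ih, ih, sub_zero]

theorem rd_loc_add {a a' b : FS W} (h : Loc a.1 b.1) (h' : Loc a'.1 b.1) :
    Loc (a + a').1 b.1 := by
  obtain ⟨N, hN⟩ := h
  obtain ⟨N', hN'⟩ := h'
  refine ⟨max N N', fun m n w => ?_⟩
  rw [rd_rr_add, rd_loc_mono a b hN _ (le_max_left _ _), rd_loc_mono a' b hN' _ (le_max_right _ _),
    add_zero]

theorem rd_loc_smul (c : ℂ) {a b : FS W} (h : Loc a.1 b.1) : Loc (c • a).1 b.1 := by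
  obtain ⟨N, hN⟩ := h
  refine ⟨N, fun m n w => ?_⟩
  rw [rd_rr_smul, hN, smul_zero]

/-- The admissible sets of fields in the Zorn argument. -/
structure RDok (vac : W) (T : Module.End ℂ W) (X : Set (FS W)) : Prop where
  cov : ∀ a ∈ X, Cov T a.1
  crea : ∀ a ∈ X, Crea vac a.1
  loc : ∀ a ∈ X, ∀ b ∈ X, Loc a.1 b.1

theorem rd_exists_max (vac : W) (T : Module.End ℂ W) (S : Set (FS W)) (hS : RDok vac T S) :
    ∃ X : Set (FS W), S ⊆ X ∧ RDok vac T X ∧
      ∀ c : FS W, Cov T c.1 → Crea vac c.1 → Loc c.1 c.1 → (∀ b ∈ X, Loc c.1 b.1) → c ∈ X := by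
  obtain ⟨X, hSX, hX⟩ := zorn_subset_nonempty {X : Set (FS W) | RDok vac T X} (by
    intro C hC hchain hne
    refine ⟨⋃₀ C, ⟨?_, ?_, ?_⟩, fun s hs => Set.subset_sUnion_of_mem hs⟩
    · rintro a ⟨s, hs, ha⟩
      exact (hC hs).cov a ha
    · rintro a ⟨s, hs, ha⟩
      exact (hC hs).crea a ha
    · rintro a ⟨s, hs, ha⟩ b ⟨t, ht, hb⟩
      rcases hchain.total hs ht with h | h
      · exact (hC ht).loc a (h ha) b hb
      · exact (hC hs).loc a ha b (h hb)) S hS
  refine ⟨X, hSX, hX.prop, fun c h1 h2 h3 h4 => ?_⟩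
  have hins : RDok vac T (insert c X) := by
    refine ⟨?_, ?_, ?_⟩
    · intro a ha
      rcases Set.mem_insert_iff.1 ha with rfl | ha
      · exact h1
      · exact hX.prop.cov a ha
    · intro a ha
      rcases Set.mem_insert_iff.1 ha with rfl | ha
      · exact h2
      · exact hX.prop.crea a ha
    · intro a ha b hb
      rcases Set.mem_insert_iff.1 ha with ha1 | ha1
      · rw [ha1]
        rcases Set.mem_insert_iff.1 hb with hb1 | hb1
        · rw [hb1]
          exact h3
        · exact h4 b hb1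
      · rcases Set.mem_insert_iff.1 hb with hb1 | hb1
        · rw [hb1]
          exact loc_symm (h4 a ha1)
        · exact hX.prop.loc a ha1 b hb1
  exact hX.le_of_ge hins (Set.subset_insert c X) (Set.mem_insert c X)

theorem reconstruct (vac : W) (T : Module.End ℂ W) (hT : T vac = 0) (S : Set (FS W))
    (hcov : ∀ a ∈ S, Cov T a.1) (hcrea : ∀ a ∈ S, Crea vac a.1)
    (hloc : ∀ a ∈ S, ∀ b ∈ S, Loc a.1 b.1)
    (hgen : ∀ N : Submodule ℂ W, vac ∈ N → (∀ a ∈ S, ∀ (n : ℤ), ∀ v ∈ N, a.1 n v ∈ N) → N = ⊤) :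
    ∃ B : VA W, B.vac = vac ∧ (∀ a ∈ S, B.Y (a.1 (-1) vac) = a.1) ∧ ∀ u : W, Cov T (B.Y u) := by
  classical
  have hS' : RDok vac T (insert idF S) := by
    refine ⟨?_, ?_, ?_⟩
    · intro a ha
      rcases Set.mem_insert_iff.1 ha with rfl | ha
      · exact cov_id T
      · exact hcov a ha
    · intro a ha
      rcases Set.mem_insert_iff.1 ha with rfl | ha
      · exact crea_id vac
      · exact hcrea a ha
    · intro a ha b hb
      rcases Set.mem_insert_iff.1 ha with rfl | ha
      · exact loc_id b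
      · rcases Set.mem_insert_iff.1 hb with rfl | hb
        · exact loc_symm (loc_id a)
        · exact hloc a ha b hb
  obtain ⟨X, hSX, hX, hmax⟩ := rd_exists_max vac T _ hS'
  have hid : idF ∈ X := hSX (Set.mem_insert _ _)
  have hSX' : S ⊆ X := fun a ha => hSX (Set.mem_insert_of_mem _ ha)
  have hprd : ∀ a ∈ X, ∀ b ∈ X, ∀ l : ℤ, prd a b l ∈ X := by
    intro a ha b hb l
    have h1 : ∀ c ∈ X, Loc (prd a b l).1 c.1 := fun c hc =>
      dong a b c (hX.loc a ha b hb) (hX.loc a ha c hc) (hX.loc b hb c hc) l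
    refine hmax _ (cov_prd T a b (hX.cov a ha) (hX.cov b hb) l)
      (crea_prd vac a b (hX.crea a ha) (hX.crea b hb) l) ?_ h1
    exact dong a b _ (hX.loc a ha b hb) (loc_symm (h1 a ha)) (loc_symm (h1 b hb)) l
  have hadd : ∀ a ∈ X, ∀ b ∈ X, a + b ∈ X := by
    intro a ha b hb
    have h1 : ∀ c ∈ X, Loc (a + b).1 c.1 := fun c hc =>
      rd_loc_add (hX.loc a ha c hc) (hX.loc b hb c hc)
    refine hmax _ ?_ ?_ ?_ h1
    · intro n w
      have e1 := hX.cov a ha n w
      have e2 := hX.cov b hb n w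
      simp only [Submodule.coe_add, Pi.add_apply, LinearMap.add_apply, map_add, smul_add]
      rw [← e1, ← e2]
      abel
    · intro n hn
      simp only [Submodule.coe_add, Pi.add_apply, LinearMap.add_apply]
      rw [hX.crea a ha n hn, hX.crea b hb n hn, add_zero]
    · exact rd_loc_add (loc_symm (h1 a ha)) (loc_symm (h1 b hb))
  have hsmul : ∀ (c : ℂ), ∀ a ∈ X, c • a ∈ X := by
    intro c a ha
    have h1 : ∀ b ∈ X, Loc (c • a).1 b.1 := fun b hb => rd_loc_smul c (hX.loc a ha b hb)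
    refine hmax _ ?_ ?_ ?_ h1
    · intro n w
      have e1 := hX.cov a ha n w
      simp only [Submodule.coe_smul, Pi.smul_apply, LinearMap.smul_apply, map_smul]
      rw [← smul_sub, e1, smul_comm]
    · intro n hn
      simp only [Submodule.coe_smul, Pi.smul_apply, LinearMap.smul_apply]
      rw [hX.crea a ha n hn, smul_zero]
    · exact rd_loc_smul c (loc_symm (h1 a ha))
  have hzero : (0 : FS W) ∈ X := by
    have := hsmul 0 idF hid
    rwa [zero_smul] at this
  let XX : Submodule ℂ (FS W) :=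
    { carrier := X
      zero_mem' := hzero
      add_mem' := fun {a b} ha hb => hadd a ha b hb
      smul_mem' := hsmul }
  let ev : XX →ₗ[ℂ] W :=
    { toFun := fun a => a.1.1 (-1) vac
      map_add' := fun a b => rfl
      map_smul' := fun c a => rfl }
  have hev : ∀ a : XX, ev a = a.1.1 (-1) vac := fun a => rfl
  have hsurj : LinearMap.range ev = ⊤ := by
    apply hgen
    · refine ⟨⟨idF, hid⟩, ?_⟩
      rw [hev]
      simp [idF]
    · rintro a ha n _ ⟨b, rfl⟩
      refine ⟨⟨prd a b.1 n, hprd a (hSX' ha) b.1 b.2 n⟩, ?_⟩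
      rw [hev, hev]
      exact prd_vac vac a b.1 (hX.crea a (hSX' ha)) (hX.crea b.1 b.2) n
  have hinj : ∀ a : XX, ev a = 0 → a = 0 := by
    intro a ha
    rw [hev] at ha
    have hneg : ∀ n : ℕ, a.1.1 (-1 - (n : ℤ)) vac = 0 := by
      intro n
      induction n with
      | zero => simpa using ha
      | succ n ih =>
        have h1 := hX.cov a.1 a.2 (-1 - (n : ℤ)) vac
        rw [ih, hT, map_zero, map_zero, sub_zero] at h1
        have h2 : (-((-1 - (n : ℤ) : ℤ) : ℂ)) ≠ 0 := by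
          push_cast
          have : (n : ℂ) + 1 ≠ 0 := Nat.cast_add_one_ne_zero n
          intro h
          apply this
          linear_combination h
        have h3 := (smul_eq_zero.1 h1.symm).resolve_left h2
        rw [show (-1 - ((n + 1 : ℕ) : ℤ)) = -1 - (n : ℤ) - 1 by push_cast; ring]
        exact h3
    have hall : ∀ n : ℤ, a.1.1 n vac = 0 := by
      intro n
      by_cases hn : 0 ≤ n
      · exact hX.crea a.1 a.2 n hn
      · have := hneg (-1 - n).toNat
        rw [Int.toNat_of_nonneg (by omega)] at this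
        rwa [show (-1 - (-1 - n) : ℤ) = n by ring] at this
    have hzero : ∀ (k : ℤ) (v : W), a.1.1 k v = 0 := by
      intro k v
      obtain ⟨b, rfl⟩ : ∃ b, ev b = v := by
        have : v ∈ LinearMap.range ev := by rw [hsurj]; trivial
        exact this
      rw [hev]
      obtain ⟨N, hN⟩ := hX.loc a.1 a.2 b.1 b.2
      have h1 := hN (k - N) (-1) vac
      unfold RR at h1
      rw [finsum_eq_single _ 0] at h1
      · unfold rt at h1
        simp only [hall, map_zero, smul_zero, sub_zero, pow_zero, Ring.choose_zero_right,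
          Int.cast_one, mul_one, one_smul, Nat.cast_zero, add_zero, sub_add_cancel] at h1
        exact h1
      · intro i hi
        unfold rt
        rw [hall, hX.crea b.1 b.2 (-1 + (i : ℤ)) (by omega)]
        simp
    apply Subtype.ext
    apply Subtype.ext
    funext k
    ext v
    exact hzero k v
  have hinj' : Function.Injective ev := by
    intro a b hab
    have h1 : ev (a + (-1 : ℂ) • b) = 0 := by
      rw [map_add, map_smul, hab, neg_one_smul, add_neg_cancel]
    have h2 : a.1 + (-1 : ℂ) • b.1 = 0 := congrArg Subtype.val (hinj _ h1)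
    refine Subtype.ext (Subtype.ext ?_)
    funext k
    ext v
    have h3 : a.1.1 k v + (-1 : ℂ) • b.1.1 k v = 0 := congrArg (fun x : FS W => x.1 k v) h2
    rw [neg_one_smul, ← sub_eq_add_neg, sub_eq_zero] at h3
    exact h3
  let E : XX ≃ₗ[ℂ] W := LinearEquiv.ofBijective ev ⟨hinj', LinearMap.range_eq_top.1 hsurj⟩
  have hE : ∀ a : XX, E a = a.1.1 (-1) vac := fun a => rfl
  let Y : W →ₗ[ℂ] (ℤ → Module.End ℂ W) :=
    ((FS W).subtype ∘ₗ XX.subtype) ∘ₗ E.symm.toLinearMap
  have hYE : ∀ a : XX, Y (a.1.1 (-1) vac) = a.1.1 := by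
    intro a
    have : E.symm (a.1.1 (-1) vac) = a := by
      rw [← hE, LinearEquiv.symm_apply_apply]
    show ((E.symm (a.1.1 (-1) vac)).1).1 = a.1.1
    rw [this]
  have hY : ∀ u : W, ∃ a : XX, Y u = a.1.1 ∧ u = a.1.1 (-1) vac := by
    intro u
    exact ⟨E.symm u, rfl, by rw [← hE, LinearEquiv.apply_symm_apply]⟩
  have hYprd : ∀ (a b : XX) (l : ℤ), Y (a.1.1 l (b.1.1 (-1) vac)) = (prd a.1 b.1 l).1 := by
    intro a b l
    rw [← prd_vac vac a.1 b.1 (hX.crea a.1 a.2) (hX.crea b.1 b.2) l]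
    exact hYE ⟨prd a.1 b.1 l, hprd a.1 a.2 b.1 b.2 l⟩
  refine ⟨{ Y := Y
            vac := vac
            trunc := ?_
            vacuum := ?_
            creation := ?_
            creation_neg_one := ?_
            jacobi := ?_ }, rfl, ?_, ?_⟩
  · intro u v
    obtain ⟨a, ha, -⟩ := hY u
    rw [ha]
    exact a.1.2 v
  · intro n v
    have h1 : Y vac = (idF (W := W)).1 := by
      have h2 := hYE ⟨idF, hid⟩
      have h3 : (idF (W := W)).1 (-1) vac = vac := by simp [idF]
      rw [h3] at h2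
      exact h2
    rw [h1]
    simp only [idF]
    split_ifs <;> rfl
  · intro u n hn
    obtain ⟨a, ha, -⟩ := hY u
    rw [ha]
    exact hX.crea a.1 a.2 n hn
  · intro u
    obtain ⟨a, ha, hu⟩ := hY u
    rw [ha]
    exact hu.symm
  · intro u v w l m n
    obtain ⟨a, ha, hu⟩ := hY u
    obtain ⟨b, hb, hv⟩ := hY v
    have h1 := borcherds a.1 b.1 (hX.loc a.1 a.2 b.1 b.2) l m n w
    unfold RR rt at h1
    rw [ha, hb, ← h1]
    congr 1
    funext i
    rw [hv, hYprd]
  · intro a ha
    exact hYE ⟨a, hSX' ha⟩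
  · intro u
    obtain ⟨a, ha, -⟩ := hY u
    show Cov T (Y u)
    rw [ha]
    exact hX.cov a.1 a.2

end Pool.Agent.VL
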